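import Mathlib

set_option autoImplicit false
universe u

namespace Pool.Agent.Lib.MP_a60229_an

open Metric Set

/-- A normed space is polyhedral when its closed unit ball meets each finite-dimensional
subspace in a set with finitely many extreme points. -/
def IsPolyhedral (X : Type u) [NormedAddCommGroup X] [NormedSpace ℝ X] : Prop :=
  ∀ G : Submodule ℝ X, FiniteDimensional ℝ G →
    (Set.extremePoints ℝ (Metric.closedBall (0 : X) 1 ∩ (G : Set X))).Finite

/-- `B` is a boundary of `X` with property (*). -/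
structure IsStarBoundary {X : Type u} [NormedAddCommGroup X] [NormedSpace ℝ X]
    (B : Set (X →L[ℝ] ℝ)) : Prop where
  norm_le : ∀ f ∈ B, ‖f‖ ≤ 1
  attains : ∀ x : X, ‖x‖ = 1 → ∃ f ∈ B, f x = 1
  finite_near : ∀ x : X, ‖x‖ = 1 → ∃ η : ℝ, 0 < η ∧ {f | f ∈ B ∧ 1 - η < f x}.Finite

variable {E : Type u} [NormedAddCommGroup E] [NormedSpace ℝ E]

/-- `f` is the only member of `B` which attains the value one at the unit vector `z`. -/
def StrictAt (B : Set (E →L[ℝ] ℝ)) (f : E →L[ℝ] ℝ) (z : E) : Prop :=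
  f ∈ B ∧ ‖z‖ = 1 ∧ f z = 1 ∧ ∀ g ∈ B, g z = 1 → g = f

namespace IsStarBoundary

variable {B : Set (E →L[ℝ] ℝ)}

theorem apply_le (hB : IsStarBoundary B) {f : E →L[ℝ] ℝ} (hf : f ∈ B) (x : E) : f x ≤ ‖x‖ := by
  have h := f.le_of_opNorm_le (hB.norm_le f hf) x
  rw [one_mul] at h
  exact (le_abs_self _).trans h

theorem exists_eq_norm (hB : IsStarBoundary B) {x : E} (hx : x ≠ 0) : ∃ f ∈ B, f x = ‖x‖ := by
  have hx' : ‖x‖ ≠ 0 := norm_ne_zero_iff.mpr hx
  obtain ⟨f, hf, h⟩ := hB.attains (‖x‖⁻¹ • x) (by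
    rw [norm_smul, norm_inv, norm_norm, inv_mul_cancel₀ hx'])
  refine ⟨f, hf, ?_⟩
  rw [map_smul, smul_eq_mul] at h
  field_simp at h
  linarith

theorem norm_le_of_forall (hB : IsStarBoundary B) {x : E} {r : ℝ} (hr : 0 ≤ r)
    (h : ∀ f ∈ B, f x ≤ r) : ‖x‖ ≤ r := by
  rcases eq_or_ne x 0 with rfl | hx
  · simpa using hr
  · obtain ⟨f, hf, hfx⟩ := hB.exists_eq_norm hx
    rw [← hfx]
    exact h f hf

/-- Gap at a unit vector. -/
theorem gap (hB : IsStarBoundary B) {x : E} (hx : ‖x‖ = 1) :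
    ∃ η : ℝ, 0 < η ∧ ∀ f ∈ B, f x ≠ 1 → f x ≤ 1 - η := by
  obtain ⟨η₀, hη₀, hfin⟩ := hB.finite_near x hx
  set T : Set (E →L[ℝ] ℝ) := {f | f ∈ B ∧ 1 - η₀ < f x ∧ f x ≠ 1} with hT
  have hTfin : T.Finite := hfin.subset (fun f hf => ⟨hf.1, hf.2.1⟩)
  rcases T.eq_empty_or_nonempty with hTe | hTn
  · refine ⟨η₀, hη₀, fun f hf hne => ?_⟩
    by_contra hcon
    push Not at hcon
    have : f ∈ T := ⟨hf, hcon, hne⟩
    rw [hTe] at this
    exact this
  · obtain ⟨f₀, hf₀, hmin⟩ := Set.exists_min_image T (fun f => 1 - f x) hTfin hTn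
    have hpos : 0 < 1 - f₀ x := by
      have h1 := hB.apply_le hf₀.1 x
      rw [hx] at h1
      have h2 := lt_of_le_of_ne h1 hf₀.2.2
      linarith
    refine ⟨min η₀ (1 - f₀ x), lt_min hη₀ hpos, fun f hf hne => ?_⟩
    by_cases hfx : 1 - η₀ < f x
    · have := hmin f ⟨hf, hfx, hne⟩
      have h3 := min_le_right η₀ (1 - f₀ x)
      linarith
    · have h3 := min_le_left η₀ (1 - f₀ x)
      push Not at hfx
      linarith

theorem finite_active (hB : IsStarBoundary B) {x : E} (hx : ‖x‖ = 1) :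
    {f | f ∈ B ∧ f x = 1}.Finite := by
  obtain ⟨η, hη, hfin⟩ := hB.finite_near x hx
  refine hfin.subset (fun f hf => ⟨hf.1, ?_⟩)
  rw [hf.2]
  linarith

/-- Local structure: small moves which do not increase the active functionals stay in the ball. -/
theorem norm_add_le (hB : IsStarBoundary B) {x v : E} {η : ℝ}
    (hgap : ∀ f ∈ B, f x ≠ 1 → f x ≤ 1 - η) (hv : ‖v‖ ≤ η)
    (hact : ∀ f ∈ B, f x = 1 → f v ≤ 0) : ‖x + v‖ ≤ 1 := by
  refine hB.norm_le_of_forall zero_le_one (fun f hf => ?_)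
  rw [map_add]
  by_cases h : f x = 1
  · have := hact f hf h
    linarith
  · have h1 := hgap f hf h
    have h2 := hB.apply_le hf v
    linarith

/-- The strict members of a star boundary still attain the norm. -/
theorem exists_strict (hB : IsStarBoundary B) {x : E} (hx : ‖x‖ = 1) :
    ∃ f, f x = 1 ∧ ∃ z, StrictAt B f z := by
  classical
  obtain ⟨η, hη, hgap⟩ := hB.gap hx
  have hAfin := hB.finite_active hx
  set A : Set (E →L[ℝ] ℝ) := {f | f ∈ B ∧ f x = 1} with hA
  have hAn : A.Nonempty := by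
    obtain ⟨f, hf, h⟩ := hB.attains x hx
    exact ⟨f, hf, h⟩
  -- a vector separating the members of `A`
  obtain ⟨v, hv⟩ : ∃ v : E, ∀ f ∈ A, ∀ g ∈ A, f ≠ g → f v ≠ g v := by
    set s : Finset (Submodule ℝ E) :=
      ((hAfin.toFinset ×ˢ hAfin.toFinset).filter (fun p => p.1 ≠ p.2)).image
        (fun p => LinearMap.ker ((p.1 - p.2 : E →L[ℝ] ℝ) : E →ₗ[ℝ] ℝ)) with hs
    have htop : ⊤ ∉ s := by
      intro hmem
      rw [hs, Finset.mem_image] at hmem
      obtain ⟨p, hp, hker⟩ := hmem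
      rw [Finset.mem_filter] at hp
      apply hp.2
      ext y
      have : y ∈ LinearMap.ker ((p.1 - p.2 : E →L[ℝ] ℝ) : E →ₗ[ℝ] ℝ) := by
        rw [hker]; trivial
      rw [LinearMap.mem_ker] at this
      simpa [sub_eq_zero] using this
    have hne := Subspace.biUnion_ne_univ_of_top_notMem htop
    rw [Ne, Set.eq_univ_iff_forall, not_forall] at hne
    obtain ⟨v, hv⟩ := hne
    refine ⟨v, fun f hf g hg hfg heq => hv ?_⟩
    rw [Set.mem_iUnion₂]
    refine ⟨LinearMap.ker ((f - g : E →L[ℝ] ℝ) : E →ₗ[ℝ] ℝ), ?_, ?_⟩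
    · rw [hs, Finset.mem_image]
      refine ⟨(f, g), ?_, rfl⟩
      rw [Finset.mem_filter, Finset.mem_product]
      exact ⟨⟨hAfin.mem_toFinset.2 hf, hAfin.mem_toFinset.2 hg⟩, hfg⟩
    · rw [SetLike.mem_coe, LinearMap.mem_ker]
      simp [heq]
  obtain ⟨f, hf, hmax⟩ := Set.exists_max_image A (fun f => f v) hAfin hAn
  -- small step
  obtain ⟨t, ht, htv, htv1⟩ : ∃ t : ℝ, 0 < t ∧ 2 * (t * ‖v‖) < η ∧ 2 * (t * ‖v‖) < 1 := by
    have hm : 0 < min η 1 := lt_min hη one_pos
    refine ⟨min η 1 / (4 * (‖v‖ + 1)), by positivity, ?_, ?_⟩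
    · refine lt_of_lt_of_le ?_ (min_le_left η 1)
      have hv0 := norm_nonneg v
      rw [div_mul_eq_mul_div, ← mul_div_assoc, div_lt_iff₀ (by positivity)]
      nlinarith
    · refine lt_of_lt_of_le ?_ (min_le_right η 1)
      have hv0 := norm_nonneg v
      rw [div_mul_eq_mul_div, ← mul_div_assoc, div_lt_iff₀ (by positivity)]
      nlinarith
  have hfv : |f v| ≤ ‖v‖ := by
    have h := f.le_of_opNorm_le (hB.norm_le f hf.1) v
    rwa [one_mul] at h
  have hfy : f (x + t • v) = 1 + t * f v := by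
    rw [map_add, map_smul, smul_eq_mul, hf.2]
  have h4 := mul_le_mul_of_nonneg_left (neg_le_of_abs_le hfv) ht.le
  -- comparison
  have hcomp : ∀ g ∈ B, g ≠ f → g (x + t • v) < f (x + t • v) := by
    intro g hg hgf
    rw [hfy, map_add, map_smul, smul_eq_mul]
    by_cases hgx : g x = 1
    · have h1 : g v ≤ f v := hmax g ⟨hg, hgx⟩
      have h2 : g v ≠ f v := hv g ⟨hg, hgx⟩ f hf hgf
      have h3 := lt_of_le_of_ne h1 h2
      rw [hgx]
      have := mul_lt_mul_of_pos_left h3 ht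
      linarith
    · have h1 := hgap g hg hgx
      have h2 : g v ≤ ‖v‖ := hB.apply_le hg v
      have h3 := mul_le_mul_of_nonneg_left h2 ht.le
      nlinarith
  have hpos : 0 < f (x + t • v) := by
    rw [hfy]
    nlinarith
  have hnorm : ‖x + t • v‖ = f (x + t • v) := by
    refine le_antisymm (hB.norm_le_of_forall hpos.le (fun g hg => ?_)) (hB.apply_le hf.1 _)
    by_cases hgf : g = f
    · rw [hgf]
    · exact (hcomp g hg hgf).le
  refine ⟨f, hf.2, (f (x + t • v))⁻¹ • (x + t • v), hf.1, ?_, ?_, ?_⟩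
  · rw [norm_smul, norm_inv, Real.norm_eq_abs, abs_of_pos hpos, hnorm, inv_mul_cancel₀ hpos.ne']
  · rw [map_smul, smul_eq_mul, inv_mul_cancel₀ hpos.ne']
  · intro g hg hgz
    by_contra hgf
    have := hcomp g hg hgf
    rw [map_smul, smul_eq_mul, inv_mul_eq_div, div_eq_one_iff_eq hpos.ne'] at hgz
    exact absurd hgz this.ne

/-- Restricting to the strict members keeps the star property. -/
theorem strictPart (hB : IsStarBoundary B) :
    IsStarBoundary {f | ∃ z, StrictAt B f z} where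
  norm_le := fun f ⟨_, hz⟩ => hB.norm_le f hz.1
  attains := fun x hx => by
    obtain ⟨f, hfx, hz⟩ := hB.exists_strict hx
    exact ⟨f, hz, hfx⟩
  finite_near := fun x hx => by
    obtain ⟨η, hη, hfin⟩ := hB.finite_near x hx
    exact ⟨η, hη, hfin.subset (fun f hf => ⟨hf.1.choose_spec.1, hf.2⟩)⟩

/-- Every star boundary can be symmetrised. -/
theorem symm (hB : IsStarBoundary B) : IsStarBoundary {f | f ∈ B ∨ -f ∈ B} where
  norm_le := by
    rintro f (hf | hf)
    · exact hB.norm_le f hf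
    · have := hB.norm_le _ hf
      rwa [norm_neg] at this
  attains := fun x hx => by
    obtain ⟨f, hf, hfx⟩ := hB.attains x hx
    exact ⟨f, Or.inl hf, hfx⟩
  finite_near := fun x hx => by
    obtain ⟨η, hη, hfin⟩ := hB.finite_near x hx
    obtain ⟨η', hη', hfin'⟩ := hB.finite_near (-x) (by rwa [norm_neg])
    refine ⟨min η η', lt_min hη hη', ?_⟩
    refine (hfin.union (hfin'.image (fun f => -f))).subset ?_
    rintro f ⟨hf | hf, hfx⟩
    · left
      exact ⟨hf, by linarith [min_le_left η η']⟩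
    · right
      refine ⟨-f, ⟨hf, ?_⟩, neg_neg f⟩
      rw [map_neg, neg_apply, neg_neg]
      linarith [min_le_right η η']

end IsStarBoundary

/-- A star boundary which is symmetric and all of whose members are strict somewhere. -/
structure IsGoodBoundary (B : Set (E →L[ℝ] ℝ)) : Prop extends IsStarBoundary B where
  neg_mem : ∀ f ∈ B, -f ∈ B
  strict : ∀ f ∈ B, ∃ z, StrictAt B f z

theorem IsStarBoundary.exists_good {B : Set (E →L[ℝ] ℝ)} (hB : IsStarBoundary B) :
    ∃ C : Set (E →L[ℝ] ℝ), IsGoodBoundary C := by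
  set D : Set (E →L[ℝ] ℝ) := {f | f ∈ B ∨ -f ∈ B} with hD
  have hDs : IsStarBoundary D := hB.symm
  have hDneg : ∀ f ∈ D, -f ∈ D := by
    rintro f (hf | hf)
    · right; rwa [neg_neg]
    · left; exact hf
  refine ⟨{f | ∃ z, StrictAt D f z}, ⟨hDs.strictPart, ?_, ?_⟩⟩
  · rintro f ⟨z, hz⟩
    refine ⟨-z, hDneg f hz.1, by rw [norm_neg]; exact hz.2.1, ?_, ?_⟩
    · rw [map_neg, neg_apply, neg_neg]; exact hz.2.2.1
    · intro g hg hgz
      have h1 : (-g) z = 1 := by
        rw [neg_apply, ← map_neg]; exact hgz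
      have h2 := hz.2.2.2 (-g) (hDneg g hg) h1
      rw [← h2, neg_neg]
  · rintro f ⟨z, hz⟩
    exact ⟨z, ⟨z, hz⟩, hz.2.1, hz.2.2.1, fun g hg hgz => hz.2.2.2 g hg.choose_spec.1 hgz⟩

/-- An active strict functional is strict at points arbitrarily close to the given point. -/
theorem StrictAt.segment {B : Set (E →L[ℝ] ℝ)} (hB : IsStarBoundary B) {f : E →L[ℝ] ℝ} {x z : E}
    (hz : StrictAt B f z) (hx : ‖x‖ ≤ 1) (hfx : f x = 1) {s : ℝ} (hs : 0 < s) (hs1 : s ≤ 1) :
    StrictAt B f ((1 - s) • x + s • z) := by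
  have hle : ‖(1 - s) • x + s • z‖ ≤ 1 := by
    refine (norm_add_le _ _).trans ?_
    rw [norm_smul, norm_smul, Real.norm_eq_abs, Real.norm_eq_abs, abs_of_nonneg (by linarith),
      abs_of_pos hs, hz.2.1]
    nlinarith
  have hval : f ((1 - s) • x + s • z) = 1 := by
    rw [map_add, map_smul, map_smul, smul_eq_mul, smul_eq_mul, hfx, hz.2.2.1]
    ring
  refine ⟨hz.1, le_antisymm hle ?_, hval, ?_⟩
  · have h := hB.apply_le hz.1 ((1 - s) • x + s • z)
    rwa [hval] at h
  · intro g hg hgv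
    apply hz.2.2.2 g hg
    rw [map_add, map_smul, map_smul, smul_eq_mul, smul_eq_mul] at hgv
    have h1 := (hB.apply_le hg x).trans hx
    have h2 := hB.apply_le hg z
    rw [hz.2.1] at h2
    refine le_antisymm h2 ?_
    by_contra hcon
    push Not at hcon
    have := mul_lt_mul_of_pos_left hcon hs
    have := mul_le_mul_of_nonneg_left h1 (sub_nonneg.2 hs1)
    linarith

end Pool.Agent.Lib.MP_a60229_an
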