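import Mathlib

set_option autoImplicit false
universe u

namespace Pool.Agent.Lib.MP_a60229_an

open Metric Set Filter Topology

variable {E : Type u} [NormedAddCommGroup E] [NormedSpace ℝ E]

/-- If `x - s v` is in the set for a small positive `s` and `x + v` is in the set, then `x` is
extreme only if `v = 0`. -/
theorem eq_zero_of_extreme {P : Set E} {x v : E} (hx : x ∈ P.extremePoints ℝ) {s : ℝ}
    (hs : 0 < s) (h1 : x - s • v ∈ P) (h2 : x + v ∈ P) : v = 0 := by
  rw [mem_extremePoints_iff_left] at hx
  have hmem : x ∈ openSegment ℝ (x - s • v) (x + v) := by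
    refine ⟨1 / (1 + s), s / (1 + s), by positivity, by positivity, by field_simp, ?_⟩
    rw [smul_sub, smul_add, smul_smul]
    have : (1 / (1 + s)) • x - (1 / (1 + s) * s) • v + ((s / (1 + s)) • x + (s / (1 + s)) • v)
        = ((1 / (1 + s)) + s / (1 + s)) • x + (s / (1 + s) - 1 / (1 + s) * s) • v := by
      module
    rw [this]
    have e1 : (1 / (1 + s)) + s / (1 + s) = 1 := by field_simp
    have e2 : s / (1 + s) - 1 / (1 + s) * s = 0 := by field_simp; ring
    rw [e1, e2, one_smul, zero_smul, add_zero]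
  have := hx.2 _ h1 _ h2 hmem
  have h3 : s • v = 0 := by
    have : x - s • v = x := this
    rwa [sub_eq_self] at this
  rcases smul_eq_zero.1 h3 with h | h
  · exact absurd h hs.ne'
  · exact h

/-- Finitely many linear inequalities on a subspace: finitely many extreme points. -/
theorem finite_extreme_of_ineq {A : Set (E →L[ℝ] ℝ)} (hA : A.Finite) (G : Submodule ℝ E) :
    (Set.extremePoints ℝ {x : E | x ∈ G ∧ ∀ f ∈ A, f x ≤ 1}).Finite := by
  set P : Set E := {x : E | x ∈ G ∧ ∀ f ∈ A, f x ≤ 1} with hP
  refine Set.Finite.of_injOn (f := fun x : E => {f | f ∈ A ∧ f x = 1}) (t := 𝒫 A) ?_ ?_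
    hA.finite_subsets
  · intro x _ f hf
    exact hf.1
  · intro x hx y hy hxy
    have hxP : x ∈ P := extremePoints_subset hx
    have hyP : y ∈ P := extremePoints_subset hy
    have hev : ∀ᶠ s : ℝ in 𝓝[>] 0, ∀ f ∈ A, f (x - s • (y - x)) ≤ 1 := by
      rw [hA.eventually_all]
      intro f hf
      by_cases hfx : f x = 1
      · have hfy : f y = 1 := by
          have : f ∈ {f | f ∈ A ∧ f x = 1} := ⟨hf, hfx⟩
          have h2 : f ∈ {f | f ∈ A ∧ f y = 1} := by
            have hxy' : {f | f ∈ A ∧ f x = 1} = {f | f ∈ A ∧ f y = 1} := hxy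
            rwa [← hxy']
          exact h2.2
        refine Eventually.of_forall (fun s => ?_)
        rw [map_sub, map_smul, map_sub, hfx, hfy]
        simp
      · have hlt : f x < 1 := lt_of_le_of_ne (hxP.2 f hf) hfx
        have hcont : Continuous (fun s : ℝ => f (x - s • (y - x))) := by fun_prop
        have ht : Tendsto (fun s : ℝ => f (x - s • (y - x))) (𝓝[>] 0) (𝓝 (f x)) := by
          have := (hcont.tendsto 0).mono_left (nhdsWithin_le_nhds (s := Ioi 0))
          simpa using this
        filter_upwards [ht.eventually_lt_const hlt] with s hs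
        exact hs.le
    obtain ⟨s, hs, hspos⟩ := (hev.and self_mem_nhdsWithin).exists
    have h1 : x - s • (y - x) ∈ P := ⟨G.sub_mem hxP.1 (G.smul_mem _ (G.sub_mem hyP.1 hxP.1)), hs⟩
    have h2 : x + (y - x) ∈ P := by rwa [add_sub_cancel]
    have := eq_zero_of_extreme hx hspos h1 h2
    exact (sub_eq_zero.1 this).symm

/-- The section of a polytope (given by vertices) by a subspace has finitely many extreme points. -/
theorem finite_extreme_section {S : Set E} (hS : S.Finite) (G : Submodule ℝ E) :
    (Set.extremePoints ℝ (convexHull ℝ S ∩ (G : Set E))).Finite := by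
  classical
  have hw : ∀ x : E, x ∈ convexHull ℝ S → ∃ w : E → ℝ, (∀ y ∈ S, 0 ≤ w y) ∧
      ∑ y ∈ hS.toFinset, w y = 1 ∧ ∑ y ∈ hS.toFinset, w y • y = x := by
    intro x hx
    rw [hS.convexHull_eq] at hx
    obtain ⟨w, h1, h2, h3⟩ := hx
    refine ⟨w, h1, h2, ?_⟩
    rwa [Finset.centerMass_eq_of_sum_1 _ _ h2] at h3
  choose! w hw1 hw2 hw3 using hw
  have hback : ∀ a : E → ℝ, (∀ y ∈ S, 0 ≤ a y) → ∑ y ∈ hS.toFinset, a y = 1 →
      ∑ y ∈ hS.toFinset, a y • y ∈ convexHull ℝ S := by
    intro a h1 h2
    rw [hS.convexHull_eq]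
    refine ⟨a, h1, h2, ?_⟩
    rw [Finset.centerMass_eq_of_sum_1 _ _ h2]
    rfl
  refine Set.Finite.of_injOn (f := fun x : E => {y | y ∈ S ∧ 0 < w x y}) (t := 𝒫 S) ?_ ?_
    hS.finite_subsets
  · intro x _ y hy
    exact hy.1
  · intro x hx y hy hxy
    have hxP := extremePoints_subset hx
    have hyP := extremePoints_subset hy
    have hev : ∀ᶠ s : ℝ in 𝓝[>] 0, ∀ z ∈ S, 0 ≤ w x z - s * (w y z - w x z) := by
      rw [hS.eventually_all]
      intro z hz
      rcases lt_or_eq_of_le (hw1 x hxP.1 z hz) with hlt | heq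
      · have hcont : Continuous (fun s : ℝ => w x z - s * (w y z - w x z)) := by fun_prop
        have ht : Tendsto (fun s : ℝ => w x z - s * (w y z - w x z)) (𝓝[>] 0) (𝓝 (w x z)) := by
          have := (hcont.tendsto 0).mono_left (nhdsWithin_le_nhds (s := Ioi 0))
          simpa using this
        filter_upwards [ht.eventually_const_lt hlt] with s hs
        exact hs.le
      · have : w y z = 0 := by
          refine le_antisymm ?_ (hw1 y hyP.1 z hz)
          by_contra hcon
          push Not at hcon
          have h1 : z ∈ {z | z ∈ S ∧ 0 < w y z} := ⟨hz, hcon⟩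
          have hxy' : {z | z ∈ S ∧ 0 < w x z} = {z | z ∈ S ∧ 0 < w y z} := hxy
          rw [← hxy'] at h1
          have := h1.2
          rw [← heq] at this
          exact lt_irrefl _ this
        refine Eventually.of_forall (fun s => ?_)
        rw [this, ← heq]
        simp
    obtain ⟨s, hs, hspos⟩ := (hev.and self_mem_nhdsWithin).exists
    have hspos' : 0 < s := hspos
    have h1 : x - s • (y - x) ∈ convexHull ℝ S ∩ (G : Set E) := by
      refine ⟨?_, G.sub_mem hxP.2 (G.smul_mem _ (G.sub_mem hyP.2 hxP.2))⟩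
      have := hback (fun z => w x z - s * (w y z - w x z)) hs (by
        rw [Finset.sum_sub_distrib, ← Finset.mul_sum, Finset.sum_sub_distrib, hw2 x hxP.1,
          hw2 y hyP.1]
        ring)
      convert this using 1
      simp only [sub_smul, mul_smul, Finset.sum_sub_distrib, ← Finset.smul_sum, hw3 x hxP.1,
        hw3 y hyP.1]
    have h2 : x + (y - x) ∈ convexHull ℝ S ∩ (G : Set E) := by rwa [add_sub_cancel]
    have := eq_zero_of_extreme hx hspos' h1 h2
    exact (sub_eq_zero.1 this).symm

end Pool.Agent.Lib.MP_a60229_an
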