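import Pool.Agent.Lib.MP_a60229_an.Renorm
import Pool.Agent.Lib.MP_a60229_an.Polytope

set_option autoImplicit false
universe u

namespace Pool.Agent.Lib.MP_a60229_an

open Metric Set Filter Topology

variable {E : Type u} [NormedAddCommGroup E] [NormedSpace ℝ E]

/-- A system of spikes over distinct members of the boundary. -/
structure IsSpikes (B : Set (E →L[ℝ] ℝ)) {J : Type u} (f : J → (E →L[ℝ] ℝ)) (y : J → E)
    (δ : J → ℝ) : Prop where
  mem : ∀ j, f j ∈ B
  inj : Function.Injective f
  pos : ∀ j, 0 < δ j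
  val : ∀ j, f j (y j) = 1 + δ j
  off : ∀ j, ∀ g ∈ B, g ≠ f j → g (y j) ≤ 1 - δ j
  neg : ∀ j, ∃ j', y j' = - y j

/-- The body spanned by the unit ball and the spikes. -/
def spikeBody {J : Type u} (y : J → E) : Set E :=
  {x | ‖x‖ ≤ 1 ∨ ∃ j, ∃ l : ℝ, 0 ≤ l ∧ l ≤ 1 ∧ ‖x - l • y j‖ ≤ 1 - l}

variable {B : Set (E →L[ℝ] ℝ)} {J : Type u} {f : J → (E →L[ℝ] ℝ)} {y : J → E} {δ : J → ℝ}

/-- weighted average of two spikes lies in the ball -/
theorem IsSpikes.average (hB : IsStarBoundary B) (h : IsSpikes B f y δ) {i j : J} (hij : i ≠ j) :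
    ‖δ j • y i + δ i • y j‖ ≤ δ i + δ j := by
  have hi := h.pos i
  have hj := h.pos j
  refine hB.norm_le_of_forall (by linarith) (fun g hg => ?_)
  rw [map_add, map_smul, map_smul, smul_eq_mul, smul_eq_mul]
  have hne : f i ≠ f j := fun he => hij (h.inj he)
  by_cases h1 : g = f i
  · have h2 : g (y j) ≤ 1 - δ j := h.off j g hg (by rw [h1]; exact hne)
    have h3 : g (y i) = 1 + δ i := by rw [h1]; exact h.val i
    rw [h3]
    nlinarith
  · by_cases h1' : g = f j
    · have h2 : g (y i) ≤ 1 - δ i := h.off i g hg h1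
      have h3 : g (y j) = 1 + δ j := by rw [h1']; exact h.val j
      rw [h3]
      nlinarith
    · have h2 : g (y i) ≤ 1 - δ i := h.off i g hg h1
      have h3 : g (y j) ≤ 1 - δ j := h.off j g hg h1'
      nlinarith [mul_pos hi hj]

theorem mem_spikeBody_of_le {x : E} (hx : ‖x‖ ≤ 1) : x ∈ spikeBody y := Or.inl hx

theorem spike_mem (j : J) : y j ∈ spikeBody y :=
  Or.inr ⟨j, 1, zero_le_one, le_rfl, by simp⟩

/-- the combination of a ball part and two spikes, first case -/
theorem IsSpikes.combine (hB : IsStarBoundary B) (h : IsSpikes B f y δ) {i j : J} (hij : i ≠ j)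
    {w : E} {β γ : ℝ} (_hβ : 0 ≤ β) (hγ : 0 ≤ γ) (hle : γ * δ j ≤ β * δ i)
    (hw : ‖w - β • y i - γ • y j‖ ≤ 1 - β - γ) : w ∈ spikeBody y := by
  have hi := h.pos i
  have hj := h.pos j
  have hav := h.average hB hij
  have hν0 : 0 ≤ β - γ * δ j / δ i := by
    rw [sub_nonneg, div_le_iff₀ hi]; exact hle
  have hq : 0 ≤ γ * δ j / δ i := by positivity
  have hn := norm_nonneg (w - β • y i - γ • y j)
  refine Or.inr ⟨i, β - γ * δ j / δ i, hν0, by linarith, ?_⟩
  have h1 : w - (β - γ * δ j / δ i) • y i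
      = (w - β • y i - γ • y j) + (γ / δ i) • (δ j • y i + δ i • y j) := by
    rw [smul_add, smul_smul, smul_smul, div_mul_cancel₀ _ hi.ne', sub_smul,
      div_mul_eq_mul_div]
    abel
  rw [h1]
  refine (norm_add_le _ _).trans ?_
  rw [norm_smul, Real.norm_eq_abs, abs_of_nonneg (by positivity)]
  have h2 := mul_le_mul_of_nonneg_left hav (show 0 ≤ γ / δ i by positivity)
  have h3 : γ / δ i * (δ i + δ j) = γ + γ * δ j / δ i := by field_simp
  linarith

theorem IsSpikes.convex (hB : IsStarBoundary B) (h : IsSpikes B f y δ) :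
    Convex ℝ (spikeBody y) := by
  -- two members of the ball-and-one-spike type
  have key : ∀ (i j : J) (u v : E) (l m a b : ℝ), 0 ≤ l → l ≤ 1 → 0 ≤ m → m ≤ 1 →
      ‖u - l • y i‖ ≤ 1 - l → ‖v - m • y j‖ ≤ 1 - m → 0 ≤ a → 0 ≤ b → a + b = 1 →
      a • u + b • v ∈ spikeBody y := by
    intro i j u v l m a b hl0 hl1 hm0 hm1 hu hv ha hb hab
    have hsum : ‖a • u + b • v - (a * l) • y i - (b * m) • y j‖ ≤ 1 - a * l - b * m := by
      have h1 : a • u + b • v - (a * l) • y i - (b * m) • y j
          = a • (u - l • y i) + b • (v - m • y j) := by module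
      rw [h1]
      refine (norm_add_le _ _).trans ?_
      rw [norm_smul, norm_smul, Real.norm_eq_abs, Real.norm_eq_abs, abs_of_nonneg ha,
        abs_of_nonneg hb]
      have h2 := mul_le_mul_of_nonneg_left hu ha
      have h3 := mul_le_mul_of_nonneg_left hv hb
      nlinarith
    by_cases hij : i = j
    · subst hij
      refine Or.inr ⟨i, a * l + b * m, by positivity, ?_, ?_⟩
      · have := mul_le_mul_of_nonneg_left hl1 ha
        have := mul_le_mul_of_nonneg_left hm1 hb
        linarith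
      · have h1 : a • u + b • v - (a * l + b * m) • y i
            = a • u + b • v - (a * l) • y i - (b * m) • y i := by module
        rw [h1]
        linarith
    · rcases le_total ((b * m) * δ j) ((a * l) * δ i) with hle | hle
      · exact h.combine hB hij (by positivity) (by positivity) hle hsum
      · refine h.combine hB (Ne.symm hij) (β := b * m) (γ := a * l) (by positivity)
          (by positivity) hle ?_
        have h1 : a • u + b • v - (b * m) • y j - (a * l) • y i
            = a • u + b • v - (a * l) • y i - (b * m) • y j := by module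
        rw [h1]
        linarith
  intro u hu v hv a b ha hb hab
  rcases hu with hu | ⟨i, l, hl0, hl1, hu⟩
  · rcases hv with hv | ⟨j, m, hm0, hm1, hv⟩
    · left
      refine (norm_add_le _ _).trans ?_
      rw [norm_smul, norm_smul, Real.norm_eq_abs, Real.norm_eq_abs, abs_of_nonneg ha,
        abs_of_nonneg hb]
      nlinarith
    · exact key j j u v 0 m a b le_rfl zero_le_one hm0 hm1 (by simpa using hu) hv ha hb hab
  · rcases hv with hv | ⟨j, m, hm0, hm1, hv⟩
    · exact key i i u v l 0 a b hl0 hl1 le_rfl zero_le_one hu (by simpa using hv) ha hb hab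
    · exact key i j u v l m a b hl0 hl1 hm0 hm1 hu hv ha hb hab

theorem IsSpikes.symm (h : IsSpikes B f y δ) : ∀ x ∈ spikeBody y, -x ∈ spikeBody y := by
  rintro x (hx | ⟨j, l, hl0, hl1, hx⟩)
  · left; rwa [norm_neg]
  · obtain ⟨j', hj'⟩ := h.neg j
    refine Or.inr ⟨j', l, hl0, hl1, ?_⟩
    have : -x - l • y j' = -(x - l • y j) := by rw [hj']; module
    rw [this, norm_neg]
    exact hx

/-- Points of the body outside the ball see exactly one spike. -/
theorem IsSpikes.apply_le (hB : IsStarBoundary B) {g : E →L[ℝ] ℝ} (hg : g ∈ B) {x : E} {j : J}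
    {l : ℝ} (hx : ‖x - l • y j‖ ≤ 1 - l) : g x ≤ (1 - l) + l * g (y j) := by
  have h1 := hB.apply_le hg (x - l • y j)
  rw [map_sub, map_smul, smul_eq_mul] at h1
  linarith

theorem IsSpikes.active (hB : IsStarBoundary B) (h : IsSpikes B f y δ) {g : E →L[ℝ] ℝ}
    (hg : g ∈ B) {x : E} {j : J} {l : ℝ} (hl0 : 0 ≤ l) (hx : ‖x - l • y j‖ ≤ 1 - l)
    (hgx : 1 < g x) : g = f j := by
  by_contra hne
  have h1 := IsSpikes.apply_le hB hg hx
  have h2 := h.off j g hg hne
  have h3 := h.pos j
  nlinarith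

theorem IsSpikes.subset_ball (hB : IsStarBoundary B) (h : IsSpikes B f y δ) {r : ℝ} (hr : 0 ≤ r)
    (hδ : ∀ j, δ j ≤ r) : spikeBody y ⊆ closedBall (0 : E) (1 + r) := by
  have hy : ∀ j, ‖y j‖ ≤ 1 + r := by
    intro j
    refine hB.norm_le_of_forall (by linarith) (fun g hg => ?_)
    by_cases hgf : g = f j
    · rw [hgf, h.val j]; linarith [hδ j]
    · have := h.off j g hg hgf
      have := h.pos j
      linarith
  rintro x (hx | ⟨j, l, hl0, hl1, hx⟩)
  · rw [mem_closedBall_zero_iff]; linarith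
  · rw [mem_closedBall_zero_iff]
    have h1 : x = (x - l • y j) + l • y j := by abel
    rw [h1]
    refine (norm_add_le _ _).trans ?_
    rw [norm_smul, Real.norm_eq_abs, abs_of_nonneg hl0]
    have := mul_le_mul_of_nonneg_left (hy j) hl0
    nlinarith

/-- The part of the body belonging to one spike is closed. -/
theorem isClosed_part (p : E) :
    IsClosed {x : E | ∃ l : ℝ, 0 ≤ l ∧ l ≤ 1 ∧ ‖x - l • p‖ ≤ 1 - l} := by
  have h1 : {x : E | ∃ l : ℝ, 0 ≤ l ∧ l ≤ 1 ∧ ‖x - l • p‖ ≤ 1 - l}
      = Prod.snd '' {q : (Icc (0 : ℝ) 1) × E | ‖q.2 - (q.1 : ℝ) • p‖ ≤ 1 - (q.1 : ℝ)} := by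
    ext x
    constructor
    · rintro ⟨l, hl0, hl1, hx⟩
      exact ⟨(⟨l, hl0, hl1⟩, x), hx, rfl⟩
    · rintro ⟨⟨⟨l, hl0, hl1⟩, x'⟩, hx, rfl⟩
      exact ⟨l, hl0, hl1, hx⟩
  rw [h1]
  apply isClosedMap_snd_of_compactSpace
  exact isClosed_le (by fun_prop) (by fun_prop)

theorem IsSpikes.isClosed (hB : IsStarBoundary B) (h : IsSpikes B f y δ) :
    IsClosed (spikeBody y) := by
  rw [← isSeqClosed_iff_isClosed]
  intro u x hu hux
  by_cases hx : ‖x‖ ≤ 1
  · exact Or.inl hx
  push Not at hx
  have hx0 : x ≠ 0 := by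
    rintro rfl
    simp at hx
    linarith
  have hxpos : 0 < ‖x‖ := norm_pos_iff.2 hx0
  -- near-active functionals at the direction of `x`
  obtain ⟨η, hη, hfin⟩ := hB.finite_near (‖x‖⁻¹ • x) (by
    rw [norm_smul, norm_inv, norm_norm, inv_mul_cancel₀ hxpos.ne'])
  set F : Set (E →L[ℝ] ℝ) := {g | g ∈ B ∧ 1 - η < g (‖x‖⁻¹ • x)} with hF
  have hJ : {j | f j ∈ F}.Finite := hfin.preimage h.inj.injOn
  have hev : ∀ᶠ n in atTop, u n ∈ ⋃ j ∈ {j | f j ∈ F},
      {z : E | ∃ l : ℝ, 0 ≤ l ∧ l ≤ 1 ∧ ‖z - l • y j‖ ≤ 1 - l} := by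
    have h1 : ∀ᶠ n in atTop, 1 < ‖u n‖ := hux.norm.eventually_const_lt hx
    have h2 : ∀ᶠ n in atTop, 2 * ‖u n - x‖ < ‖x‖ * η := by
      have : Tendsto (fun n => 2 * ‖u n - x‖) atTop (𝓝 (2 * ‖x - x‖)) :=
        ((hux.sub_const x).norm).const_mul 2
      rw [sub_self, norm_zero, mul_zero] at this
      exact this.eventually_lt_const (mul_pos hxpos hη)
    filter_upwards [h1, h2] with n hn1 hn2
    rcases hu n with hle | ⟨j, l, hl0, hl1, hj⟩
    · exact absurd hle (not_le.2 hn1)
    · have hun0 : u n ≠ 0 := by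
        intro h0
        rw [h0, norm_zero] at hn1
        linarith
      obtain ⟨g, hg, hgu⟩ := hB.exists_eq_norm hun0
      have hgf : g = f j := h.active hB hg hl0 hj (by rw [hgu]; exact hn1)
      rw [mem_iUnion₂]
      refine ⟨j, ?_, l, hl0, hl1, hj⟩
      show f j ∈ F
      rw [← hgf]
      refine ⟨hg, ?_⟩
      rw [map_smul, smul_eq_mul, inv_mul_eq_div, lt_div_iff₀ hxpos]
      have h3 : g (u n) - g x ≤ ‖u n - x‖ := by
        rw [← map_sub]; exact hB.apply_le hg _
      have h4 : ‖x‖ ≤ ‖u n‖ + ‖u n - x‖ := by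
        have : x = u n - (u n - x) := by abel
        calc ‖x‖ = ‖u n - (u n - x)‖ := by rw [← this]
          _ ≤ _ := norm_sub_le _ _
      rw [hgu] at h3
      nlinarith
  have hcl : IsClosed (⋃ j ∈ {j | f j ∈ F},
      {z : E | ∃ l : ℝ, 0 ≤ l ∧ l ≤ 1 ∧ ‖z - l • y j‖ ≤ 1 - l}) :=
    hJ.isClosed_biUnion (fun j _ => isClosed_part (y j))
  have hxmem := hcl.mem_of_tendsto hux hev
  rw [mem_iUnion₂] at hxmem
  obtain ⟨j, _, l, hl0, hl1, hj⟩ := hxmem
  exact Or.inr ⟨j, l, hl0, hl1, hj⟩

theorem IsSpikes.isBody (hB : IsStarBoundary B) (h : IsSpikes B f y δ) {r : ℝ} (hr : 0 ≤ r)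
    (hδ : ∀ j, δ j ≤ r) : IsBody (spikeBody y) (1 + r) where
  convex := h.convex hB
  symm := h.symm
  closed := h.isClosed hB
  ball_subset := fun x hx => Or.inl (mem_closedBall_zero_iff.1 hx)
  subset_ball := h.subset_ball hB hr hδ
  pos := by linarith

/-- Every spike is an extreme point of the body. -/
theorem IsSpikes.extreme (hB : IsStarBoundary B) (h : IsSpikes B f y δ) (j : J) :
    y j ∈ Set.extremePoints ℝ (spikeBody y) := by
  have hδ := h.pos j
  have hmax : ∀ x ∈ spikeBody y, f j x ≤ 1 + δ j ∧ (f j x = 1 + δ j → x = y j) := by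
    rintro x (hx | ⟨i, l, hl0, hl1, hx⟩)
    · have := hB.apply_le (h.mem j) x
      constructor
      · linarith
      · intro he; linarith
    · have h1 := IsSpikes.apply_le hB (h.mem j) hx
      by_cases hij : i = j
      · subst hij
        rw [h.val i] at h1
        constructor
        · nlinarith
        · intro he
          rw [he] at h1
          have hl : l = 1 := by nlinarith
          rw [hl] at hx
          have : ‖x - (1 : ℝ) • y i‖ ≤ 0 := by linarith
          rw [norm_le_zero_iff, one_smul, sub_eq_zero] at this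
          exact this
      · have h2 := h.off i (f j) (h.mem j) (fun he => hij (h.inj he).symm)
        have h3 := h.pos i
        constructor
        · nlinarith
        · intro he; nlinarith
  rw [mem_extremePoints_iff_left]
  refine ⟨spike_mem j, ?_⟩
  rintro u hu v hv ⟨a, b, ha, hb, hab, he⟩
  have h1 := (hmax u hu).1
  have h2 := (hmax v hv).1
  have h3 : a * f j u + b * f j v = 1 + δ j := by
    rw [← h.val j, ← he, map_add, map_smul, map_smul, smul_eq_mul, smul_eq_mul]
  apply (hmax u hu).2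
  have hb' : b = 1 - a := by linarith
  subst hb'
  nlinarith

/-- Finitely many members of the boundary are active on a finite-dimensional subspace. -/
theorem IsStarBoundary.finite_on (hB : IsStarBoundary B) (G : Submodule ℝ E)
    [FiniteDimensional ℝ G] : {g | g ∈ B ∧ ∃ x ∈ G, ‖x‖ = 1 ∧ g x = 1}.Finite := by
  have hcomp : IsCompact {x : E | x ∈ G ∧ ‖x‖ = 1} := by
    have h1 : {x : E | x ∈ G ∧ ‖x‖ = 1} = (fun x : G => (x : E)) '' (sphere (0 : G) 1) := by
      ext x
      constructor
      · rintro ⟨hx, hn⟩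
        exact ⟨⟨x, hx⟩, by rw [mem_sphere_zero_iff_norm]; exact hn, rfl⟩
      · rintro ⟨x', hx', rfl⟩
        rw [mem_sphere_zero_iff_norm] at hx'
        exact ⟨x'.2, hx'⟩
    rw [h1]
    have : ProperSpace G := FiniteDimensional.proper_real G
    exact (isCompact_sphere (0 : G) 1).image continuous_subtype_val
  have hind : ∀ s : Set E, s = {x : E | x ∈ G ∧ ‖x‖ = 1} →
      {g | g ∈ B ∧ ∃ x ∈ s, ‖x‖ = 1 ∧ g x = 1}.Finite := by
    intro s hs
    have hsc : IsCompact s := by rw [hs]; exact hcomp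
    refine hsc.induction_on (p := fun s => {g | g ∈ B ∧ ∃ x ∈ s, ‖x‖ = 1 ∧ g x = 1}.Finite)
      ?_ ?_ ?_ ?_
    · simp
    · intro s t hst ht
      exact ht.subset (fun g ⟨hg, x, hx, h⟩ => ⟨hg, x, hst hx, h⟩)
    · intro s t hs ht
      refine (hs.union ht).subset ?_
      rintro g ⟨hg, x, hx | hx, h⟩
      · exact Or.inl ⟨hg, x, hx, h⟩
      · exact Or.inr ⟨hg, x, hx, h⟩
    · intro x hx
      have hxn : ‖x‖ = 1 := by rw [hs] at hx; exact hx.2
      obtain ⟨η, hη, hfin⟩ := hB.finite_near x hxn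
      refine ⟨ball x η, mem_nhdsWithin_of_mem_nhds (ball_mem_nhds x hη), ?_⟩
      refine hfin.subset ?_
      rintro g ⟨hg, x', hx', _, hgx'⟩
      refine ⟨hg, ?_⟩
      rw [mem_ball, dist_eq_norm] at hx'
      have := hB.apply_le hg (x' - x)
      rw [map_sub] at this
      linarith
  have := hind _ rfl
  refine this.subset ?_
  rintro g ⟨hg, x, hx, hn, h⟩
  exact ⟨hg, x, ⟨hx, hn⟩, hn, h⟩

theorem IsStarBoundary.section_eq (hB : IsStarBoundary B) (G : Submodule ℝ E) :
    closedBall (0 : E) 1 ∩ (G : Set E)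
      = {x : E | x ∈ G ∧ ∀ g ∈ {g | g ∈ B ∧ ∃ x ∈ G, ‖x‖ = 1 ∧ g x = 1}, g x ≤ 1} := by
  ext x
  constructor
  · rintro ⟨hx, hxG⟩
    rw [mem_closedBall_zero_iff] at hx
    exact ⟨hxG, fun g hg => (hB.apply_le hg.1 x).trans hx⟩
  · rintro ⟨hxG, hx⟩
    refine ⟨?_, hxG⟩
    rw [mem_closedBall_zero_iff]
    rcases eq_or_ne x 0 with rfl | hx0
    · simp
    · obtain ⟨g, hg, hgx⟩ := hB.exists_eq_norm hx0
      have hn : ‖x‖ ≠ 0 := norm_ne_zero_iff.2 hx0
      rw [← hgx]
      refine hx g ⟨hg, ‖x‖⁻¹ • x, G.smul_mem _ hxG, ?_, ?_⟩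
      · rw [norm_smul, norm_inv, norm_norm, inv_mul_cancel₀ hn]
      · rw [map_smul, hgx, smul_eq_mul, inv_mul_cancel₀ hn]

theorem IsStarBoundary.isPolyhedral (hB : IsStarBoundary B) : IsPolyhedral E := by
  intro G hG
  rw [hB.section_eq G]
  exact finite_extreme_of_ineq (hB.finite_on G) G

/-- the unit ball of a finite-dimensional subspace is the convex hull of a finite set -/
theorem IsPolyhedral.exists_finite (hE : IsPolyhedral E) (G : Submodule ℝ E)
    [FiniteDimensional ℝ G] :
    ∃ V : Set E, V.Finite ∧ convexHull ℝ V = closedBall (0 : E) 1 ∩ (G : Set E) := by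
  refine ⟨_, hE G inferInstance, ?_⟩
  have hcomp : IsCompact (closedBall (0 : E) 1 ∩ (G : Set E)) := by
    have h1 : closedBall (0 : E) 1 ∩ (G : Set E)
        = (fun x : G => (x : E)) '' (closedBall (0 : G) 1) := by
      ext x
      constructor
      · rintro ⟨hn, hx⟩
        refine ⟨⟨x, hx⟩, ?_, rfl⟩
        rw [mem_closedBall_zero_iff] at hn ⊢
        exact hn
      · rintro ⟨x', hx', rfl⟩
        rw [mem_closedBall_zero_iff] at hx'
        exact ⟨mem_closedBall_zero_iff.2 hx', x'.2⟩
    rw [h1]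
    have : ProperSpace G := FiniteDimensional.proper_real G
    exact (isCompact_closedBall (0 : G) 1).image continuous_subtype_val
  have hconv : Convex ℝ (closedBall (0 : E) 1 ∩ (G : Set E)) :=
    (convex_closedBall _ _).inter G.convex
  have h := closure_convexHull_extremePoints hcomp hconv
  rwa [((hE G inferInstance).isClosed_convexHull ℝ).closure_eq] at h

theorem IsSpikes.section_finite (hB : IsStarBoundary B) (h : IsSpikes B f y δ)
    (G : Submodule ℝ E) (hG : FiniteDimensional ℝ G) :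
    (Set.extremePoints ℝ (spikeBody y ∩ (G : Set E))).Finite := by
  set F : Set (E →L[ℝ] ℝ) := {g | g ∈ B ∧ ∃ x ∈ G, ‖x‖ = 1 ∧ g x = 1} with hF
  have hJ : {j | f j ∈ F}.Finite := (hB.finite_on G).preimage h.inj.injOn
  set Y : Set E := y '' {j | f j ∈ F} with hY
  have hYfin : Y.Finite := hJ.image y
  set G' : Submodule ℝ E := G ⊔ Submodule.span ℝ Y with hG'
  have hspan : FiniteDimensional ℝ (Submodule.span ℝ Y) := FiniteDimensional.span_of_finite ℝ hYfin
  have hG'f : FiniteDimensional ℝ G' := by rw [hG']; infer_instance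
  obtain ⟨V, hVfin, hV⟩ := hB.isPolyhedral.exists_finite G'
  have heq : spikeBody y ∩ (G : Set E) = convexHull ℝ (V ∪ Y) ∩ (G : Set E) := by
    apply Subset.antisymm
    · rintro x ⟨hx, hxG⟩
      refine ⟨?_, hxG⟩
      have hxG' : x ∈ G' := Submodule.mem_sup_left hxG
      by_cases hx1 : ‖x‖ ≤ 1
      · have : x ∈ convexHull ℝ V := by
          rw [hV]; exact ⟨mem_closedBall_zero_iff.2 hx1, hxG'⟩
        exact convexHull_mono subset_union_left this
      · push Not at hx1
        rcases hx with hx | ⟨j, l, hl0, hl1, hx⟩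
        · exact absurd hx (not_le.2 hx1)
        have hx0 : x ≠ 0 := by
          rintro rfl
          rw [norm_zero] at hx1
          linarith
        have hn : ‖x‖ ≠ 0 := norm_ne_zero_iff.2 hx0
        obtain ⟨g, hg, hgx⟩ := hB.exists_eq_norm hx0
        have hgf : g = f j := h.active hB hg hl0 hx (by rw [hgx]; exact hx1)
        have hjF : f j ∈ F := by
          rw [← hgf]
          refine ⟨hg, ‖x‖⁻¹ • x, G.smul_mem _ hxG, ?_, ?_⟩
          · rw [norm_smul, norm_inv, norm_norm, inv_mul_cancel₀ hn]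
          · rw [map_smul, hgx, smul_eq_mul, inv_mul_cancel₀ hn]
        have hyY : y j ∈ Y := ⟨j, hjF, rfl⟩
        have hyG' : y j ∈ G' := Submodule.mem_sup_right (Submodule.subset_span hyY)
        have hyC : y j ∈ convexHull ℝ (V ∪ Y) := subset_convexHull ℝ _ (Or.inr hyY)
        rcases eq_or_lt_of_le hl1 with rfl | hlt
        · have : ‖x - (1 : ℝ) • y j‖ ≤ 0 := by linarith
          rw [norm_le_zero_iff, one_smul, sub_eq_zero] at this
          rw [this]
          exact hyC
        · have h1l : 0 < 1 - l := by linarith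
          set b : E := (1 - l)⁻¹ • (x - l • y j) with hb
          have hbn : ‖b‖ ≤ 1 := by
            rw [hb, norm_smul, norm_inv, Real.norm_eq_abs, abs_of_pos h1l, inv_mul_le_iff₀ h1l,
              mul_one]
            exact hx
          have hbG' : b ∈ G' := G'.smul_mem _ (G'.sub_mem hxG' (G'.smul_mem _ hyG'))
          have hbV : b ∈ convexHull ℝ (V ∪ Y) := by
            have : b ∈ convexHull ℝ V := by
              rw [hV]; exact ⟨mem_closedBall_zero_iff.2 hbn, hbG'⟩
            exact convexHull_mono subset_union_left this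
          have hxe : x = (1 - l) • b + l • y j := by
            rw [hb, smul_smul, mul_inv_cancel₀ h1l.ne', one_smul]
            abel
          rw [hxe]
          exact convex_convexHull ℝ _ hbV hyC h1l.le hl0 (by ring)
    · rintro x ⟨hx, hxG⟩
      refine ⟨?_, hxG⟩
      refine convexHull_min ?_ (h.convex hB) hx
      rintro z (hz | ⟨j, _, rfl⟩)
      · have : z ∈ convexHull ℝ V := subset_convexHull ℝ _ hz
        rw [hV] at this
        exact Or.inl (mem_closedBall_zero_iff.1 this.1)
      · exact spike_mem j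
  rw [heq]
  exact finite_extreme_section (hVfin.union hYfin) G

/-- If the spikes reach every slice, then the body is generated by its extreme points. -/
theorem IsSpikes.generated [Nonempty J] (hB : IsStarBoundary B) (h : IsSpikes B f y δ)
    (hreach : ∀ g : E →L[ℝ] ℝ, ‖g‖ = 1 → ∀ ε : ℝ, 0 < ε → ∃ j, 1 - ε < g (y j)) :
    spikeBody y = closure (convexHull ℝ (Set.extremePoints ℝ (spikeBody y))) := by
  set C : Set E := closure (convexHull ℝ (Set.extremePoints ℝ (spikeBody y))) with hC
  have hCconv : Convex ℝ C := (convex_convexHull ℝ _).closure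
  have hyC : ∀ j, y j ∈ C := fun j =>
    subset_closure (subset_convexHull ℝ _ (h.extreme hB j))
  apply Subset.antisymm
  · have hball : ∀ x : E, ‖x‖ ≤ 1 → x ∈ C := by
      intro x hx
      by_contra hxC
      obtain ⟨g, u, hgu, hux⟩ := geometric_hahn_banach_closed_point hCconv isClosed_closure hxC
      have hgx : g x ≤ ‖g‖ := by
        have h1 := g.le_of_opNorm_le le_rfl x
        rw [Real.norm_eq_abs] at h1
        have h2 := mul_le_mul_of_nonneg_left hx (norm_nonneg g)
        linarith [le_abs_self (g x)]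
      have hg0 : g ≠ 0 := by
        rintro rfl
        obtain ⟨j⟩ := (inferInstance : Nonempty J)
        have := hgu (y j) (hyC j)
        rw [zero_apply] at this hux
        linarith
      have hgpos : 0 < ‖g‖ := norm_pos_iff.2 hg0
      obtain ⟨j, hj⟩ := hreach (‖g‖⁻¹ • g)
        (by rw [norm_smul, norm_inv, norm_norm, inv_mul_cancel₀ hgpos.ne']) (1 - u / ‖g‖) (by
          rw [sub_pos, div_lt_one hgpos]
          linarith)
      have h1 := hgu (y j) (hyC j)
      rw [smul_apply, smul_eq_mul, sub_sub_cancel, inv_mul_eq_div,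
        div_lt_div_iff_of_pos_right hgpos] at hj
      linarith
    rintro x (hx | ⟨j, l, hl0, hl1, hx⟩)
    · exact hball x hx
    · rcases eq_or_lt_of_le hl1 with rfl | hlt
      · have : ‖x - (1 : ℝ) • y j‖ ≤ 0 := by linarith
        rw [norm_le_zero_iff, one_smul, sub_eq_zero] at this
        rw [this]
        exact hyC j
      · have h1l : 0 < 1 - l := by linarith
        have hb : (1 - l)⁻¹ • (x - l • y j) ∈ C := by
          apply hball
          rw [norm_smul, norm_inv, Real.norm_eq_abs, abs_of_pos h1l, inv_mul_le_iff₀ h1l, mul_one]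
          exact hx
        have hxe : x = (1 - l) • ((1 - l)⁻¹ • (x - l • y j)) + l • y j := by
          rw [smul_smul, mul_inv_cancel₀ h1l.ne', one_smul]
          abel
        rw [hxe]
        exact hCconv hb (hyC j) h1l.le hl0 (by ring)
  · exact closure_minimal (convexHull_min extremePoints_subset (h.convex hB)) (h.isClosed hB)

end Pool.Agent.Lib.MP_a60229_an
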