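import Pool.Agent.Lib.MP_a60229_an.Far

set_option autoImplicit false
universe u

namespace Pool.Agent.Lib.MP_a60229_an

open Metric Set Filter Topology

variable {E : Type u} [NormedAddCommGroup E] [NormedSpace ℝ E]

/-- Spikes over the unit ball such that no functional of norm at most one sees two of them. -/
structure IsSpikesC {J : Type u} (f : J → (E →L[ℝ] ℝ)) (y : J → E) (δ : J → ℝ) : Prop where
  norm_le : ∀ j, ‖f j‖ ≤ 1
  pos : ∀ j, 0 < δ j
  val : ∀ j, f j (y j) = 1 + δ j
  bound : ∀ j, ‖y j‖ ≤ 1 + δ j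
  inv : ∀ i j, i ≠ j → ∀ g : E →L[ℝ] ℝ, ‖g‖ ≤ 1 → 1 < g (y i) → g (y j) ≤ 1
  neg : ∀ j, ∃ j', y j' = - y j

variable {J : Type u} {f : J → (E →L[ℝ] ℝ)} {y : J → E} {δ : J → ℝ}

theorem IsSpikesC.one_lt (h : IsSpikesC f y δ) (j : J) : 1 < ‖y j‖ := by
  have h1 := apply_le_norm (h.norm_le j) (y j)
  rw [h.val j] at h1
  linarith [h.pos j]

/-- The segment between two spikes meets the ball. -/
theorem IsSpikesC.average (h : IsSpikesC f y δ) {i j : J} (hij : i ≠ j) :
    ∃ a b : ℝ, 0 < a ∧ 0 < b ∧ a + b = 1 ∧ ‖a • y i + b • y j‖ ≤ 1 := by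
  by_contra hcon
  push Not at hcon
  have hdisj : Disjoint (closedBall (0 : E) 1) (segment ℝ (y i) (y j)) := by
    rw [Set.disjoint_left]
    rintro p hp ⟨a, b, ha, hb, hab, rfl⟩
    rw [mem_closedBall_zero_iff] at hp
    rcases eq_or_lt_of_le ha with rfl | ha'
    · have hb1 : b = 1 := by linarith
      subst hb1
      rw [zero_smul, one_smul, zero_add] at hp
      exact absurd hp (not_le.2 (h.one_lt j))
    · rcases eq_or_lt_of_le hb with rfl | hb'
      · have ha1 : a = 1 := by linarith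
        subst ha1
        rw [zero_smul, one_smul, add_zero] at hp
        exact absurd hp (not_le.2 (h.one_lt i))
      · exact absurd hp (not_le.2 (hcon a b ha' hb' hab))
  have hcomp : IsCompact (segment ℝ (y i) (y j)) := by
    rw [segment_eq_image_lineMap]
    exact isCompact_Icc.image (AffineMap.lineMap_continuous)
  obtain ⟨g, u, v, hu, huv, hv⟩ := geometric_hahn_banach_closed_compact
    (convex_closedBall (0 : E) 1) isClosed_closedBall (convex_segment _ _) hcomp hdisj
  have hu0 : 0 < u := by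
    have := hu 0 (by rw [mem_closedBall_zero_iff, norm_zero]; exact zero_le_one)
    rwa [map_zero] at this
  have hgi := hv (y i) (left_mem_segment ℝ _ _)
  have hgj := hv (y j) (right_mem_segment ℝ _ _)
  have hgn : ‖g‖ ≤ u := by
    refine le_of_forall_pos_le_add (fun τ hτ => ?_)
    obtain ⟨a, ha1, ha2⟩ := exists_near_norm g hτ
    have := hu a (mem_closedBall_zero_iff.2 ha1)
    linarith
  have hg0 : 0 < ‖g‖ := by
    rw [norm_pos_iff]
    rintro rfl
    rw [zero_apply] at hgi
    linarith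
  have h1 : ‖‖g‖⁻¹ • g‖ ≤ 1 := by
    rw [norm_smul, norm_inv, norm_norm, inv_mul_cancel₀ hg0.ne']
  have h2 : ∀ w : E, v < g w → 1 < (‖g‖⁻¹ • g) w := by
    intro w hw
    rw [smul_apply, smul_eq_mul, inv_mul_eq_div, one_lt_div hg0]
    linarith
  have h3 := h.inv i j hij _ h1 (h2 _ hgi)
  have h4 := h2 _ hgj
  linarith

theorem combineC {i j : J} {a b : ℝ} (_ha : 0 < a) (hb : 0 < b) (hab : a + b = 1)
    (hp : ‖a • y i + b • y j‖ ≤ 1) {w : E} {β γ : ℝ} (hγ : 0 ≤ γ) (hle : γ * a ≤ β * b)
    (hw : ‖w - β • y i - γ • y j‖ ≤ 1 - β - γ) : w ∈ spikeBody y := by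
  have hq : γ * a / b ≤ β := by rw [div_le_iff₀ hb]; exact hle
  have hq0 : 0 ≤ γ * a / b := by positivity
  have hn := norm_nonneg (w - β • y i - γ • y j)
  refine Or.inr ⟨i, β - γ * a / b, by linarith, by linarith, ?_⟩
  have h1 : w - (β - γ * a / b) • y i
      = (w - β • y i - γ • y j) + (γ / b) • (a • y i + b • y j) := by
    rw [smul_add, smul_smul, smul_smul, div_mul_cancel₀ _ hb.ne', sub_smul, div_mul_eq_mul_div]
    abel
  rw [h1]
  refine (norm_add_le _ _).trans ?_
  rw [norm_smul, Real.norm_eq_abs, abs_of_nonneg (by positivity)]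
  have h2 := mul_le_mul_of_nonneg_left hp (show 0 ≤ γ / b by positivity)
  have h3 : γ / b * 1 = γ + γ * a / b := by
    have hba : b + a = 1 := by linarith
    rw [mul_one]
    field_simp
    rw [hba, mul_one]
  linarith

theorem IsSpikesC.convex (h : IsSpikesC f y δ) : Convex ℝ (spikeBody y) := by
  have key : ∀ (i j : J) (u v : E) (l m a b : ℝ), 0 ≤ l → l ≤ 1 → 0 ≤ m → m ≤ 1 →
      ‖u - l • y i‖ ≤ 1 - l → ‖v - m • y j‖ ≤ 1 - m → 0 ≤ a → 0 ≤ b → a + b = 1 →
      a • u + b • v ∈ spikeBody y := by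
    intro i j u v l m a b hl0 hl1 hm0 hm1 hu hv ha hb hab
    have hsum : ‖a • u + b • v - (a * l) • y i - (b * m) • y j‖ ≤ 1 - a * l - b * m := by
      have h1 : a • u + b • v - (a * l) • y i - (b * m) • y j
          = a • (u - l • y i) + b • (v - m • y j) := by module
      rw [h1]
      refine (norm_add_le _ _).trans ?_
      rw [norm_smul, norm_smul, Real.norm_eq_abs, Real.norm_eq_abs, abs_of_nonneg ha,
        abs_of_nonneg hb]
      have h2 := mul_le_mul_of_nonneg_left hu ha
      have h3 := mul_le_mul_of_nonneg_left hv hb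
      nlinarith
    by_cases hij : i = j
    · subst hij
      refine Or.inr ⟨i, a * l + b * m, by positivity, ?_, ?_⟩
      · have := mul_le_mul_of_nonneg_left hl1 ha
        have := mul_le_mul_of_nonneg_left hm1 hb
        linarith
      · have h1 : a • u + b • v - (a * l + b * m) • y i
            = a • u + b • v - (a * l) • y i - (b * m) • y i := by module
        rw [h1]
        linarith
    · obtain ⟨a', b', ha', hb', hab', hp⟩ := h.average hij
      rcases le_total ((b * m) * a') ((a * l) * b') with hle | hle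
      · exact combineC ha' hb' hab' hp (by positivity) hle hsum
      · refine combineC (i := j) (j := i) hb' ha' (by linarith) (by rwa [add_comm]) (β := b * m)
          (γ := a * l) (by positivity) hle ?_
        have h1 : a • u + b • v - (b * m) • y j - (a * l) • y i
            = a • u + b • v - (a * l) • y i - (b * m) • y j := by module
        rw [h1]
        linarith
  intro u hu v hv a b ha hb hab
  rcases hu with hu | ⟨i, l, hl0, hl1, hu⟩
  · rcases hv with hv | ⟨j, m, hm0, hm1, hv⟩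
    · left
      refine (norm_add_le _ _).trans ?_
      rw [norm_smul, norm_smul, Real.norm_eq_abs, Real.norm_eq_abs, abs_of_nonneg ha,
        abs_of_nonneg hb]
      nlinarith
    · exact key j j u v 0 m a b le_rfl zero_le_one hm0 hm1 (by simpa using hu) hv ha hb hab
  · rcases hv with hv | ⟨j, m, hm0, hm1, hv⟩
    · exact key i i u v l 0 a b hl0 hl1 le_rfl zero_le_one hu (by simpa using hv) ha hb hab
    · exact key i j u v l m a b hl0 hl1 hm0 hm1 hu hv ha hb hab

theorem IsSpikesC.symm (h : IsSpikesC f y δ) : ∀ x ∈ spikeBody y, -x ∈ spikeBody y := by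
  rintro x (hx | ⟨j, l, hl0, hl1, hx⟩)
  · left; rwa [norm_neg]
  · obtain ⟨j', hj'⟩ := h.neg j
    refine Or.inr ⟨j', l, hl0, hl1, ?_⟩
    have : -x - l • y j' = -(x - l • y j) := by rw [hj']; module
    rw [this, norm_neg]
    exact hx

theorem apply_le_part {g : E →L[ℝ] ℝ} (hg : ‖g‖ ≤ 1) {x p : E} {l : ℝ}
    (hx : ‖x - l • p‖ ≤ 1 - l) : g x ≤ (1 - l) + l * g p := by
  have h1 := apply_le_norm hg (x - l • p)
  rw [map_sub, map_smul, smul_eq_mul] at h1
  linarith

theorem sees_of_part {g : E →L[ℝ] ℝ} (hg : ‖g‖ ≤ 1) {x p : E} {l : ℝ} (hl0 : 0 ≤ l)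
    (hx : ‖x - l • p‖ ≤ 1 - l) (hgx : 1 < g x) : 1 < g p := by
  by_contra hcon
  push Not at hcon
  have := apply_le_part hg hx
  nlinarith

theorem IsSpikesC.subset_ball (h : IsSpikesC f y δ) {r : ℝ} (hr : 0 ≤ r)
    (hδ : ∀ j, δ j ≤ r) : spikeBody y ⊆ closedBall (0 : E) (1 + r) := by
  rintro x (hx | ⟨j, l, hl0, hl1, hx⟩)
  · rw [mem_closedBall_zero_iff]; linarith
  · rw [mem_closedBall_zero_iff]
    have h1 : x = (x - l • y j) + l • y j := by abel
    rw [h1]
    refine (norm_add_le _ _).trans ?_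
    rw [norm_smul, Real.norm_eq_abs, abs_of_nonneg hl0]
    have h2 : ‖y j‖ ≤ 1 + r := (h.bound j).trans (by linarith [hδ j])
    have := mul_le_mul_of_nonneg_left h2 hl0
    nlinarith

/-- Sections of the body by finite-dimensional subspaces come from finitely many points. -/
theorem IsSpikesC.section_eq (h : IsSpikesC f y δ) (hE : IsPolyhedral E) (G : Submodule ℝ E)
    [FiniteDimensional ℝ G] :
    ∃ W : Set E, W.Finite ∧ spikeBody y ∩ (G : Set E) = convexHull ℝ W ∩ (G : Set E) := by
  classical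
  -- the relevant spikes
  set JG : Set J := {j | ∃ z ∈ G, 1 < ‖z‖ ∧ ∃ l : ℝ, 0 ≤ l ∧ l ≤ 1 ∧ ‖z - l • y j‖ ≤ 1 - l}
    with hJG
  have hJfin : JG.Finite := by
    obtain ⟨V, hVfin, hV⟩ := hE.exists_finite G
    have hVb : ∀ p ∈ V, ‖p‖ ≤ 1 := by
      intro p hp
      have : p ∈ convexHull ℝ V := subset_convexHull ℝ _ hp
      rw [hV] at this
      exact mem_closedBall_zero_iff.1 this.1
    have hz : ∀ j : J, ∃ z : E, j ∈ JG → z ∈ G ∧ 1 < ‖z‖ ∧
        ∃ l : ℝ, 0 ≤ l ∧ l ≤ 1 ∧ ‖z - l • y j‖ ≤ 1 - l := by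
      intro j
      by_cases hj : j ∈ JG
      · obtain ⟨z, hz⟩ := hj
        exact ⟨z, fun _ => hz⟩
      · exact ⟨0, fun hj' => absurd hj' hj⟩
    choose z hz using hz
    have hw : ∀ j : J, ∃ w : E → ℝ, j ∈ JG → (∀ p ∈ V, 0 ≤ w p) ∧
        ∑ p ∈ hVfin.toFinset, w p = 1 ∧ ∑ p ∈ hVfin.toFinset, w p • p = ‖z j‖⁻¹ • z j := by
      intro j
      by_cases hj : j ∈ JG
      · obtain ⟨hzG, hz1, _⟩ := hz j hj
        have hmem : ‖z j‖⁻¹ • z j ∈ convexHull ℝ V := by
          rw [hV]
          refine ⟨?_, G.smul_mem _ hzG⟩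
          rw [mem_closedBall_zero_iff, norm_smul, norm_inv, norm_norm,
            inv_mul_cancel₀ (by linarith)]
        obtain ⟨w, hw⟩ := exists_weights hVfin hmem
        exact ⟨w, fun _ => hw⟩
      · exact ⟨0, fun hj' => absurd hj' hj⟩
    choose w hw using hw
    refine Set.Finite.of_injOn (f := fun j : J => {p | p ∈ V ∧ 0 < w j p}) (t := 𝒫 V) ?_ ?_
      hVfin.finite_subsets
    · intro j _ p hp
      exact hp.1
    · intro i hi j hj hij
      by_contra hne
      have hij' : {p | p ∈ V ∧ 0 < w i p} = {p | p ∈ V ∧ 0 < w j p} := hij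
      obtain ⟨hziG, hzi1, li, hli0, hli1, hli⟩ := hz i hi
      obtain ⟨hzjG, hzj1, lj, hlj0, hlj1, hlj⟩ := hz j hj
      obtain ⟨hwi1, hwi2, hwi3⟩ := hw i hi
      obtain ⟨hwj1, hwj2, hwj3⟩ := hw j hj
      obtain ⟨g, hg1, hg2⟩ := exists_norming (z i)
      have hzi0 : ‖z i‖ ≠ 0 := by linarith
      have hzj0 : ‖z j‖ ≠ 0 := by linarith
      have hgone : ∀ p ∈ V, 0 < w i p → g p = 1 := by
        intro p hp hwp
        refine eq_one_of_weight hVfin hVb hg1 hwi1 hwi2 ?_ hp hwp
        rw [hwi3, map_smul, hg2, smul_eq_mul, inv_mul_cancel₀ hzi0]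
      have h1 : g (‖z j‖⁻¹ • z j) = 1 := by
        rw [← hwj3, map_sum]
        have h2 : ∀ p ∈ hVfin.toFinset, g (w j p • p) = w j p := by
          intro p hp
          have hpV := hVfin.mem_toFinset.1 hp
          rw [map_smul, smul_eq_mul]
          rcases lt_or_eq_of_le (hwj1 p hpV) with hlt | heq
          · have h3 : p ∈ {p | p ∈ V ∧ 0 < w i p} := by
              rw [hij']; exact ⟨hpV, hlt⟩
            rw [hgone p hpV h3.2, mul_one]
          · rw [← heq, zero_mul]
        rw [Finset.sum_congr rfl h2, hwj2]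
      have h2 : g (z j) = ‖z j‖ := by
        rw [map_smul, smul_eq_mul] at h1
        field_simp at h1
        exact h1
      have h3 : 1 < g (y i) := sees_of_part hg1 hli0 hli (by rw [hg2]; exact hzi1)
      have h4 : 1 < g (y j) := sees_of_part hg1 hlj0 hlj (by rw [h2]; exact hzj1)
      have h5 := h.inv i j hne g hg1 h3
      linarith
  set Y : Set E := y '' JG with hY
  have hYfin : Y.Finite := hJfin.image y
  set G' : Submodule ℝ E := G ⊔ Submodule.span ℝ Y with hG'
  have hspan : FiniteDimensional ℝ (Submodule.span ℝ Y) := FiniteDimensional.span_of_finite ℝ hYfin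
  have hG'f : FiniteDimensional ℝ G' := by rw [hG']; infer_instance
  obtain ⟨V, hVfin, hV⟩ := hE.exists_finite G'
  refine ⟨V ∪ Y, hVfin.union hYfin, ?_⟩
  apply Subset.antisymm
  · rintro x ⟨hx, hxG⟩
    refine ⟨?_, hxG⟩
    have hxG' : x ∈ G' := Submodule.mem_sup_left hxG
    by_cases hx1 : ‖x‖ ≤ 1
    · have : x ∈ convexHull ℝ V := by
        rw [hV]; exact ⟨mem_closedBall_zero_iff.2 hx1, hxG'⟩
      exact convexHull_mono subset_union_left this
    · push Not at hx1
      rcases hx with hx | ⟨j, l, hl0, hl1, hx⟩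
      · exact absurd hx (not_le.2 hx1)
      have hjF : j ∈ JG := ⟨x, hxG, hx1, l, hl0, hl1, hx⟩
      have hyY : y j ∈ Y := ⟨j, hjF, rfl⟩
      have hyG' : y j ∈ G' := Submodule.mem_sup_right (Submodule.subset_span hyY)
      have hyC : y j ∈ convexHull ℝ (V ∪ Y) := subset_convexHull ℝ _ (Or.inr hyY)
      rcases eq_or_lt_of_le hl1 with rfl | hlt
      · have : ‖x - (1 : ℝ) • y j‖ ≤ 0 := by linarith
        rw [norm_le_zero_iff, one_smul, sub_eq_zero] at this
        rw [this]
        exact hyC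
      · have h1l : 0 < 1 - l := by linarith
        set b : E := (1 - l)⁻¹ • (x - l • y j) with hb
        have hbn : ‖b‖ ≤ 1 := by
          rw [hb, norm_smul, norm_inv, Real.norm_eq_abs, abs_of_pos h1l, inv_mul_le_iff₀ h1l,
            mul_one]
          exact hx
        have hbG' : b ∈ G' := G'.smul_mem _ (G'.sub_mem hxG' (G'.smul_mem _ hyG'))
        have hbV : b ∈ convexHull ℝ (V ∪ Y) := by
          have : b ∈ convexHull ℝ V := by
            rw [hV]; exact ⟨mem_closedBall_zero_iff.2 hbn, hbG'⟩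
          exact convexHull_mono subset_union_left this
        have hxe : x = (1 - l) • b + l • y j := by
          rw [hb, smul_smul, mul_inv_cancel₀ h1l.ne', one_smul]
          abel
        rw [hxe]
        exact convex_convexHull ℝ _ hbV hyC h1l.le hl0 (by ring)
  · rintro x ⟨hx, hxG⟩
    refine ⟨?_, hxG⟩
    refine convexHull_min ?_ h.convex hx
    rintro z (hz | ⟨j, _, rfl⟩)
    · have : z ∈ convexHull ℝ V := subset_convexHull ℝ _ hz
      rw [hV] at this
      exact Or.inl (mem_closedBall_zero_iff.1 this.1)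
    · exact spike_mem j

theorem IsSpikesC.section_finite (h : IsSpikesC f y δ) (hE : IsPolyhedral E)
    (G : Submodule ℝ E) (hG : FiniteDimensional ℝ G) :
    (Set.extremePoints ℝ (spikeBody y ∩ (G : Set E))).Finite := by
  obtain ⟨W, hW, heq⟩ := h.section_eq hE G
  rw [heq]
  exact finite_extreme_section hW G

theorem IsSpikesC.isClosed (h : IsSpikesC f y δ) (hE : IsPolyhedral E) :
    IsClosed (spikeBody y) := by
  have hnhds : spikeBody y ∈ 𝓝 (0 : E) :=
    mem_of_superset (closedBall_mem_nhds (0 : E) one_pos)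
      (fun x hx => Or.inl (mem_closedBall_zero_iff.1 hx))
  have h0 : (0 : E) ∈ spikeBody y := Or.inl (by simp)
  have habs : Absorbent ℝ (spikeBody y) := absorbent_nhds_zero hnhds
  refine isClosed_of_closure_subset (fun x hx => ?_)
  have hg : gauge (spikeBody y) x ≤ 1 := (gauge_le_one_iff_mem_closure h.convex hnhds).2 hx
  -- points `t x` with `t < 1` belong to the body
  have hin : ∀ t : ℝ, 0 ≤ t → t < 1 → t • x ∈ spikeBody y := by
    intro t ht0 ht1
    rcases eq_or_lt_of_le ht0 with rfl | ht0'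
    · rw [zero_smul]; exact h0
    have h1 : gauge (spikeBody y) x < t⁻¹ := lt_of_le_of_lt hg (one_lt_inv₀ ht0' |>.2 ht1)
    obtain ⟨b, hb0, hb1, c, hc, hcx⟩ := exists_lt_of_gauge_lt habs h1
    have hcx' : b • c = x := hcx
    have h2 : t • x = (t * b) • c + (1 - t * b) • (0 : E) := by
      rw [← hcx', smul_smul, smul_zero, add_zero]
    have h3 : t * b ≤ 1 := by
      have := mul_lt_mul_of_pos_left hb1 ht0'
      rw [mul_inv_cancel₀ ht0'.ne'] at this
      exact this.le
    rw [h2]
    exact h.convex hc h0 (by positivity) (by linarith) (by ring)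
  set G : Submodule ℝ E := Submodule.span ℝ {x} with hG
  have hxG : x ∈ G := Submodule.mem_span_singleton_self x
  obtain ⟨W, hW, heq⟩ := h.section_eq hE G
  have hcl : IsClosed (spikeBody y ∩ (G : Set E)) := by
    rw [heq]
    exact (hW.isClosed_convexHull ℝ).inter G.closed_of_finiteDimensional
  have htend : Tendsto (fun n : ℕ => (1 - 1 / ((n : ℝ) + 1)) • x) atTop (𝓝 ((1 - 0 : ℝ) • x)) :=
    ((tendsto_one_div_add_atTop_nhds_zero_nat (𝕜 := ℝ)).const_sub 1).smul_const x
  rw [sub_zero, one_smul] at htend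
  refine (hcl.mem_of_tendsto htend (Eventually.of_forall (fun n => ⟨hin _ ?_ ?_,
    G.smul_mem _ hxG⟩))).1
  · have hn : (0 : ℝ) ≤ n := Nat.cast_nonneg n
    have : 1 / ((n : ℝ) + 1) ≤ 1 := by rw [div_le_one (by linarith)]; linarith
    linarith
  · have : 0 < 1 / ((n : ℝ) + 1) := by positivity
    linarith

theorem IsSpikesC.isBody (h : IsSpikesC f y δ) (hE : IsPolyhedral E) {r : ℝ} (hr : 0 ≤ r)
    (hδ : ∀ j, δ j ≤ r) : IsBody (spikeBody y) (1 + r) where
  convex := h.convex
  symm := h.symm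
  closed := h.isClosed hE
  ball_subset := fun x hx => Or.inl (mem_closedBall_zero_iff.1 hx)
  subset_ball := h.subset_ball hr hδ
  pos := by linarith

theorem IsSpikesC.extreme (h : IsSpikesC f y δ) (j : J) :
    y j ∈ Set.extremePoints ℝ (spikeBody y) := by
  have hδ := h.pos j
  have hmax : ∀ x ∈ spikeBody y, f j x ≤ 1 + δ j ∧ (f j x = 1 + δ j → x = y j) := by
    rintro x (hx | ⟨i, l, hl0, hl1, hx⟩)
    · have := apply_le_norm (h.norm_le j) x
      constructor
      · linarith
      · intro he; linarith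
    · have h1 := apply_le_part (h.norm_le j) hx
      by_cases hij : i = j
      · subst hij
        rw [h.val i] at h1
        constructor
        · nlinarith
        · intro he
          rw [he] at h1
          have hl : l = 1 := by nlinarith
          rw [hl] at hx
          have : ‖x - (1 : ℝ) • y i‖ ≤ 0 := by linarith
          rw [norm_le_zero_iff, one_smul, sub_eq_zero] at this
          exact this
      · have h2 := h.inv j i (fun he => hij he.symm) (f j) (h.norm_le j)
          (by rw [h.val j]; linarith)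
        constructor
        · nlinarith
        · intro he; nlinarith
  rw [mem_extremePoints_iff_left]
  refine ⟨spike_mem j, ?_⟩
  rintro u hu v hv ⟨a, b, ha, hb, hab, he⟩
  have h1 := (hmax u hu).1
  have h2 := (hmax v hv).1
  have h3 : a * f j u + b * f j v = 1 + δ j := by
    rw [← h.val j, ← he, map_add, map_smul, map_smul, smul_eq_mul, smul_eq_mul]
  apply (hmax u hu).2
  have hb' : b = 1 - a := by linarith
  subst hb'
  nlinarith

/-- If the spikes reach height `ρ` in each slice, then the body scaled by `ρ` is generated by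
extreme points. -/
theorem IsSpikesC.generated [Nonempty J] (h : IsSpikesC f y δ) {ρ : ℝ} (hρ0 : 0 ≤ ρ)
    (hρ1 : ρ ≤ 1) (hreach : ∀ g : E →L[ℝ] ℝ, ‖g‖ = 1 → ∃ j, ρ < g (y j)) :
    ∀ x ∈ spikeBody y, ρ • x ∈ closure (convexHull ℝ (Set.extremePoints ℝ (spikeBody y))) := by
  set C : Set E := closure (convexHull ℝ (Set.extremePoints ℝ (spikeBody y))) with hC
  have hCconv : Convex ℝ C := (convex_convexHull ℝ _).closure
  have hyC : ∀ j, y j ∈ C := fun j =>
    subset_closure (subset_convexHull ℝ _ (h.extreme j))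
  have hball : ∀ x : E, ‖x‖ ≤ 1 → ρ • x ∈ C := by
    intro x hx
    by_contra hxC
    obtain ⟨g, u, hgu, hux⟩ := geometric_hahn_banach_closed_point hCconv isClosed_closure hxC
    have hgx : g x ≤ ‖g‖ := by
      have h1 := g.le_of_opNorm_le le_rfl x
      rw [Real.norm_eq_abs] at h1
      have h2 := mul_le_mul_of_nonneg_left hx (norm_nonneg g)
      linarith [le_abs_self (g x)]
    have hg0 : g ≠ 0 := by
      rintro rfl
      obtain ⟨j⟩ := (inferInstance : Nonempty J)
      have := hgu (y j) (hyC j)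
      rw [zero_apply] at this hux
      linarith
    have hgpos : 0 < ‖g‖ := norm_pos_iff.2 hg0
    obtain ⟨j, hj⟩ := hreach (‖g‖⁻¹ • g)
      (by rw [norm_smul, norm_inv, norm_norm, inv_mul_cancel₀ hgpos.ne'])
    have h1 := hgu (y j) (hyC j)
    rw [smul_apply, smul_eq_mul, inv_mul_eq_div, lt_div_iff₀ hgpos] at hj
    rw [map_smul, smul_eq_mul] at hux
    have := mul_le_mul_of_nonneg_left hgx hρ0
    linarith
  have h0C : (0 : E) ∈ C := by
    have := hball 0 (by simp)
    rwa [smul_zero] at this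
  have hyρ : ∀ j, ρ • y j ∈ C := by
    intro j
    have := hCconv (hyC j) h0C hρ0 (show 0 ≤ 1 - ρ by linarith) (by ring)
    rwa [smul_zero, add_zero] at this
  rintro x (hx | ⟨j, l, hl0, hl1, hx⟩)
  · exact hball x hx
  · rcases eq_or_lt_of_le hl1 with rfl | hlt
    · have : ‖x - (1 : ℝ) • y j‖ ≤ 0 := by linarith
      rw [norm_le_zero_iff, one_smul, sub_eq_zero] at this
      rw [this]
      exact hyρ j
    · have h1l : 0 < 1 - l := by linarith
      have hb : ρ • ((1 - l)⁻¹ • (x - l • y j)) ∈ C := by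
        apply hball
        rw [norm_smul, norm_inv, Real.norm_eq_abs, abs_of_pos h1l, inv_mul_le_iff₀ h1l, mul_one]
        exact hx
      have hxe : ρ • x = (1 - l) • (ρ • ((1 - l)⁻¹ • (x - l • y j))) + l • (ρ • y j) := by
        rw [smul_comm ρ ((1 - l)⁻¹), smul_smul (1 - l), mul_inv_cancel₀ h1l.ne', one_smul]
        module
      rw [hxe]
      exact hCconv hb (hyρ j) h1l.le hl0 (by ring)

end Pool.Agent.Lib.MP_a60229_an
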