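import Pool.Agent.Lib.MP_a60229_an.Extract

set_option autoImplicit false
universe u

namespace Pool.Agent.Lib.MP_a60229_an

open Metric Set Filter Topology

/-- The space of real null sequences. -/
abbrev CNull : Type := ZeroAtInftyContinuousMap ℕ ℝ

namespace CNull

theorem tendsto (a : CNull) : Tendsto (fun k => a k) atTop (𝓝 0) := by
  have h := a.zero_at_infty'
  rw [cocompact_eq_cofinite, Nat.cofinite_eq_atTop] at h
  exact h

/-- A null sequence as an element of the space. -/
def mk' (a : ℕ → ℝ) (ha : Tendsto a atTop (𝓝 0)) : CNull where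
  toFun := a
  continuous_toFun := continuous_of_discreteTopology
  zero_at_infty' := by
    rw [cocompact_eq_cofinite, Nat.cofinite_eq_atTop]
    exact ha

@[simp] theorem mk'_apply (a : ℕ → ℝ) (ha : Tendsto a atTop (𝓝 0)) (k : ℕ) :
    mk' a ha k = a k := rfl

theorem norm_le_iff {a : CNull} {C : ℝ} (hC : 0 ≤ C) : ‖a‖ ≤ C ↔ ∀ k, |a k| ≤ C := by
  rw [← ZeroAtInftyContinuousMap.norm_toBCF_eq_norm, BoundedContinuousFunction.norm_le hC]
  rfl

theorem abs_le_norm (a : CNull) (k : ℕ) : |a k| ≤ ‖a‖ :=
  (norm_le_iff (norm_nonneg a)).1 le_rfl k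

/-- Coordinate functionals. -/
noncomputable def coord (k : ℕ) : CNull →L[ℝ] ℝ :=
  LinearMap.mkContinuous
    { toFun := fun a => a k
      map_add' := fun _ _ => rfl
      map_smul' := fun _ _ => rfl } 1 (fun a => by
        rw [one_mul]
        exact abs_le_norm a k)

@[simp] theorem coord_apply (k : ℕ) (a : CNull) : coord k a = a k := rfl

theorem coord_norm_le (k : ℕ) : ‖coord k‖ ≤ 1 :=
  LinearMap.mkContinuous_norm_le _ zero_le_one _

/-- Unit vectors. -/
noncomputable def unit (k : ℕ) : CNull := mk' (fun j => if j = k then 1 else 0) (by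
  refine tendsto_const_nhds.congr' ?_
  filter_upwards [eventually_gt_atTop k] with j hj
  rw [if_neg (by omega)])

theorem unit_apply (k j : ℕ) : unit k j = if j = k then 1 else 0 := rfl

@[simp] theorem unit_self (k : ℕ) : unit k k = 1 := by rw [unit_apply, if_pos rfl]

theorem unit_ne {k j : ℕ} (h : j ≠ k) : unit k j = 0 := by rw [unit_apply, if_neg h]

theorem htend0 : Tendsto (fun k : ℕ => 2 * k) atTop atTop :=
  tendsto_atTop_mono (fun k => by show k ≤ 2 * k; omega) tendsto_id

theorem htend1 : Tendsto (fun k : ℕ => 2 * k + 1) atTop atTop :=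
  tendsto_atTop_mono (fun k => by show k ≤ 2 * k + 1; omega) tendsto_id

/-- The even part. -/
def evens (a : CNull) : CNull := mk' (fun k => a (2 * k)) ((tendsto a).comp htend0)

/-- The odd part. -/
def odds (a : CNull) : CNull := mk' (fun k => a (2 * k + 1)) ((tendsto a).comp htend1)

/-- Interlacing two null sequences. -/
def interlace (p : CNull × CNull) : CNull :=
  mk' (fun n => if n % 2 = 0 then p.1 (n / 2) else p.2 (n / 2)) (by
    have hdiv : Tendsto (fun n : ℕ => n / 2) atTop atTop :=
      Nat.tendsto_div_const_atTop (by norm_num)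
    have h1 := ((tendsto p.1).comp hdiv).abs
    have h2 := ((tendsto p.2).comp hdiv).abs
    have h3 := h1.add h2
    rw [abs_zero, add_zero] at h3
    refine squeeze_zero_norm (fun n => ?_) h3
    simp only [Function.comp_apply]
    by_cases hn : n % 2 = 0
    · rw [if_pos hn, Real.norm_eq_abs]
      linarith [abs_nonneg (p.2 (n / 2))]
    · rw [if_neg hn, Real.norm_eq_abs]
      linarith [abs_nonneg (p.1 (n / 2))])

theorem evens_apply (a : CNull) (k : ℕ) : evens a k = a (2 * k) := rfl
theorem odds_apply (a : CNull) (k : ℕ) : odds a k = a (2 * k + 1) := rfl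
theorem interlace_apply (p : CNull × CNull) (n : ℕ) :
    interlace p n = if n % 2 = 0 then p.1 (n / 2) else p.2 (n / 2) := rfl

/-- The even and odd parts, as a linear equivalence. -/
def splitL : CNull ≃ₗ[ℝ] CNull × CNull where
  toFun a := (evens a, odds a)
  invFun p := interlace p
  map_add' a b := by
    refine Prod.ext ?_ ?_
    · ext k
      rfl
    · ext k
      rfl
  map_smul' c a := by
    refine Prod.ext ?_ ?_
    · ext k
      rfl
    · ext k
      rfl
  left_inv a := by
    ext n
    rw [interlace_apply]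
    show (if n % 2 = 0 then a (2 * (n / 2)) else a (2 * (n / 2) + 1)) = a n
    by_cases hn : n % 2 = 0
    · rw [if_pos hn]
      congr 1
      omega
    · rw [if_neg hn]
      congr 1
      omega
  right_inv := by
    rintro ⟨a, b⟩
    refine Prod.ext ?_ ?_
    · ext k
      show (if (2 * k) % 2 = 0 then a (2 * k / 2) else b (2 * k / 2)) = a k
      rw [if_pos (by omega)]
      congr 1
      omega
    · ext k
      show (if (2 * k + 1) % 2 = 0 then a ((2 * k + 1) / 2) else b ((2 * k + 1) / 2)) = b k
      rw [if_neg (by omega)]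
      congr 1
      omega

theorem splitL_bound (a : CNull) : ‖splitL a‖ ≤ 1 * ‖a‖ := by
  rw [one_mul, Prod.norm_def]
  refine max_le ?_ ?_
  · exact (norm_le_iff (norm_nonneg a)).2 (fun k => abs_le_norm a _)
  · exact (norm_le_iff (norm_nonneg a)).2 (fun k => abs_le_norm a _)

theorem splitL_symm_bound (p : CNull × CNull) : ‖splitL.symm p‖ ≤ 1 * ‖p‖ := by
  rw [one_mul]
  refine (norm_le_iff (norm_nonneg p)).2 (fun n => ?_)
  show |(if n % 2 = 0 then p.1 (n / 2) else p.2 (n / 2))| ≤ ‖p‖
  by_cases hn : n % 2 = 0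
  · rw [if_pos hn]
    exact (abs_le_norm _ _).trans (norm_fst_le p)
  · rw [if_neg hn]
    exact (abs_le_norm _ _).trans (norm_snd_le p)

/-- The even and odd parts. -/
noncomputable def splitE : CNull ≃L[ℝ] CNull × CNull :=
  splitL.toContinuousLinearEquivOfBounds 1 1 splitL_bound splitL_symm_bound

end CNull

variable {E : Type u} [NormedAddCommGroup E] [NormedSpace ℝ E]

/-- The operator given by a pointwise null sequence of functionals. -/
noncomputable def toNull (χ : ℕ → (E →L[ℝ] ℝ)) (M : ℝ) (hM : ∀ i, ‖χ i‖ ≤ M)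
    (h0 : ∀ v, Tendsto (fun i => χ i v) atTop (𝓝 0)) : E →L[ℝ] CNull :=
  LinearMap.mkContinuous
    { toFun := fun v => CNull.mk' (fun i => χ i v) (h0 v)
      map_add' := fun v w => by
        ext i
        exact map_add (χ i) v w
      map_smul' := fun c v => by
        ext i
        exact map_smul (χ i) c v } M (fun v => by
          have hM0 : 0 ≤ M := (norm_nonneg _).trans (hM 0)
          refine (CNull.norm_le_iff (by positivity)).2 (fun i => ?_)
          exact (χ i).le_of_opNorm_le (hM i) v)

theorem toNull_apply (χ : ℕ → (E →L[ℝ] ℝ)) (M : ℝ) (hM : ∀ i, ‖χ i‖ ≤ M)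
    (h0 : ∀ v, Tendsto (fun i => χ i v) atTop (𝓝 0)) (v : E) (i : ℕ) :
    toNull χ M hM h0 v i = χ i v := rfl

theorem IsWuc.norm_sum_le {w : ℕ → E} (h : IsWuc w) (A : Finset ℕ) (b : ℕ → ℝ) {c : ℝ}
    (hc : 0 < c) (hb : ∀ j ∈ A, |b j| ≤ c) : ‖∑ j ∈ A, b j • w j‖ ≤ c := by
  classical
  have h1 := h A (fun j => if j ∈ A then b j / c else 0) (fun j => by
    by_cases hj : j ∈ A
    · rw [if_pos hj, abs_div, abs_of_pos hc, div_le_one hc]
      exact hb j hj
    · rw [if_neg hj]; simp)
  have h2 : ∑ j ∈ A, b j • w j = c • ∑ j ∈ A, (if j ∈ A then b j / c else 0) • w j := by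
    rw [Finset.smul_sum]
    refine Finset.sum_congr rfl (fun j hj => ?_)
    rw [if_pos hj, smul_smul, mul_div_cancel₀ _ hc.ne']
  rw [h2, norm_smul, Real.norm_eq_abs, abs_of_pos hc]
  nlinarith

theorem IsWuc.summable_null [CompleteSpace E] {w : ℕ → E} (h : IsWuc w) (a : CNull) :
    Summable (fun j => a j • w j) := by
  rw [summable_iff_vanishing_norm]
  intro ε hε
  obtain ⟨N, hN⟩ := eventually_atTop.1 ((CNull.tendsto a).abs.eventually_lt_const
    (show |(0 : ℝ)| < ε / 2 by rw [abs_zero]; linarith))
  refine ⟨Finset.range N, fun t ht => ?_⟩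
  refine (h.norm_sum_le t (fun j => a j) (c := ε / 2) (by linarith) (fun j hj => ?_)).trans_lt
    (by linarith)
  have hjN : N ≤ j := by
    by_contra hlt
    push Not at hlt
    exact (Finset.disjoint_left.1 ht hj) (Finset.mem_range.2 hlt)
  exact (hN j hjN).le

/-- The operator on null sequences given by a weakly unconditionally Cauchy series. -/
noncomputable def ofNull [CompleteSpace E] (w : ℕ → E) (h : IsWuc w) : CNull →L[ℝ] E :=
  LinearMap.mkContinuous
    { toFun := fun a => ∑' j, a j • w j
      map_add' := fun a b => by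
        rw [← (h.summable_null a).tsum_add (h.summable_null b)]
        refine tsum_congr (fun j => ?_)
        rw [ZeroAtInftyContinuousMap.add_apply, add_smul]
      map_smul' := fun c a => by
        rw [RingHom.id_apply, ← (h.summable_null a).tsum_const_smul c]
        refine tsum_congr (fun j => ?_)
        rw [ZeroAtInftyContinuousMap.smul_apply, smul_eq_mul, mul_smul] } 1 (fun a => by
          rw [one_mul]
          refine le_of_forall_pos_le_add (fun τ hτ => ?_)
          refine le_of_tendsto ((h.summable_null a).hasSum.tendsto_sum_nat.norm)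
            (Eventually.of_forall (fun n => ?_))
          refine h.norm_sum_le _ _ (by have := norm_nonneg a; linarith) (fun j _ => ?_)
          have := CNull.abs_le_norm a j
          linarith)

theorem ofNull_apply [CompleteSpace E] (w : ℕ → E) (h : IsWuc w) (a : CNull) :
    ofNull w h a = ∑' j, a j • w j := rfl

/-- An infinite-dimensional polyhedral Banach space has a complemented copy of the space of
null sequences. -/
theorem IsPolyhedral.exists_complemented [CompleteSpace E] (hE : IsPolyhedral E)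
    (hfd : ¬ FiniteDimensional ℝ E) :
    ∃ (T : E →L[ℝ] CNull) (S : CNull →L[ℝ] E), ∀ a, T (S a) = a := by
  classical
  obtain ⟨w, χ, M, hw, hM, h0, hdiag, hoff⟩ := hE.exists_system hfd
  set T := toNull χ M hM h0 with hT
  set S := ofNull w hw with hS
  set Q : CNull →L[ℝ] CNull := T.comp S with hQ
  have hnorm : ‖(1 : CNull →L[ℝ] CNull) - Q‖ ≤ 1 / 4 := by
    refine ContinuousLinearMap.opNorm_le_bound _ (by norm_num) (fun a => ?_)
    refine (CNull.norm_le_iff (by positivity)).2 (fun i => ?_)
    have h1 : ((1 : CNull →L[ℝ] CNull) - Q) a i = a i - χ i (∑' j, a j • w j) := rfl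
    rw [h1]
    have h2 : Tendsto (fun J => a i - χ i (∑ j ∈ Finset.range J, a j • w j)) atTop
        (𝓝 (a i - χ i (∑' j, a j • w j))) :=
      (((χ i).continuous.tendsto _).comp (hw.summable_null a).hasSum.tendsto_sum_nat).const_sub _
    refine le_of_tendsto h2.abs ?_
    filter_upwards [eventually_gt_atTop i] with J hJ
    have h3 : χ i (∑ j ∈ Finset.range J, a j • w j) = a i
        + ∑ j ∈ (Finset.range J).erase i, a j * χ i (w j) := by
      rw [map_sum, ← Finset.add_sum_erase _ _ (Finset.mem_range.2 hJ), map_smul, hdiag,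
        smul_eq_mul, mul_one]
      congr 1
      exact Finset.sum_congr rfl (fun j _ => by rw [map_smul, smul_eq_mul])
    rw [h3, sub_add_cancel_left, abs_neg]
    refine (Finset.abs_sum_le_sum_abs _ _).trans ?_
    have h4 : ∑ j ∈ (Finset.range J).erase i, |a j * χ i (w j)|
        ≤ ∑ j ∈ (Finset.range J).erase i, ‖a‖ * |χ i (w j)| := by
      refine Finset.sum_le_sum (fun j _ => ?_)
      rw [abs_mul]
      exact mul_le_mul_of_nonneg_right (CNull.abs_le_norm a j) (abs_nonneg _)
    refine h4.trans ?_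
    rw [← Finset.mul_sum]
    have h5 := mul_le_mul_of_nonneg_left (hoff i J) (norm_nonneg a)
    linarith
  set U : (CNull →L[ℝ] CNull)ˣ := Units.oneSub (1 - Q) (hnorm.trans_lt (by norm_num)) with hU
  have hUQ : (U : CNull →L[ℝ] CNull) = Q := by
    rw [hU, Units.val_oneSub]
    abel
  refine ⟨T, S.comp (↑U⁻¹ : CNull →L[ℝ] CNull), fun a => ?_⟩
  have h1 : (U : CNull →L[ℝ] CNull) * (↑U⁻¹ : CNull →L[ℝ] CNull) = 1 := U.mul_inv
  rw [hUQ] at h1
  have h2 := DFunLike.congr_fun h1 a
  exact h2

/-- An infinite-dimensional polyhedral Banach space is isomorphic to its product with the space of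
null sequences. -/
theorem IsPolyhedral.exists_equiv_prod [CompleteSpace E] (hE : IsPolyhedral E)
    (hfd : ¬ FiniteDimensional ℝ E) : Nonempty (E ≃L[ℝ] E × CNull) := by
  obtain ⟨T, S, hTS⟩ := hE.exists_complemented hfd
  let e : E ≃L[ℝ] CNull × LinearMap.ker (T : E →ₗ[ℝ] CNull) :=
    ContinuousLinearEquiv.equivOfRightInverse T S hTS
  let e1 : (CNull × LinearMap.ker (T : E →ₗ[ℝ] CNull)) ≃L[ℝ]
      (CNull × CNull) × LinearMap.ker (T : E →ₗ[ℝ] CNull) :=
    CNull.splitE.prodCongr (ContinuousLinearEquiv.refl ℝ _)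
  let e2 : ((CNull × CNull) × LinearMap.ker (T : E →ₗ[ℝ] CNull)) ≃L[ℝ]
      CNull × (CNull × LinearMap.ker (T : E →ₗ[ℝ] CNull)) :=
    ContinuousLinearEquiv.prodAssoc ℝ _ _ _
  let e3 : (CNull × (CNull × LinearMap.ker (T : E →ₗ[ℝ] CNull))) ≃L[ℝ] CNull × E :=
    (ContinuousLinearEquiv.refl ℝ _).prodCongr e.symm
  exact ⟨(((e.trans e1).trans e2).trans e3).trans (ContinuousLinearEquiv.prodComm ℝ _ _)⟩

end Pool.Agent.Lib.MP_a60229_an
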