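import Pool.Agent.Lib.MP_a60229_an.SepDual

set_option autoImplicit false
universe u

namespace Pool.Agent.Lib.MP_a60229_an

open Metric Set Filter Topology

variable {E : Type u} [NormedAddCommGroup E] [NormedSpace ℝ E]

/-- Small nonzero vectors annihilated by finitely many functionals. -/
theorem exists_small_annih (hE : ¬ FiniteDimensional ℝ E) {A : Set (E →L[ℝ] ℝ)} (hA : A.Finite)
    {δ : ℝ} (hδ : 0 < δ) : ∃ h : E, h ≠ 0 ∧ ‖h‖ ≤ δ ∧ ∀ a ∈ A, a h = 0 := by
  have : Finite A := hA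
  let L : E →ₗ[ℝ] (A → ℝ) := LinearMap.pi (fun a => ((a : E →L[ℝ] ℝ) : E →ₗ[ℝ] ℝ))
  have hL : ¬ Function.Injective L := fun h => hE (FiniteDimensional.of_injective L h)
  rw [← LinearMap.ker_eq_bot, Submodule.eq_bot_iff] at hL
  push Not at hL
  obtain ⟨x, hx, hx0⟩ := hL
  have hxn : 0 < ‖x‖ := norm_pos_iff.2 hx0
  refine ⟨(δ / ‖x‖) • x, ?_, ?_, ?_⟩
  · exact smul_ne_zero (by positivity) hx0
  · rw [norm_smul, Real.norm_eq_abs, abs_of_pos (by positivity), div_mul_cancel₀ _ hxn.ne']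
  · intro a ha
    have h1 : a x = 0 := congrFun (LinearMap.mem_ker.1 hx) ⟨a, ha⟩
    rw [map_smul, h1, smul_zero]

/-- An infinite-dimensional separable polyhedral Banach space contains a sequence which is bounded
below and has bounded partial sums (with bounded coefficients). -/
theorem IsPolyhedral.exists_wuc_sep [CompleteSpace E] [TopologicalSpace.SeparableSpace E]
    (hE : IsPolyhedral E) (hfd : ¬ FiniteDimensional ℝ E) :
    ∃ (u : ℕ → E) (δ : ℝ), 0 < δ ∧ (∀ j, δ ≤ ‖u j‖) ∧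
      ∀ (J : ℕ) (b : ℕ → ℝ), (∀ j, |b j| ≤ 1) → ‖∑ j ∈ Finset.range J, b j • u j‖ ≤ 1 := by
  classical
  obtain ⟨f, hf1, hf⟩ := hE.exists_boundary_seq
  set B : Set E := {x | ∀ n, (1 + (1 / 2 : ℝ) ^ n) * f n x ≤ 1} with hB
  have hBclosed : IsClosed B := by
    have : B = ⋂ n, {x | (1 + (1 / 2 : ℝ) ^ n) * f n x ≤ 1} := by
      ext x
      simp only [hB, mem_iInter]
      rfl
    rw [this]
    exact isClosed_iInter (fun n => isClosed_le (by fun_prop) continuous_const)
  have hBnorm : ∀ x ∈ B, ‖x‖ < 1 := by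
    intro x hx
    obtain ⟨n, hn⟩ := hf x
    have h1 := hx n
    rw [hn] at h1
    have h2 : (0 : ℝ) < (1 / 2) ^ n := by positivity
    by_contra hlt
    push Not at hlt
    nlinarith
  have hB0 : (0 : E) ∈ B := by
    intro n
    rw [map_zero, mul_zero]
    exact zero_le_one
  have hBconv : ∀ x h : E, x + h ∈ B → x - h ∈ B → ∀ t : ℝ, |t| ≤ 1 → x + t • h ∈ B := by
    intro x h h1 h2 t ht n
    have a1 := h1 n
    have a2 := h2 n
    rw [map_add] at a1
    rw [map_sub] at a2
    rw [map_add, map_smul, smul_eq_mul]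
    obtain ⟨t1, t2⟩ := abs_le.1 ht
    nlinarith
  -- greedy choice
  have hH : ∀ A : Set E, ∃ h : E, (0 : E) ∈ A → A ⊆ B → (∀ x ∈ A, x + h ∈ B ∧ x - h ∈ B) ∧
      ∀ h' : E, (∀ x ∈ A, x + h' ∈ B ∧ x - h' ∈ B) → ‖h'‖ ≤ 2 * ‖h‖ := by
    intro A
    by_cases hA : (0 : E) ∈ A ∧ A ⊆ B
    · obtain ⟨hA0, hAB⟩ := hA
      set R : Set ℝ := {r | ∃ h : E, (∀ x ∈ A, x + h ∈ B ∧ x - h ∈ B) ∧ r = ‖h‖} with hR
      have hRb : BddAbove R := by
        refine ⟨1, ?_⟩
        rintro r ⟨h, hh, rfl⟩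
        have := (hh 0 hA0).1
        rw [zero_add] at this
        exact (hBnorm _ this).le
      have hgood0 : ∀ x ∈ A, x + 0 ∈ B ∧ x - 0 ∈ B := by
        intro x hx
        rw [add_zero, sub_zero]
        exact ⟨hAB hx, hAB hx⟩
      have hR0 : (0 : ℝ) ∈ R := ⟨0, hgood0, norm_zero.symm⟩
      rcases le_or_gt (sSup R) 0 with hs | hs
      · refine ⟨0, fun _ _ => ⟨hgood0, fun h' hh' => ?_⟩⟩
        have := le_csSup hRb ⟨h', hh', rfl⟩
        rw [norm_zero]
        linarith
      · obtain ⟨r, ⟨h, hh, rfl⟩, hlt⟩ := exists_lt_of_lt_csSup ⟨0, hR0⟩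
          (show sSup R / 2 < sSup R by linarith)
        refine ⟨h, fun _ _ => ⟨hh, fun h' hh' => ?_⟩⟩
        have := le_csSup hRb ⟨h', hh', rfl⟩
        linarith
    · exact ⟨0, fun h1 h2 => absurd ⟨h1, h2⟩ hA⟩
  choose H hH using hH
  let A : ℕ → Set E := fun n => n.rec {0} (fun _ r => {y | ∃ x ∈ r, ∃ t : ℝ, |t| ≤ 1 ∧
    y = x + t • H r})
  let h : ℕ → E := fun n => H (A n)
  have hA0 : A 0 = {0} := rfl
  have hAs : ∀ n, A (n + 1) = {y | ∃ x ∈ A n, ∃ t : ℝ, |t| ≤ 1 ∧ y = x + t • h n} := fun n => rfl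
  have hAB : ∀ n, (0 : E) ∈ A n ∧ A n ⊆ B := by
    intro n
    induction n with
    | zero =>
      rw [hA0]
      exact ⟨rfl, by rintro x rfl; exact hB0⟩
    | succ n ih =>
      rw [hAs]
      constructor
      · exact ⟨0, ih.1, 0, by simp, by simp⟩
      · rintro y ⟨x, hx, t, ht, rfl⟩
        obtain ⟨h1, h2⟩ := (hH (A n) ih.1 ih.2).1 x hx
        exact hBconv x (h n) h1 h2 t ht
  have hcomp : ∀ n, IsCompact (A n) := by
    intro n
    induction n with
    | zero => rw [hA0]; exact isCompact_singleton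
    | succ n ih =>
      have : A (n + 1) = (fun p : E × ℝ => p.1 + p.2 • h n) '' (A n ×ˢ Icc (-1 : ℝ) 1) := by
        rw [hAs]
        ext y
        constructor
        · rintro ⟨x, hx, t, ht, rfl⟩
          exact ⟨(x, t), ⟨hx, abs_le.1 ht⟩, rfl⟩
        · rintro ⟨⟨x, t⟩, ⟨hx, ht⟩, rfl⟩
          exact ⟨x, hx, t, abs_le.2 ht, rfl⟩
      rw [this]
      exact (ih.prod isCompact_Icc).image (by fun_prop)
  have hadd : ∀ n m, n ≤ m → ∀ x ∈ A n, ∀ a : ℕ → ℝ, (∀ i, |a i| ≤ 1) →
      x + ∑ i ∈ Finset.Ico n m, a i • h i ∈ A m := by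
    intro n m hnm x hx a ha
    induction m, hnm using Nat.le_induction with
    | base => simpa using hx
    | succ m hm ih =>
      rw [Finset.sum_Ico_succ_top hm, ← add_assoc, hAs]
      exact ⟨_, ih, a m, ha m, rfl⟩
  have hrep : ∀ n m, n ≤ m → ∀ y ∈ A m, ∃ x ∈ A n, ∃ a : ℕ → ℝ, (∀ i, |a i| ≤ 1) ∧
      y = x + ∑ i ∈ Finset.Ico n m, a i • h i := by
    intro n m hnm
    induction m, hnm using Nat.le_induction with
    | base =>
      intro y hy
      exact ⟨y, hy, fun _ => 0, by simp, by simp⟩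
    | succ m hm ih =>
      intro y hy
      rw [hAs] at hy
      obtain ⟨x', hx', t, ht, rfl⟩ := hy
      obtain ⟨x, hx, a, ha, rfl⟩ := ih x' hx'
      refine ⟨x, hx, Function.update a m t, fun i => ?_, ?_⟩
      · by_cases hi : i = m
        · subst hi
          rw [Function.update_self]
          exact ht
        · rw [Function.update_of_ne hi]
          exact ha i
      · rw [Finset.sum_Ico_succ_top hm, Function.update_self, add_assoc]
        congr 2
        refine Finset.sum_congr rfl (fun i hi => ?_)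
        rw [Function.update_of_ne (by
          have := (Finset.mem_Ico.1 hi).2
          omega)]
  -- the series is not Cauchy
  have hnc : ∃ δ : ℝ, 0 < δ ∧ ∀ n, ∃ m, n ≤ m ∧ ∃ a : ℕ → ℝ, (∀ i, |a i| ≤ 1) ∧
      δ ≤ ‖∑ i ∈ Finset.Ico n m, a i • h i‖ := by
    by_contra hcon
    push Not at hcon
    have hmono : ∀ n m, n ≤ m → A n ⊆ A m := by
      intro n m hnm x hx
      have := hadd n m hnm x hx (fun _ => 0) (by simp)
      simpa using this
    have htb : TotallyBounded (⋃ n, A n) := by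
      rw [Metric.totallyBounded_iff]
      intro ε hε
      obtain ⟨n, hn⟩ := hcon (ε / 2) (by linarith)
      obtain ⟨t, htf, ht⟩ := Metric.totallyBounded_iff.1 (hcomp n).totallyBounded (ε / 2)
        (by linarith)
      refine ⟨t, htf, ?_⟩
      intro y hy
      obtain ⟨m, hm⟩ := mem_iUnion.1 hy
      obtain ⟨x, hx, hxy⟩ : ∃ x ∈ A n, ‖y - x‖ < ε / 2 := by
        rcases le_total m n with hmn | hmn
        · exact ⟨y, hmono m n hmn hm, by rw [sub_self, norm_zero]; linarith⟩
        · obtain ⟨x, hx, a, ha, rfl⟩ := hrep n m hmn y hm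
          refine ⟨x, hx, ?_⟩
          rw [add_sub_cancel_left]
          exact hn m hmn a ha
      obtain ⟨z, hz, hxz⟩ := mem_iUnion₂.1 (ht hx)
      refine mem_iUnion₂.2 ⟨z, hz, ?_⟩
      rw [mem_ball, dist_eq_norm] at hxz ⊢
      have : y - z = (y - x) + (x - z) := by abel
      rw [this]
      exact lt_of_le_of_lt (norm_add_le _ _) (by linarith)
    set K : Set E := closure (⋃ n, A n) with hK
    have hKc : IsCompact K := htb.closure.isCompact_of_isClosed isClosed_closure
    have hKB : K ⊆ B := closure_minimal (iUnion_subset (fun n => (hAB n).2)) hBclosed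
    have hAK : ∀ n, A n ⊆ K := fun n => (subset_iUnion A n).trans subset_closure
    obtain ⟨x₀, hx₀, hmax⟩ := hKc.exists_isMaxOn ⟨0, hAK 0 (hAB 0).1⟩
      (continuous_norm.continuousOn (s := K))
    have hq := hBnorm x₀ (hKB hx₀)
    have hq0 := norm_nonneg x₀
    obtain ⟨N, hN⟩ := exists_pow_lt_of_lt_one (show 0 < (1 - ‖x₀‖) / (1 + ‖x₀‖) by
      apply div_pos <;> linarith) (show (1 / 2 : ℝ) < 1 by norm_num)
    rw [lt_div_iff₀ (by linarith)] at hN
    obtain ⟨h', hh'0, hh'n, hh'f⟩ := exists_small_annih hfd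
      (A := f '' {n | n < N}) ((finite_lt_nat N).image f)
      (show 0 < (1 - ‖x₀‖) / 2 by linarith)
    have hgood : ∀ n, ∀ x ∈ A n, x + h' ∈ B ∧ x - h' ∈ B := by
      intro n x hx
      have hxB : x ∈ B := (hAB n).2 hx
      have hxn : ‖x‖ ≤ ‖x₀‖ := hmax (hAK n hx)
      have key : ∀ y : E, ‖y‖ ≤ (1 - ‖x₀‖) / 2 → (∀ k < N, f k y = 0) → x + y ∈ B := by
        intro y hy hfy k
        by_cases hk : k < N
        · rw [map_add, hfy k hk, add_zero]
          exact hxB k
        · push Not at hk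
          have h1 : f k (x + y) ≤ (1 + ‖x₀‖) / 2 := by
            refine (apply_le_norm (hf1 k) _).trans ((norm_add_le _ _).trans ?_)
            linarith
          have h2 : (1 / 2 : ℝ) ^ k ≤ (1 / 2) ^ N :=
            pow_le_pow_of_le_one (by norm_num) (by norm_num) hk
          have h3 : (0 : ℝ) < (1 / 2) ^ k := by positivity
          have h4 : (1 + (1 / 2 : ℝ) ^ k) * f k (x + y)
              ≤ (1 + (1 / 2 : ℝ) ^ k) * ((1 + ‖x₀‖) / 2) :=
            mul_le_mul_of_nonneg_left h1 (by linarith)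
          have h5 : (1 / 2 : ℝ) ^ k * (1 + ‖x₀‖) ≤ (1 / 2) ^ N * (1 + ‖x₀‖) :=
            mul_le_mul_of_nonneg_right h2 (by linarith)
          nlinarith
      refine ⟨key h' hh'n (fun k hk => hh'f _ ⟨k, hk, rfl⟩), ?_⟩
      rw [sub_eq_add_neg]
      exact key (-h') (by rw [norm_neg]; exact hh'n) (fun k hk => by
        rw [map_neg, hh'f _ ⟨k, hk, rfl⟩, neg_zero])
    have hlow : ∀ n, ‖h'‖ ≤ 2 * ‖h n‖ := fun n =>
      (hH (A n) (hAB n).1 (hAB n).2).2 h' (hgood n)
    obtain ⟨n, hn⟩ := hcon (‖h'‖ / 2) (by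
      have := norm_pos_iff.2 hh'0
      linarith)
    have h1 := hn (n + 1) (by omega) (fun _ => 1) (by simp)
    rw [Finset.sum_Ico_succ_top le_rfl, Finset.Ico_self, Finset.sum_empty, zero_add,
      one_smul] at h1
    have := hlow n
    linarith
  obtain ⟨δ, hδ, hblock⟩ := hnc
  choose m hm a ha hma using hblock
  let N : ℕ → ℕ := fun j => j.rec 0 (fun _ r => m r)
  have hNs : ∀ j, N (j + 1) = m (N j) := fun j => rfl
  let u : ℕ → E := fun j => ∑ i ∈ Finset.Ico (N j) (N (j + 1)), a (N j) i • h i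
  refine ⟨u, δ, hδ, fun j => hma (N j), ?_⟩
  intro J b hb
  have hmem : ∀ J, ∑ j ∈ Finset.range J, b j • u j ∈ A (N J) := by
    intro J
    induction J with
    | zero =>
      rw [Finset.sum_range_zero]
      exact (hAB (N 0)).1
    | succ J ih =>
      rw [Finset.sum_range_succ]
      have h1 : b J • u J = ∑ i ∈ Finset.Ico (N J) (N (J + 1)), (b J * a (N J) i) • h i := by
        show b J • ∑ i ∈ Finset.Ico (N J) (N (J + 1)), a (N J) i • h i = _
        rw [Finset.smul_sum]
        exact Finset.sum_congr rfl (fun i _ => by rw [smul_smul])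
      rw [h1]
      refine hadd _ _ (hm (N J)) _ ih _ (fun i => ?_)
      rw [abs_mul]
      have h2 := hb J
      have h3 := ha (N J) i
      have h4 := abs_nonneg (b J)
      have h5 := abs_nonneg (a (N J) i)
      nlinarith
  exact (hBnorm _ ((hAB _).2 (hmem J))).le

/-- An infinite-dimensional polyhedral Banach space contains a sequence which is bounded
below and has bounded partial sums (with bounded coefficients). -/
theorem IsPolyhedral.exists_wuc [CompleteSpace E]
    (hE : IsPolyhedral E) (hfd : ¬ FiniteDimensional ℝ E) :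
    ∃ (u : ℕ → E) (δ : ℝ), 0 < δ ∧ (∀ j, δ ≤ ‖u j‖) ∧
      ∀ (J : ℕ) (b : ℕ → ℝ), (∀ j, |b j| ≤ 1) → ‖∑ j ∈ Finset.range J, b j • u j‖ ≤ 1 := by
  have hrank : Cardinal.aleph0 ≤ Module.rank ℝ E := by
    by_contra hlt
    push Not at hlt
    exact hfd (Module.rank_lt_aleph0_iff.1 hlt)
  obtain ⟨s, hs, hlin⟩ := le_rank_iff_exists_linearIndependent.1 hrank
  have hsc : s.Countable := by
    rw [← Cardinal.le_aleph0_iff_set_countable, hs]
  set S : Submodule ℝ E := (Submodule.span ℝ s).topologicalClosure with hS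
  have hSc : IsClosed (S : Set E) := Submodule.isClosed_topologicalClosure _
  have hsS : s ⊆ S := fun x hx => Submodule.le_topologicalClosure _ (Submodule.subset_span hx)
  have hScomp : CompleteSpace S := hSc.completeSpace_coe
  have hSsep : TopologicalSpace.SeparableSpace S := by
    have h1 : TopologicalSpace.IsSeparable (S : Set E) :=
      (hsc.isSeparable.span (R := ℝ)).closure
    exact h1.separableSpace
  have hSfd : ¬ FiniteDimensional ℝ S := by
    intro hfdS
    have hlin' : LinearIndependent ℝ (fun x : s => (⟨x, hsS x.2⟩ : S)) := by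
      refine LinearIndependent.of_comp S.subtype ?_
      exact hlin
    have := hlin'.finite
    have h2 := Cardinal.mk_lt_aleph0 (α := s)
    rw [hs] at h2
    exact lt_irrefl _ h2
  obtain ⟨u, δ, hδ, hu1, hu2⟩ := (hE.subspace S).exists_wuc_sep hSfd
  refine ⟨fun j => u j, δ, hδ, hu1, fun J b hb => ?_⟩
  have h1 := hu2 J b hb
  have h2 : ((∑ j ∈ Finset.range J, b j • u j : S) : E) = ∑ j ∈ Finset.range J, b j • (u j : E) := by
    rw [Submodule.coe_sum]
    rfl
  rw [← h2]
  exact h1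

end Pool.Agent.Lib.MP_a60229_an
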