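import Mathlib

set_option autoImplicit false
universe u

namespace Pool.Agent.Lib.MP_a60229_an

open Metric Set Filter Topology

variable {E : Type u} [NormedAddCommGroup E] [NormedSpace ℝ E] [CompleteSpace E]

/-- Ekeland's variational principle for a continuous linear functional on a closed bounded set,
in the form: starting from `a`, there is a point `x₀` which is at least as good and which is a
strict maximiser of the perturbed functional. -/
theorem ekeland {S : Set E} (hS : IsClosed S) {ψ : E → ℝ} (hψ : Continuous ψ) {M : ℝ}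
    (hM : ∀ x ∈ S, ψ x ≤ M) {c : ℝ} (hc : 0 < c) {a : E} (ha : a ∈ S) :
    ∃ x₀ ∈ S, ψ a ≤ ψ x₀ ∧ ∀ x ∈ S, ψ x ≤ ψ x₀ + c * ‖x - x₀‖ := by
  classical
  -- the sections
  let T : E → Set E := fun x => {y | y ∈ S ∧ ψ x + c * ‖y - x‖ ≤ ψ y}
  have hself : ∀ x ∈ S, x ∈ T x := fun x hx => ⟨hx, by simp⟩
  have htrans : ∀ x y z, y ∈ T x → z ∈ T y → z ∈ T x := by
    intro x y z hy hz
    refine ⟨hz.1, ?_⟩
    have h1 := hy.2
    have h2 := hz.2
    have h3 : ‖z - x‖ ≤ ‖z - y‖ + ‖y - x‖ := by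
      have : z - x = (z - y) + (y - x) := by abel
      rw [this]; exact norm_add_le _ _
    nlinarith
  have hbdd : ∀ x, BddAbove (ψ '' T x) := fun x => ⟨M, by
    rintro _ ⟨y, hy, rfl⟩; exact hM y hy.1⟩
  have hstep : ∀ x : S, ∃ y : S, (y : E) ∈ T x ∧ (sSup (ψ '' T x) + ψ x) / 2 ≤ ψ y := by
    intro x
    have hne : (ψ '' T x).Nonempty := ⟨_, x, hself x x.2, rfl⟩
    have hge : ψ x ≤ sSup (ψ '' T x) := le_csSup (hbdd x) ⟨x, hself x x.2, rfl⟩
    rcases eq_or_lt_of_le hge with heq | hlt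
    · exact ⟨x, hself x x.2, by rw [← heq]; linarith⟩
    · obtain ⟨_, ⟨y, hy, rfl⟩, hlt'⟩ := exists_lt_of_lt_csSup hne
        (show (sSup (ψ '' T x) + ψ x) / 2 < sSup (ψ '' T x) by linarith)
      exact ⟨⟨y, hy.1⟩, hy, hlt'.le⟩
  choose g hg1 hg2 using hstep
  let u : ℕ → S := fun n => g^[n] ⟨a, ha⟩
  have husucc : ∀ n, u (n + 1) = g (u n) := fun n => Function.iterate_succ_apply' g n _
  have hu1 : ∀ n, (u (n + 1) : E) ∈ T (u n) := fun n => by rw [husucc]; exact hg1 _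
  have hu2 : ∀ n, (sSup (ψ '' T (u n)) + ψ (u n)) / 2 ≤ ψ (u (n + 1)) := fun n => by
    rw [husucc]; exact hg2 _
  have hmem : ∀ n m, n ≤ m → (u m : E) ∈ T (u n) := by
    intro n m hnm
    induction m, hnm using Nat.le_induction with
    | base => exact hself _ (u n).2
    | succ m _ ih => exact htrans _ _ _ ih (hu1 m)
  have hmono : Monotone (fun n => ψ (u n)) := by
    refine monotone_nat_of_le_succ (fun n => ?_)
    have := (hu1 n).2
    have h0 := mul_nonneg hc.le (norm_nonneg ((u (n+1) : E) - u n))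
    linarith
  have hψbdd : BddAbove (range (fun n => ψ (u n))) := ⟨M, by
    rintro _ ⟨n, rfl⟩; exact hM _ (u n).2⟩
  have hconv := tendsto_atTop_ciSup hmono hψbdd
  set L := ⨆ n, ψ (u n) with hL
  have hcauchyψ : CauchySeq (fun n => ψ (u n)) := hconv.cauchySeq
  have hcauchy : CauchySeq (fun n => (u n : E)) := by
    rw [Metric.cauchySeq_iff'] at hcauchyψ ⊢
    intro ε hε
    obtain ⟨N, hN⟩ := hcauchyψ (c * ε) (mul_pos hc hε)
    refine ⟨N, fun n hn => ?_⟩
    have h1 := (hmem N n hn).2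
    have h2 := hN n hn
    rw [Real.dist_eq] at h2
    have h3 := (abs_lt.1 h2).2
    rw [dist_eq_norm]
    have h4 : c * ‖(u n : E) - u N‖ < c * ε := by linarith
    exact lt_of_mul_lt_mul_left h4 hc.le
  obtain ⟨x₀, hx₀⟩ := cauchySeq_tendsto_of_complete hcauchy
  have hx₀S : x₀ ∈ S := hS.mem_of_tendsto hx₀ (Eventually.of_forall (fun n => (u n).2))
  have hψx₀ : Tendsto (fun n => ψ (u n)) atTop (𝓝 (ψ x₀)) := (hψ.tendsto x₀).comp hx₀
  have hLeq : L = ψ x₀ := tendsto_nhds_unique hconv hψx₀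
  have hx₀T : ∀ n, x₀ ∈ T (u n) := by
    intro n
    refine ⟨hx₀S, ?_⟩
    have h1 : Tendsto (fun m => ψ (u n) + c * ‖(u m : E) - u n‖) atTop
        (𝓝 (ψ (u n) + c * ‖x₀ - u n‖)) :=
      ((hx₀.sub_const _).norm.const_mul c).const_add _
    refine le_of_tendsto_of_tendsto h1 hψx₀ ?_
    filter_upwards [eventually_ge_atTop n] with m hm
    exact (hmem n m hm).2
  refine ⟨x₀, hx₀S, ?_, ?_⟩
  · have h := (hx₀T 0).2
    have h0 := mul_nonneg hc.le (norm_nonneg (x₀ - u 0))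
    have : (u 0 : E) = a := rfl
    rw [this] at h h0
    linarith
  · intro x hx
    by_contra hcon
    push Not at hcon
    have hxT : x ∈ T x₀ := ⟨hx, hcon.le⟩
    have hle : ∀ n, ψ x ≤ 2 * ψ (u (n + 1)) - ψ (u n) := by
      intro n
      have h1 : ψ x ≤ sSup (ψ '' T (u n)) :=
        le_csSup (hbdd _) ⟨x, htrans _ _ _ (hx₀T n) hxT, rfl⟩
      have h2 := hu2 n
      linarith
    have h3 : Tendsto (fun n => 2 * ψ (u (n + 1)) - ψ (u n)) atTop (𝓝 (2 * ψ x₀ - ψ x₀)) :=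
      ((hψx₀.comp (tendsto_add_atTop_nat 1)).const_mul 2).sub hψx₀
    have h4 : ψ x ≤ 2 * ψ x₀ - ψ x₀ := ge_of_tendsto' h3 hle
    have h0 := mul_nonneg hc.le (norm_nonneg (x - x₀))
    linarith

end Pool.Agent.Lib.MP_a60229_an
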