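import Pool.Agent.Lib.MP_a60229_an.Basic
import Pool.Agent.Lib.MP_a60229_an.Ekeland

set_option autoImplicit false
universe u

namespace Pool.Agent.Lib.MP_a60229_an

open Metric Set Filter Topology

variable {E : Type u} [NormedAddCommGroup E] [NormedSpace ℝ E]

/-- Members of `B` with a strict point in the slice determined by `g` and `ε`. -/
def SliceFacets (B : Set (E →L[ℝ] ℝ)) (g : E →L[ℝ] ℝ) (ε : ℝ) : Set (E →L[ℝ] ℝ) :=
  {f | ∃ z, StrictAt B f z ∧ 1 - ε < g z}

theorem exists_near_norm (ψ : E →L[ℝ] ℝ) {δ : ℝ} (hδ : 0 < δ) :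
    ∃ a : E, ‖a‖ ≤ 1 ∧ ‖ψ‖ - δ < ψ a := by
  obtain ⟨x, hx, hψ⟩ := ψ.exists_lt_apply_of_lt_opNorm (show ‖ψ‖ - δ < ‖ψ‖ by linarith)
  rw [Real.norm_eq_abs] at hψ
  rcases abs_cases (ψ x) with ⟨h, _⟩ | ⟨h, _⟩
  · exact ⟨x, hx.le, by rwa [h] at hψ⟩
  · exact ⟨-x, by rw [norm_neg]; exact hx.le, by rw [map_neg]; rwa [h] at hψ⟩

theorem mem_span_of_forall_zero {A : Set (E →L[ℝ] ℝ)} (hA : A.Finite) {φ : E →L[ℝ] ℝ}
    (h : ∀ v : E, (∀ f ∈ A, f v = 0) → φ v = 0) : φ ∈ Submodule.span ℝ A := by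
  classical
  have : Finite A := hA
  have : Fintype A := Fintype.ofFinite A
  have h1 : (φ : E →ₗ[ℝ] ℝ) ∈ Submodule.span ℝ
      (range (fun f : A => ((f : E →L[ℝ] ℝ) : E →ₗ[ℝ] ℝ))) := by
    apply mem_span_of_iInf_ker_le_ker
    intro v hv
    rw [Submodule.mem_iInf] at hv
    rw [LinearMap.mem_ker]
    exact h v (fun f hf => hv ⟨f, hf⟩)
  obtain ⟨c, hc⟩ := (Submodule.mem_span_range_iff_exists_fun ℝ).1 h1
  have h2 : φ = ∑ i : A, c i • (i : E →L[ℝ] ℝ) := by
    ext v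
    have := LinearMap.congr_fun hc v
    simp only [LinearMap.sum_apply, LinearMap.smul_apply] at this
    rw [← ContinuousLinearMap.coe_coe φ, ← this]
    simp
  rw [h2]
  exact Submodule.sum_mem _ (fun i _ => Submodule.smul_mem _ _ (Submodule.subset_span i.2))

theorem IsGoodBoundary.approx [CompleteSpace E] {B : Set (E →L[ℝ] ℝ)} (hB : IsGoodBoundary B)
    {g : E →L[ℝ] ℝ} (hg : ‖g‖ = 1) {ε : ℝ} (hε : 0 < ε) (h : E →L[ℝ] ℝ) {c : ℝ} (hc : 0 < c) :
    ∃ φ ∈ Submodule.span ℝ (insert g (SliceFacets B g ε)), ‖h - φ‖ ≤ c := by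
  classical
  set t : ℝ := (2 * ‖h‖ + 2) / ε with ht
  have ht0 : 0 < t := by positivity
  have htε : t * ε = 2 * ‖h‖ + 2 := by rw [ht]; field_simp
  set ψ : E →L[ℝ] ℝ := h + t • g with hψ
  have hψn : t - ‖h‖ ≤ ‖ψ‖ := by
    have h1 : t • g = ψ - h := by rw [hψ]; abel
    have h2 : ‖t • g‖ ≤ ‖ψ‖ + ‖h‖ := by rw [h1]; exact norm_sub_le _ _
    rw [norm_smul, hg, Real.norm_eq_abs, abs_of_pos ht0] at h2
    linarith
  obtain ⟨a, ha, hψa⟩ := exists_near_norm ψ one_pos
  have hbd : ∀ x ∈ closedBall (0 : E) 1, ψ x ≤ ‖ψ‖ := by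
    intro x hx
    rw [mem_closedBall_zero_iff] at hx
    have := ψ.le_of_opNorm_le le_rfl x
    have h3 := mul_le_mul_of_nonneg_left hx (norm_nonneg ψ)
    have h4 := le_abs_self (ψ x)
    rw [Real.norm_eq_abs] at this
    linarith
  obtain ⟨x₀, hx₀, hax, hmax⟩ := ekeland isClosed_closedBall ψ.continuous hbd hc
    (mem_closedBall_zero_iff.2 ha)
  rw [mem_closedBall_zero_iff] at hx₀
  have hhx : |h x₀| ≤ ‖h‖ := by
    have := h.le_of_opNorm_le le_rfl x₀
    have h3 := mul_le_mul_of_nonneg_left hx₀ (norm_nonneg h)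
    rw [Real.norm_eq_abs] at this
    linarith
  have hgx : 1 - ε < g x₀ := by
    have h1 : ψ x₀ = h x₀ + t * g x₀ := by
      rw [hψ, add_apply, smul_apply, smul_eq_mul]
    have h2 := (abs_le.1 hhx).2
    have h3 : t * (1 - ε) < t * g x₀ := by
      rw [mul_sub, htε]; linarith
    exact lt_of_mul_lt_mul_left h3 ht0.le
  set A : Set (E →L[ℝ] ℝ) := {f | f ∈ B ∧ f x₀ = 1} with hA
  have hAfin : A.Finite := by
    rcases lt_or_eq_of_le hx₀ with hlt | heq
    · convert Set.finite_empty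
      rw [Set.eq_empty_iff_forall_notMem]
      rintro f ⟨hf, hfx⟩
      have := hB.apply_le hf x₀
      linarith
    · exact hB.finite_active heq
  have hAs : A ⊆ SliceFacets B g ε := by
    rintro f ⟨hf, hfx⟩
    obtain ⟨z, hz⟩ := hB.strict f hf
    have hgz : |g z| ≤ 1 := by
      have := g.le_of_opNorm_le le_rfl z
      rwa [hg, hz.2.1, one_mul] at this
    have hgx1 : g x₀ ≤ 1 := by
      have := g.le_of_opNorm_le le_rfl x₀
      rw [hg, one_mul, Real.norm_eq_abs] at this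
      exact (le_abs_self _).trans (this.trans hx₀)
    set s : ℝ := min 1 ((g x₀ - (1 - ε)) / 4) with hs
    have hs0 : 0 < s := lt_min one_pos (by linarith)
    refine ⟨(1 - s) • x₀ + s • z, StrictAt.segment hB.toIsStarBoundary hz hx₀ hfx hs0
      (min_le_left _ _), ?_⟩
    rw [map_add, map_smul, map_smul, smul_eq_mul, smul_eq_mul]
    have h1 : s ≤ (g x₀ - (1 - ε)) / 4 := min_le_right _ _
    have h2 := (abs_le.1 hgz).1
    nlinarith
  set N : Submodule ℝ E := ⨅ f : A, LinearMap.ker (((f : E →L[ℝ] ℝ)) : E →ₗ[ℝ] ℝ) with hN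
  have hNmem : ∀ v, v ∈ N ↔ ∀ f ∈ A, f v = 0 := by
    intro v
    rw [hN, Submodule.mem_iInf]
    constructor
    · intro hv f hf
      exact hv ⟨f, hf⟩
    · rintro hv ⟨f, hf⟩
      exact hv f hf
  -- upper bound on `N`
  have hNle : ∀ v ∈ N, ψ v ≤ c * ‖v‖ := by
    intro v hv
    obtain ⟨s, hs, hsv⟩ : ∃ s : ℝ, 0 < s ∧ ‖x₀ + s • v‖ ≤ 1 := by
      rcases lt_or_eq_of_le hx₀ with hlt | heq
      · refine ⟨(1 - ‖x₀‖) / (‖v‖ + 1), by have := norm_nonneg v; apply div_pos <;> linarith, ?_⟩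
        refine (norm_add_le _ _).trans ?_
        have hv0 := norm_nonneg v
        rw [norm_smul, Real.norm_eq_abs, abs_of_nonneg (by apply div_nonneg <;> linarith),
          div_mul_eq_mul_div]
        have : (1 - ‖x₀‖) * ‖v‖ / (‖v‖ + 1) ≤ 1 - ‖x₀‖ := by
          rw [div_le_iff₀ (by linarith)]
          nlinarith
        linarith
      · obtain ⟨η, hη, hgap⟩ := hB.gap heq
        refine ⟨η / (‖v‖ + 1), by positivity, ?_⟩
        refine hB.norm_add_le hgap ?_ ?_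
        · have hv0 := norm_nonneg v
          rw [norm_smul, Real.norm_eq_abs, abs_of_nonneg (by positivity), div_mul_eq_mul_div,
            div_le_iff₀ (by linarith)]
          nlinarith
        · intro f hf hfx
          rw [map_smul, (hNmem v).1 hv f ⟨hf, hfx⟩, smul_zero]
    have h1 := hmax _ (mem_closedBall_zero_iff.2 hsv)
    rw [map_add, map_smul, smul_eq_mul, add_sub_cancel_left, norm_smul, Real.norm_eq_abs,
      abs_of_pos hs] at h1
    have h2 : s * ψ v ≤ s * (c * ‖v‖) := by nlinarith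
    exact le_of_mul_le_mul_left h2 hs
  obtain ⟨φ, hφ1, hφ2⟩ := exists_extension_norm_eq N (ψ.comp N.subtypeL)
  have hφn : ‖φ‖ ≤ c := by
    rw [hφ2]
    refine ContinuousLinearMap.opNorm_le_bound _ hc.le (fun v => ?_)
    rw [ContinuousLinearMap.comp_apply, Submodule.subtypeL_apply, Real.norm_eq_abs, abs_le]
    have h1 := hNle v v.2
    have h2 := hNle (-v) (N.neg_mem v.2)
    rw [map_neg, norm_neg] at h2
    constructor
    · have : ‖v‖ = ‖(v : E)‖ := rfl
      rw [this]; linarith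
    · exact h1
  have hspan : ψ - φ ∈ Submodule.span ℝ A := by
    apply mem_span_of_forall_zero hAfin
    intro v hv
    have h1 := hφ1 ⟨v, (hNmem v).2 hv⟩
    rw [ContinuousLinearMap.comp_apply] at h1
    rw [sub_apply]
    simp only [Submodule.subtypeL_apply] at h1
    rw [h1, sub_self]
  refine ⟨(ψ - φ) - t • g, ?_, ?_⟩
  · refine Submodule.sub_mem _ ?_ ?_
    · exact Submodule.span_mono (hAs.trans (Set.subset_insert _ _)) hspan
    · exact Submodule.smul_mem _ _ (Submodule.subset_span (Set.mem_insert _ _))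
  · have : h - (ψ - φ - t • g) = φ := by rw [hψ]; abel
    rw [this]
    exact hφn

end Pool.Agent.Lib.MP_a60229_an
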