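import Pool.Agent.Lib.MP_a60229_an.SeqComp
import Pool.Agent.Lib.MP_a60229_an.CZero

set_option autoImplicit false
universe u

namespace Pool.Agent.Lib.MP_a60229_an

open Metric Set Filter Topology

variable {E : Type u} [NormedAddCommGroup E] [NormedSpace ℝ E]

/-- Finite sums with coefficients bounded by one are bounded by one. -/
def IsWuc (u : ℕ → E) : Prop :=
  ∀ (A : Finset ℕ) (b : ℕ → ℝ), (∀ j, |b j| ≤ 1) → ‖∑ j ∈ A, b j • u j‖ ≤ 1

theorem IsWuc.of_range {u : ℕ → E}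
    (h : ∀ (J : ℕ) (b : ℕ → ℝ), (∀ j, |b j| ≤ 1) → ‖∑ j ∈ Finset.range J, b j • u j‖ ≤ 1) :
    IsWuc u := by
  classical
  intro A b hb
  obtain ⟨J, hJ⟩ : ∃ J, A ⊆ Finset.range J := by
    refine ⟨A.sup id + 1, fun a ha => ?_⟩
    rw [Finset.mem_range]
    have : id a ≤ A.sup id := Finset.le_sup ha
    simp only [id] at this
    omega
  have h1 := h J (fun j => if j ∈ A then b j else 0) (fun j => by
    by_cases hj : j ∈ A
    · rw [if_pos hj]; exact hb j
    · rw [if_neg hj]; simp)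
  have h2 : ∑ j ∈ Finset.range J, (if j ∈ A then b j else 0) • u j = ∑ j ∈ A, b j • u j := by
    rw [← Finset.sum_subset hJ (fun j _ hj => by rw [if_neg hj, zero_smul])]
    exact Finset.sum_congr rfl (fun j hj => by rw [if_pos hj])
  rwa [h2] at h1

theorem IsWuc.comp {u : ℕ → E} (h : IsWuc u) {κ : ℕ → ℕ} (hκ : Function.Injective κ) :
    IsWuc (fun j => u (κ j)) := by
  classical
  intro A b hb
  have h1 := h (A.map ⟨κ, hκ⟩) (fun i => b (Function.invFun κ i)) (fun i => hb _)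
  rw [Finset.sum_map] at h1
  have h2 : ∀ j, Function.invFun κ (κ j) = j := Function.leftInverse_invFun hκ
  simp only [Function.Embedding.coeFn_mk, h2] at h1
  exact h1

theorem IsWuc.sum_abs {u : ℕ → E} (h : IsWuc u) (f : E →L[ℝ] ℝ) (A : Finset ℕ) :
    ∑ j ∈ A, |f (u j)| ≤ ‖f‖ := by
  have h1 := h A (fun j => if 0 ≤ f (u j) then 1 else -1) (fun j => by
    by_cases hj : 0 ≤ f (u j)
    · rw [if_pos hj]; simp
    · rw [if_neg hj]; simp)
  have h2 := f.le_of_opNorm_le le_rfl (∑ j ∈ A, (if 0 ≤ f (u j) then (1 : ℝ) else -1) • u j)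
  have h3 : f (∑ j ∈ A, (if 0 ≤ f (u j) then (1 : ℝ) else -1) • u j) = ∑ j ∈ A, |f (u j)| := by
    rw [map_sum]
    refine Finset.sum_congr rfl (fun j _ => ?_)
    rw [map_smul, smul_eq_mul]
    by_cases hj : 0 ≤ f (u j)
    · rw [if_pos hj, one_mul, abs_of_nonneg hj]
    · rw [if_neg hj, abs_of_neg (not_le.1 hj)]; ring
  rw [h3, Real.norm_eq_abs] at h2
  have h4 := mul_le_mul_of_nonneg_left h1 (norm_nonneg f)
  linarith [le_abs_self (∑ j ∈ A, |f (u j)|)]

theorem IsWuc.summable {u : ℕ → E} (h : IsWuc u) (f : E →L[ℝ] ℝ) :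
    Summable (fun j => |f (u j)|) :=
  summable_of_sum_le (fun _ => abs_nonneg _) (fun A => h.sum_abs f A)

theorem IsWuc.tail {u : ℕ → E} (h : IsWuc u) (f : E →L[ℝ] ℝ) {ε : ℝ} (hε : 0 < ε) :
    ∀ᶠ N in atTop, ∀ A : Finset ℕ, (∀ j ∈ A, N ≤ j) → ∑ j ∈ A, |f (u j)| ≤ ε := by
  obtain ⟨s, hs⟩ := summable_iff_vanishing_norm.1 (h.summable f) ε hε
  filter_upwards [eventually_ge_atTop (s.sup id + 1)] with N hN A hA
  have h1 := hs A (by
    rw [Finset.disjoint_left]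
    intro j hj hjs
    have h2 := hA j hj
    have h3 : id j ≤ s.sup id := Finset.le_sup hjs
    simp only [id] at h3
    omega)
  rw [Real.norm_eq_abs] at h1
  exact (le_abs_self _).trans h1.le

/-- Extraction of an almost biorthogonal system. -/
theorem IsPolyhedral.exists_system [CompleteSpace E] (hE : IsPolyhedral E)
    (hfd : ¬ FiniteDimensional ℝ E) :
    ∃ (w : ℕ → E) (χ : ℕ → (E →L[ℝ] ℝ)) (M : ℝ), IsWuc w ∧ (∀ i, ‖χ i‖ ≤ M) ∧
      (∀ v, Tendsto (fun i => χ i v) atTop (𝓝 0)) ∧ (∀ i, χ i (w i) = 1) ∧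
      ∀ i J, ∑ j ∈ (Finset.range J).erase i, |χ i (w j)| ≤ 1 / 4 := by
  classical
  obtain ⟨u₀, δ, hδ, hu₀, hw₀⟩ := hE.exists_wuc hfd
  choose f₀ hf₀ hf₀u using fun j => exists_norming (u₀ j)
  obtain ⟨κ, hκ, φ, hφ1, hφ⟩ := hE.exists_subseq f₀ hf₀
  set u : ℕ → E := fun j => u₀ (κ j) with hu
  have hw : IsWuc u := (IsWuc.of_range hw₀).comp hκ.injective
  set ψ : ℕ → (E →L[ℝ] ℝ) := fun j => f₀ (κ j) - φ with hψ
  have hψn : ∀ j, ‖ψ j‖ ≤ 2 := by
    intro j
    refine (norm_sub_le _ _).trans ?_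
    have := hf₀ (κ j)
    linarith
  have hψt : ∀ v, Tendsto (fun j => ψ j v) atTop (𝓝 0) := by
    intro v
    have h1 := (hφ v).sub_const (φ v)
    rw [sub_self] at h1
    exact h1
  have hφu : Tendsto (fun j => φ (u j)) atTop (𝓝 0) :=
    (tendsto_zero_iff_abs_tendsto_zero _).2 (hw.summable φ).tendsto_atTop_zero
  obtain ⟨j₀, hj₀⟩ := eventually_atTop.1 (hφu.eventually_lt_const (show 0 < δ / 2 by linarith))
  have hdiag : ∀ j, j₀ ≤ j → δ / 2 ≤ ψ j (u j) := by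
    intro j hj
    have h1 := hj₀ j hj
    have h2 : f₀ (κ j) (u j) = ‖u j‖ := hf₀u (κ j)
    have h3 : δ ≤ ‖u j‖ := hu₀ (κ j)
    show δ / 2 ≤ (f₀ (κ j) - φ) (u j)
    rw [sub_apply, h2]
    linarith
  have hN : ∀ n : ℕ, ∃ N, n < N ∧ (∀ m, N ≤ m → ∀ j ≤ n, |ψ m (u j)| ≤ δ / (16 * ((n : ℝ) + 1))) ∧
      ∀ A : Finset ℕ, (∀ j ∈ A, N ≤ j) → ∑ j ∈ A, |ψ n (u j)| ≤ δ / 16 := by
    intro n
    have h1 : ∀ᶠ m in atTop, ∀ j ∈ {j : ℕ | j ≤ n}, |ψ m (u j)| ≤ δ / (16 * ((n : ℝ) + 1)) := by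
      rw [(finite_le_nat n).eventually_all]
      intro j _
      have h2 : Tendsto (fun m => |ψ m (u j)|) atTop (𝓝 0) := by
        have := (hψt (u j)).abs
        rwa [abs_zero] at this
      exact (h2.eventually_lt_const (show 0 < δ / (16 * ((n : ℝ) + 1)) by positivity)).mono
        (fun m hm => hm.le)
    obtain ⟨N₁, hN₁⟩ := eventually_atTop.1 h1
    obtain ⟨N₂, hN₂⟩ := eventually_atTop.1 (hw.tail (ψ n) (show 0 < δ / 16 by linarith))
    refine ⟨max (n + 1) (max N₁ N₂), ?_, ?_, ?_⟩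
    · have := le_max_left (n + 1) (max N₁ N₂)
      omega
    · intro m hm
      exact hN₁ m ((le_max_left N₁ N₂).trans ((le_max_right _ _).trans hm))
    · intro A hA
      exact hN₂ (max (n + 1) (max N₁ N₂)) ((le_max_right N₁ N₂).trans (le_max_right _ _)) A hA
  choose N hN1 hN2 hN3 using hN
  obtain ⟨k, hk0, hk⟩ : ∃ k : ℕ → ℕ, k 0 = j₀ ∧ ∀ i, k (i + 1) = N (k i) :=
    ⟨fun i => Nat.rec j₀ (fun _ r => N r) i, rfl, fun _ => rfl⟩
  have hkmono : StrictMono k := strictMono_nat_of_lt_succ (fun i => by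
    rw [hk]; exact hN1 _)
  have hkj : ∀ i, j₀ ≤ k i := fun i => by
    rw [← hk0]
    exact hkmono.monotone (Nat.zero_le i)
  set d : ℕ → ℝ := fun i => ψ (k i) (u (k i)) with hd
  have hd0 : ∀ i, δ / 2 ≤ d i := fun i => hdiag _ (hkj i)
  have hdpos : ∀ i, 0 < d i := fun i => by have := hd0 i; linarith
  have hdinv : ∀ i, (d i)⁻¹ ≤ 2 / δ := by
    intro i
    rw [show (2 : ℝ) / δ = (δ / 2)⁻¹ by rw [inv_div]]
    exact inv_anti₀ (by linarith) (hd0 i)
  have hdinv0 : ∀ i, 0 < (d i)⁻¹ := fun i => inv_pos.2 (hdpos i)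
  refine ⟨fun i => u (k i), fun i => (d i)⁻¹ • ψ (k i), 2 / δ * 2, hw.comp hkmono.injective,
    ?_, ?_, ?_, ?_⟩
  · intro i
    rw [norm_smul, Real.norm_eq_abs, abs_of_pos (hdinv0 i)]
    exact mul_le_mul (hdinv i) (hψn _) (norm_nonneg _) (by positivity)
  · intro v
    have h1 : Tendsto (fun i => 2 / δ * |ψ (k i) v|) atTop (𝓝 (2 / δ * |0|)) :=
      (((hψt v).comp hkmono.tendsto_atTop).abs).const_mul _
    rw [abs_zero, mul_zero] at h1
    refine squeeze_zero_norm (fun i => ?_) h1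
    rw [smul_apply, smul_eq_mul, norm_mul, Real.norm_eq_abs, Real.norm_eq_abs,
      abs_of_pos (hdinv0 i)]
    exact mul_le_mul_of_nonneg_right (hdinv i) (abs_nonneg _)
  · intro i
    show ((d i)⁻¹ • ψ (k i)) (u (k i)) = 1
    rw [smul_apply, smul_eq_mul]
    exact inv_mul_cancel₀ (hdpos i).ne'
  · intro i J
    have hsub : (Finset.range J).erase i ⊆ Finset.range i ∪ Finset.Ico (i + 1) J := by
      intro j hj
      rw [Finset.mem_erase, Finset.mem_range] at hj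
      rw [Finset.mem_union, Finset.mem_range, Finset.mem_Ico]
      omega
    have h1 : ∑ j ∈ (Finset.range J).erase i, |((d i)⁻¹ • ψ (k i)) (u (k j))|
        ≤ ∑ j ∈ Finset.range i ∪ Finset.Ico (i + 1) J, |((d i)⁻¹ • ψ (k i)) (u (k j))| :=
      Finset.sum_le_sum_of_subset_of_nonneg hsub (fun _ _ _ => abs_nonneg _)
    have h2 : ∑ j ∈ Finset.range i ∪ Finset.Ico (i + 1) J, |((d i)⁻¹ • ψ (k i)) (u (k j))|
        = ∑ j ∈ Finset.range i, |((d i)⁻¹ • ψ (k i)) (u (k j))|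
          + ∑ j ∈ Finset.Ico (i + 1) J, |((d i)⁻¹ • ψ (k i)) (u (k j))| := by
      refine Finset.sum_union ?_
      rw [Finset.disjoint_left]
      intro j hj hj'
      rw [Finset.mem_range] at hj
      rw [Finset.mem_Ico] at hj'
      omega
    have hterm : ∀ j, |((d i)⁻¹ • ψ (k i)) (u (k j))| ≤ 2 / δ * |ψ (k i) (u (k j))| := by
      intro j
      rw [smul_apply, smul_eq_mul, abs_mul, abs_of_pos (hdinv0 i)]
      exact mul_le_mul_of_nonneg_right (hdinv i) (abs_nonneg _)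
    have hlow : ∑ j ∈ Finset.range i, |ψ (k i) (u (k j))| ≤ δ / 16 := by
      rcases Nat.eq_zero_or_pos i with rfl | hi
      · rw [Finset.sum_range_zero]; positivity
      · obtain ⟨i', rfl⟩ : ∃ i', i = i' + 1 := ⟨i - 1, by omega⟩
        have h3 : ∀ j ∈ Finset.range (i' + 1), |ψ (k (i' + 1)) (u (k j))|
            ≤ δ / (16 * ((k i' : ℝ) + 1)) := by
          intro j hj
          rw [Finset.mem_range] at hj
          exact hN2 (k i') (k (i' + 1)) (hk i').ge (k j) (hkmono.monotone (by omega))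
        refine (Finset.sum_le_card_nsmul _ _ _ h3).trans ?_
        rw [Finset.card_range, nsmul_eq_mul]
        have h4 : (i' : ℝ) ≤ (k i' : ℝ) := Nat.cast_le.2 (hkmono.id_le i')
        have h5 : (0 : ℝ) ≤ i' := Nat.cast_nonneg _
        rw [mul_div_assoc', div_le_div_iff₀ (by positivity) (by norm_num)]
        push_cast
        nlinarith
    have hhigh : ∑ j ∈ Finset.Ico (i + 1) J, |ψ (k i) (u (k j))| ≤ δ / 16 := by
      have h3 := hN3 (k i) ((Finset.Ico (i + 1) J).map ⟨k, hkmono.injective⟩) (by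
        intro j hj
        rw [Finset.mem_map] at hj
        obtain ⟨j', hj', rfl⟩ := hj
        rw [Finset.mem_Ico] at hj'
        rw [← hk]
        exact hkmono.monotone (show i + 1 ≤ j' by omega))
      rw [Finset.sum_map] at h3
      exact h3
    have h6 : ∑ j ∈ Finset.range i, |((d i)⁻¹ • ψ (k i)) (u (k j))| ≤ 2 / δ * (δ / 16) := by
      refine (Finset.sum_le_sum (fun j _ => hterm j)).trans ?_
      rw [← Finset.mul_sum]
      exact mul_le_mul_of_nonneg_left hlow (by positivity)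
    have h7 : ∑ j ∈ Finset.Ico (i + 1) J, |((d i)⁻¹ • ψ (k i)) (u (k j))| ≤ 2 / δ * (δ / 16) := by
      refine (Finset.sum_le_sum (fun j _ => hterm j)).trans ?_
      rw [← Finset.mul_sum]
      exact mul_le_mul_of_nonneg_left hhigh (by positivity)
    have h8 : 2 / δ * (δ / 16) = 1 / 8 := by field_simp; norm_num
    rw [h8] at h6 h7
    linarith

end Pool.Agent.Lib.MP_a60229_an
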