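import Mathlib

set_option autoImplicit false
universe u

namespace Pool.Agent.Lib.MP_a60229_an

open Metric Set Filter Topology

variable {E : Type u} [NormedAddCommGroup E] [NormedSpace ℝ E]

/-- A form of Simons' lemma. -/
theorem simons [CompleteSpace E] (X : ℕ → E) {M : ℝ} (hM : ∀ n, ‖X n‖ ≤ M)
    (F : Set (E →L[ℝ] ℝ)) (hF : ∀ f ∈ F, ‖f‖ ≤ 1)
    (hatt : ∀ Y ∈ closure (convexHull ℝ (range X)), ∃ f ∈ F, f Y = ‖Y‖) {a : ℝ}
    (ha : ∀ f ∈ F, ∀ᶠ n in atTop, f (X n) ≤ a) {τ : ℝ} (hτ : 0 < τ) :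
    ∃ Y ∈ convexHull ℝ (range X), ‖Y‖ < a + τ := by
  classical
  by_contra hcon
  push Not at hcon
  -- tails
  let C : ℕ → Set E := fun n => closure (convexHull ℝ (X '' Ici n))
  have hCconv : ∀ n, Convex ℝ (C n) := fun n => (convex_convexHull ℝ _).closure
  have hCcl : ∀ n, IsClosed (C n) := fun n => isClosed_closure
  have hCanti : ∀ n, C (n + 1) ⊆ C n := fun n =>
    closure_mono (convexHull_mono (Set.image_mono (Set.Ici_subset_Ici.2 (Nat.le_succ n))))
  have hXC : ∀ n, X n ∈ C n := fun n => subset_closure (subset_convexHull ℝ _ ⟨n, Set.self_mem_Ici, rfl⟩)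
  have hCM : ∀ n, ∀ Y ∈ C n, ‖Y‖ ≤ M := by
    intro n Y hY
    have h1 : C n ⊆ closedBall (0 : E) M := by
      refine closure_minimal (convexHull_min ?_ (convex_closedBall _ _)) isClosed_closedBall
      rintro _ ⟨k, _, rfl⟩
      exact mem_closedBall_zero_iff.2 (hM k)
    exact mem_closedBall_zero_iff.1 (h1 hY)
  have hC0 : C 0 = closure (convexHull ℝ (range X)) := by
    show closure (convexHull ℝ (X '' Ici 0)) = _
    have : (Ici 0 : Set ℕ) = univ := by ext; simp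
    rw [this, Set.image_univ]
  have hlow : ∀ Y ∈ C 0, a + τ ≤ ‖Y‖ := by
    rw [hC0]
    intro Y hY
    have hcl : IsClosed {Y : E | a + τ ≤ ‖Y‖} := isClosed_le continuous_const continuous_norm
    exact (closure_minimal (fun Z hZ => hcon Z hZ) hcl) hY
  let e : ℕ → ℝ := fun n => (1 / 2 : ℝ) ^ n
  have he0 : ∀ n, 0 < e n := fun n => by show 0 < (1 / 2 : ℝ) ^ n; positivity
  have hes : ∀ n, e (n + 1) = e n / 2 := fun n => by
    show (1 / 2 : ℝ) ^ (n + 1) = (1 / 2 : ℝ) ^ n / 2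
    rw [pow_succ]; ring
  -- near minimisers
  have hchoice : ∀ (n : ℕ) (z : E), ∃ y ∈ C n, ∀ Y ∈ C n,
      ‖z + e n • y‖ ≤ ‖z + e n • Y‖ + (e n) ^ 2 * τ / 4 := by
    intro n z
    have hη : 0 < (e n) ^ 2 * τ / 4 := by have := he0 n; positivity
    have hbdd : BddBelow ((fun Y => ‖z + e n • Y‖) '' C n) :=
      ⟨0, by rintro _ ⟨Y, _, rfl⟩; exact norm_nonneg _⟩
    obtain ⟨_, ⟨y, hy, rfl⟩, hlt⟩ := exists_lt_of_csInf_lt
      (show ((fun Y => ‖z + e n • Y‖) '' C n).Nonempty from ⟨_, X n, hXC n, rfl⟩)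
      (show sInf ((fun Y => ‖z + e n • Y‖) '' C n)
        < sInf ((fun Y => ‖z + e n • Y‖) '' C n) + (e n) ^ 2 * τ / 4 by linarith)
    refine ⟨y, hy, fun Y hY => ?_⟩
    have h1 := csInf_le hbdd ⟨Y, hY, rfl⟩
    have h2 : ‖z + e n • y‖ < sInf ((fun Y => ‖z + e n • Y‖) '' C n) + (e n) ^ 2 * τ / 4 := hlt
    have h3 : sInf ((fun Y => ‖z + e n • Y‖) '' C n) ≤ ‖z + e n • Y‖ := h1
    linarith
  choose y hyC hymin using hchoice
  let Z : ℕ → E := fun n => Nat.rec (0 : E) (fun n z => z + e (n + 1) • y n z) n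
  have hZ0 : Z 0 = 0 := rfl
  have hZs : ∀ n, Z (n + 1) = Z n + e (n + 1) • y n (Z n) := fun n => rfl
  set Y : ℕ → E := fun n => y n (Z n) with hY
  have hYC : ∀ n, Y n ∈ C n := fun n => hyC n _
  have hmid : ∀ n, ∀ W ∈ C (n + 1), Z (n + 1) + e (n + 1) • W
      = Z n + e n • ((1 / 2 : ℝ) • Y n + (1 / 2 : ℝ) • W) := by
    intro n W _
    rw [hZs, hes]
    show Z n + (e n / 2) • Y n + (e n / 2) • W = _
    module
  have hhalf : ∀ n, ∀ W ∈ C (n + 1), (1 / 2 : ℝ) • Y n + (1 / 2 : ℝ) • W ∈ C n := by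
    intro n W hW
    exact hCconv n (hYC n) (hCanti n hW) (by norm_num) (by norm_num) (by norm_num)
  -- representation of later points
  have hrep : ∀ n k, ∀ W ∈ C (n + k), ∃ V ∈ C n, Z (n + k) + e (n + k) • W = Z n + e n • V := by
    intro n k
    induction k with
    | zero => intro W hW; exact ⟨W, hW, rfl⟩
    | succ k ih =>
      intro W hW
      obtain ⟨V, hV, h⟩ := ih _ (hhalf (n + k) W hW)
      refine ⟨V, hV, ?_⟩
      rw [← h]
      exact hmid (n + k) W hW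
  have hM0 : 0 ≤ M := (norm_nonneg _).trans (hM 0)
  -- convergence
  have hcauchy : CauchySeq Z := by
    refine cauchySeq_of_le_geometric (1 / 2 : ℝ) M (by norm_num) (fun n => ?_)
    rw [dist_eq_norm, hZs, sub_add_cancel_left, norm_neg, norm_smul, Real.norm_eq_abs,
      abs_of_pos (he0 _)]
    have h1 := hCM n (Y n) (hYC n)
    have h2 : e (n + 1) ≤ (1 / 2 : ℝ) ^ n := by
      rw [hes]
      have := he0 n
      show (1 / 2 : ℝ) ^ n / 2 ≤ (1 / 2 : ℝ) ^ n
      have h3 : (0 : ℝ) < (1 / 2 : ℝ) ^ n := by positivity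
      linarith
    calc e (n + 1) * ‖Y n‖ ≤ (1 / 2 : ℝ) ^ n * M :=
          mul_le_mul h2 h1 (norm_nonneg _) (by positivity)
      _ = M * (1 / 2 : ℝ) ^ n := by ring
  obtain ⟨L, hL⟩ := cauchySeq_tendsto_of_complete hcauchy
  have hlim : ∀ n, ∃ W ∈ C n, L = Z n + e n • W := by
    intro n
    have hW : ∀ k, ∃ V ∈ C n, Z (n + k) + e (n + k) • Y (n + k) = Z n + e n • V :=
      fun k => hrep n k _ (hYC _)
    choose V hV1 hV2 using hW
    have htend : Tendsto (fun k => Z (n + k) + e (n + k) • Y (n + k)) atTop (𝓝 L) := by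
      have h1 : Tendsto (fun k => Z (n + k)) atTop (𝓝 L) := by
        have := hL.comp (tendsto_add_atTop_nat n)
        refine this.congr (fun k => ?_)
        rw [Function.comp_apply, add_comm]
      have h2 : Tendsto (fun k => e (n + k) • Y (n + k)) atTop (𝓝 0) := by
        refine squeeze_zero_norm (a := fun k => (1 / 2 : ℝ) ^ k * M) (fun k => ?_) ?_
        · rw [norm_smul, Real.norm_eq_abs, abs_of_pos (he0 _)]
          refine mul_le_mul ?_ (hCM _ _ (hYC _)) (norm_nonneg _) (by positivity)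
          exact pow_le_pow_of_le_one (by norm_num) (by norm_num) (by omega)
        · have := (tendsto_pow_atTop_nhds_zero_of_lt_one (show (0 : ℝ) ≤ 1 / 2 by norm_num)
            (by norm_num)).mul_const M
          simpa using this
      simpa using h1.add h2
    have hVt : Tendsto V atTop (𝓝 ((e n)⁻¹ • (L - Z n))) := by
      have h3 : ∀ k, V k = (e n)⁻¹ • ((Z (n + k) + e (n + k) • Y (n + k)) - Z n) := by
        intro k
        rw [hV2 k, add_sub_cancel_left, smul_smul, inv_mul_cancel₀ (he0 n).ne', one_smul]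
      have h4 := (htend.sub_const (Z n)).const_smul ((e n)⁻¹)
      exact h4.congr (fun k => (h3 k).symm)
    refine ⟨_, (hCcl n).mem_of_tendsto hVt (Eventually.of_forall hV1), ?_⟩
    rw [smul_smul, mul_inv_cancel₀ (he0 n).ne', one_smul]
    abel
  -- the growth estimate
  have hgrow : ∀ n, e n * (‖L‖ - τ / 2 * (1 - e n)) ≤ ‖L‖ - ‖Z n‖ := by
    intro n
    induction n with
    | zero =>
      rw [hZ0, norm_zero, sub_zero]
      show (1 / 2 : ℝ) ^ 0 * (‖L‖ - τ / 2 * (1 - (1 / 2 : ℝ) ^ 0)) ≤ ‖L‖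
      simp
    | succ n ih =>
      obtain ⟨W, hW, hLW⟩ := hlim n
      have h1 := hymin n (Z n) W hW
      rw [← hLW] at h1
      have h2 : Z (n + 1) = (1 / 2 : ℝ) • Z n + (1 / 2 : ℝ) • (Z n + e n • y n (Z n)) := by
        rw [hZs, hes]; module
      have h3 : ‖Z (n + 1)‖ ≤ 1 / 2 * ‖Z n‖ + 1 / 2 * ‖Z n + e n • y n (Z n)‖ := by
        rw [h2]
        refine (norm_add_le _ _).trans ?_
        rw [norm_smul, norm_smul, Real.norm_eq_abs, abs_of_pos (by norm_num : (0 : ℝ) < 1 / 2)]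
      rw [hes]
      have h4 := he0 n
      nlinarith
  obtain ⟨W₀, hW₀, hLW₀⟩ := hlim 0
  have hL0 : L ∈ C 0 := by
    rw [hLW₀, hZ0, zero_add]
    show (1 / 2 : ℝ) ^ 0 • W₀ ∈ C 0
    rw [pow_zero, one_smul]
    exact hW₀
  have hLlow := hlow L hL0
  obtain ⟨f, hfF, hfL⟩ := hatt L (by rw [← hC0]; exact hL0)
  obtain ⟨n, hn⟩ := eventually_atTop.1 (ha f hfF)
  obtain ⟨W, hW, hLW⟩ := hlim n
  have hfC : ∀ V ∈ C n, f V ≤ a := by
    have h1 : C n ⊆ {V : E | f V ≤ a} := by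
      refine closure_minimal (convexHull_min ?_ ?_) (isClosed_le f.continuous continuous_const)
      · rintro _ ⟨k, hk, rfl⟩
        exact hn k hk
      · exact convex_halfSpace_le (f : E →ₗ[ℝ] ℝ).isLinear a
    exact fun V hV => h1 hV
  have h1 : f L = f (Z n) + e n * f W := by
    rw [hLW, map_add, map_smul, smul_eq_mul]
  have h2 : f (Z n) ≤ ‖Z n‖ := by
    have h := f.le_of_opNorm_le (hF f hfF) (Z n)
    rw [one_mul] at h
    exact (le_abs_self _).trans h
  have h3 := hgrow n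
  have h4 := hfC W hW
  have h5 := he0 n
  have h6 : e n * f W ≤ e n * a := mul_le_mul_of_nonneg_left h4 h5.le
  have h7 : e n * (‖L‖ - τ / 2 * (1 - e n)) ≤ e n * a := by linarith
  have h8 := le_of_mul_le_mul_left h7 h5
  nlinarith [mul_pos hτ h5]

end Pool.Agent.Lib.MP_a60229_an
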