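import Pool.Agent.Lib.MP_a60229_an.PolyDense
import Pool.Agent.Lib.MP_a60229_an.Simons
import Pool.Agent.Lib.MP_a60229_an.Density

set_option autoImplicit false
universe u

namespace Pool.Agent.Lib.MP_a60229_an

open Metric Set Filter Topology

variable {E : Type u} [NormedAddCommGroup E] [NormedSpace ℝ E]

theorem StrictN.smul {f : E →L[ℝ] ℝ} {z : E} (h : StrictN f z) {t : ℝ} (ht : 0 < t) :
    StrictN f (t • z) := by
  obtain ⟨ρ, hρ, hloc⟩ := h
  refine ⟨t * ρ, by positivity, fun w hw => ?_⟩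
  have h1 : ‖t⁻¹ • w - z‖ < ρ := by
    have : t⁻¹ • w - z = t⁻¹ • (w - t • z) := by
      rw [smul_sub, smul_smul, inv_mul_cancel₀ ht.ne', one_smul]
    rw [this, norm_smul, norm_inv, Real.norm_eq_abs, abs_of_pos ht, inv_mul_lt_iff₀ ht]
    exact hw
  have h2 := hloc _ h1
  rw [norm_smul, norm_inv, Real.norm_eq_abs, abs_of_pos ht, map_smul, smul_eq_mul] at h2
  exact mul_left_cancel₀ (inv_ne_zero ht.ne') h2

theorem StrictN.norm_le {f : E →L[ℝ] ℝ} {z : E} (h : StrictN f z) : ‖f‖ ≤ 1 := by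
  obtain ⟨ρ, hρ, hloc⟩ := h
  have hz : ‖z‖ = f z := hloc z (by rw [sub_self, norm_zero]; exact hρ)
  have hsmall : ∀ v : E, ‖v‖ < ρ → f v ≤ ‖v‖ := by
    intro v hv
    have h1 := hloc (z + v) (by rwa [add_sub_cancel_left])
    rw [map_add] at h1
    have h2 := norm_add_le z v
    linarith
  refine ContinuousLinearMap.opNorm_le_bound _ zero_le_one (fun v => ?_)
  have key : ∀ v : E, f v ≤ ‖v‖ := by
    intro v
    have hn := norm_nonneg v
    have hpos : 0 < ρ / (2 * (‖v‖ + 1)) := by positivity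
    have h1 := hsmall ((ρ / (2 * (‖v‖ + 1))) • v) (by
      rw [norm_smul, Real.norm_eq_abs, abs_of_pos hpos, div_mul_eq_mul_div,
        div_lt_iff₀ (by positivity)]
      nlinarith)
    rw [map_smul, norm_smul, Real.norm_eq_abs, abs_of_pos hpos, smul_eq_mul] at h1
    exact le_of_mul_le_mul_left h1 hpos
  rw [Real.norm_eq_abs, one_mul, abs_le]
  constructor
  · have := key (-v)
    rw [map_neg, norm_neg] at this
    linarith
  · exact key v

/-- Functionals which agree with the norm near some point of the slice given by `g`, `ε`. -/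
def SliceF (g : E →L[ℝ] ℝ) (ε : ℝ) : Set (E →L[ℝ] ℝ) :=
  {f | ∃ z : E, ‖z‖ = 1 ∧ StrictN f z ∧ 1 - ε < g z}

/-- A vector annihilated by finitely many functionals on which `h` is large. -/
theorem exists_annih {A : Set (E →L[ℝ] ℝ)} (hA : A.Finite) {h : E →L[ℝ] ℝ}
    (hd : ∀ φ ∈ Submodule.span ℝ A, 1 / 2 ≤ ‖h - φ‖) :
    ∃ u : E, ‖u‖ ≤ 1 ∧ (∀ a ∈ A, a u = 0) ∧ 1 / 4 ≤ h u := by
  set N : Submodule ℝ E := ⨅ f : A, LinearMap.ker (((f : E →L[ℝ] ℝ)) : E →ₗ[ℝ] ℝ) with hN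
  have hNmem : ∀ v, v ∈ N ↔ ∀ f ∈ A, f v = 0 := by
    intro v
    rw [hN, Submodule.mem_iInf]
    constructor
    · intro hv f hf
      exact hv ⟨f, hf⟩
    · rintro hv ⟨f, hf⟩
      exact hv f hf
  obtain ⟨φ, hφ1, hφ2⟩ := exists_extension_norm_eq N (h.comp N.subtypeL)
  have hspan : h - φ ∈ Submodule.span ℝ A := by
    apply mem_span_of_forall_zero hA
    intro v hv
    have h1 := hφ1 ⟨v, (hNmem v).2 hv⟩
    rw [ContinuousLinearMap.comp_apply] at h1
    rw [sub_apply]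
    simp only [Submodule.subtypeL_apply] at h1
    rw [h1, sub_self]
  have h1 := hd _ hspan
  rw [sub_sub_cancel, hφ2] at h1
  obtain ⟨v, hv1, hv2⟩ := exists_near_norm (h.comp N.subtypeL) (δ := 1 / 4) (by norm_num)
  refine ⟨v, hv1, (hNmem v).1 v.2, ?_⟩
  rw [ContinuousLinearMap.comp_apply, Submodule.subtypeL_apply] at hv2
  linarith

/-- In a polyhedral Banach space, each slice of the ball contains strict points whose functionals
are uniformly far from a given proper closed subspace of the dual. -/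
theorem IsPolyhedral.exists_far [CompleteSpace E] (hE : IsPolyhedral E) {g : E →L[ℝ] ℝ}
    (hg : ‖g‖ = 1) {ε : ℝ} (hε : 0 < ε) (hε1 : ε ≤ 1) (Z : Submodule ℝ (E →L[ℝ] ℝ))
    (hZ : IsClosed (Z : Set (E →L[ℝ] ℝ))) (hZne : ∃ h, h ∉ Z) (hgZ : g ∈ Z) :
    ∃ f ∈ SliceF g ε, ∀ ζ ∈ Z, ε / 128 ≤ ‖f - ζ‖ := by
  classical
  by_contra hcon
  push Not at hcon
  -- a unit functional far from `Z`
  obtain ⟨h₀, hh₀, hR⟩ := riesz_lemma hZ hZne (r := 1 / 2) (by norm_num)
  have hh₀0 : h₀ ≠ 0 := by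
    rintro rfl
    exact hh₀ Z.zero_mem
  have hn0 : 0 < ‖h₀‖ := norm_pos_iff.2 hh₀0
  set h : E →L[ℝ] ℝ := ‖h₀‖⁻¹ • h₀ with hh
  have hhn : ‖h‖ = 1 := by
    rw [hh, norm_smul, norm_inv, norm_norm, inv_mul_cancel₀ hn0.ne']
  have hhd : ∀ ζ ∈ Z, 1 / 2 ≤ ‖h - ζ‖ := by
    intro ζ hζ
    have h1 := hR (‖h₀‖ • ζ) (Z.smul_mem _ hζ)
    have h2 : h - ζ = ‖h₀‖⁻¹ • (h₀ - ‖h₀‖ • ζ) := by
      rw [hh, smul_sub, smul_smul, inv_mul_cancel₀ hn0.ne', one_smul]
    rw [h2, norm_smul, norm_inv, norm_norm, le_inv_mul_iff₀ hn0]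
    linarith
  set s : ℝ := ε / 8 with hs
  have hs0 : 0 < s := by positivity
  set ψ : E →L[ℝ] ℝ := g + s • h with hψ
  have hψle : ‖ψ‖ ≤ 1 + s := by
    rw [hψ]
    refine (norm_add_le _ _).trans ?_
    rw [norm_smul, hg, hhn, Real.norm_eq_abs, abs_of_pos hs0, mul_one]
  have hψge : 1 - s ≤ ‖ψ‖ := by
    have h1 : g = ψ - s • h := by rw [hψ]; abel
    have h2 : ‖g‖ ≤ ‖ψ‖ + ‖s • h‖ := by
      calc ‖g‖ = ‖ψ - s • h‖ := by rw [← h1]
        _ ≤ _ := norm_sub_le _ _
    rw [hg, norm_smul, hhn, Real.norm_eq_abs, abs_of_pos hs0, mul_one] at h2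
    linarith
  obtain ⟨x, hx1, hxψ⟩ := exists_near_norm ψ (δ := ε ^ 2 / 4096) (by positivity)
  have hhx : h x ≤ 1 := (apply_le_norm hhn.le x).trans hx1
  have hgx : 1 - 2 * s - ε ^ 2 / 4096 < g x := by
    have h1 : ψ x = g x + s * h x := by rw [hψ, add_apply, smul_apply, smul_eq_mul]
    nlinarith
  have hεsq : ε ^ 2 ≤ ε := by nlinarith
  have hgx2 : (1 - ε) * (1 + s) < g x := by
    rw [hs] at hgx ⊢
    nlinarith
  -- strict points near given points
  have hp : ∀ (y : E) (n : ℕ), ∃ z : E, ‖z - y‖ < 1 / ((n : ℝ) + 1) ∧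
      ∃ f : E →L[ℝ] ℝ, StrictN f z := fun y n => hE.dense_strict y (by positivity)
  choose p hp1 hp2 using hp
  -- the functional of a strict point, and its approximation in `Z`
  let fq : E → (E →L[ℝ] ℝ) := fun q =>
    if hq : ∃ f : E →L[ℝ] ℝ, StrictN f q then hq.choose else 0
  have hfq : ∀ q, (∃ f : E →L[ℝ] ℝ, StrictN f q) → StrictN (fq q) q := by
    intro q hq
    show StrictN (if hq : ∃ f : E →L[ℝ] ℝ, StrictN f q then hq.choose else 0) q
    rw [dif_pos hq]
    exact hq.choose_spec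
  have hζex : ∀ q : E, ∃ ζ ∈ Z, fq q ∈ SliceF g ε → ‖fq q - ζ‖ < ε / 128 := by
    intro q
    by_cases hq : fq q ∈ SliceF g ε
    · obtain ⟨ζ, hζ, hlt⟩ := hcon _ hq
      exact ⟨ζ, hζ, fun _ => hlt⟩
    · exact ⟨0, Z.zero_mem, fun hq' => absurd hq' hq⟩
  choose ζ hζZ hζ using hζex
  -- annihilated vectors
  have huex : ∀ t : Finset E, ∃ u : E, ‖u‖ ≤ 1 ∧ g u = 0 ∧ (∀ q ∈ t, ζ q u = 0) ∧
      1 / 4 ≤ h u := by
    intro t
    have hfin : (insert g (ζ '' (t : Set E))).Finite := (t.finite_toSet.image ζ).insert g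
    obtain ⟨u, hu1, hu2, hu3⟩ := exists_annih hfin (h := h) (fun φ hφ => hhd φ (by
      refine (Submodule.span_le.2 ?_) hφ
      rintro a (rfl | ⟨q, _, rfl⟩)
      · exact hgZ
      · exact hζZ q))
    exact ⟨u, hu1, hu2 g (Set.mem_insert _ _), fun q hq =>
      hu2 _ (Set.mem_insert_of_mem _ ⟨q, hq, rfl⟩), hu3⟩
  choose u hu1 hug huζ huh using huex
  obtain ⟨C, hCc, hC₀, hCcl⟩ := exists_countable_closed
    (fun t : Finset E => (⋃ a ∈ t, ⋃ b ∈ t, range (fun q : ℚ => a + (q : ℝ) • b)) ∪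
      ((⋃ a ∈ t, range (p a)) ∪ {u t})) (fun t => by
        refine Set.Countable.union ?_ (Set.Countable.union ?_ (Set.countable_singleton _))
        · exact t.countable_toSet.biUnion (fun a _ => t.countable_toSet.biUnion (fun b _ =>
            Set.countable_range _))
        · exact t.countable_toSet.biUnion (fun a _ => Set.countable_range _))
    {x} (Set.countable_singleton _)
  have hxC : x ∈ C := hC₀ rfl
  have hrat : ∀ a ∈ C, ∀ b ∈ C, ∀ q : ℚ, a + (q : ℝ) • b ∈ C := by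
    intro a ha b hb q
    refine hCcl {a, b} (by
      rw [Finset.coe_insert, Finset.coe_singleton, Set.insert_subset_iff,
        Set.singleton_subset_iff]
      exact ⟨ha, hb⟩) (Or.inl ?_)
    refine Set.mem_biUnion (x := a) (by simp) (Set.mem_biUnion (x := b) (by simp) ⟨q, rfl⟩)
  have hpC : ∀ a ∈ C, ∀ n, p a n ∈ C := by
    intro a ha n
    refine hCcl {a} (by rw [Finset.coe_singleton, Set.singleton_subset_iff]; exact ha)
      (Or.inr (Or.inl ?_))
    exact Set.mem_biUnion (x := a) (by simp) ⟨n, rfl⟩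
  have huC : ∀ t : Finset E, (t : Set E) ⊆ C → u t ∈ C := fun t ht =>
    hCcl t ht (Or.inr (Or.inr rfl))
  set S : Submodule ℝ E := (Submodule.span ℝ C).topologicalClosure with hS
  have hSc : IsClosed (S : Set E) := Submodule.isClosed_topologicalClosure _
  have hCS : C ⊆ S := fun c hc => Submodule.le_topologicalClosure _ (Submodule.subset_span hc)
  have hd := dense_of_rat ⟨x, hxC⟩ hrat
  -- strict points of `C`
  set P : Set E := {q | q ∈ C ∧ ∃ f : E →L[ℝ] ℝ, StrictN f q} with hP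
  have hPd : ∀ y ∈ S, ∀ δ : ℝ, 0 < δ → ∃ q ∈ P, ‖q - y‖ < δ := by
    intro y hy δ hδ
    obtain ⟨c, hcC, hc⟩ := hd y hy (δ / 2) (by linarith)
    obtain ⟨n, hn⟩ := exists_nat_one_div_lt (show 0 < δ / 2 by linarith)
    refine ⟨p c n, ⟨hpC c hcC n, hp2 c n⟩, ?_⟩
    have : p c n - y = (p c n - c) + (c - y) := by abel
    rw [this]
    refine lt_of_le_of_lt (norm_add_le _ _) ?_
    have := hp1 c n
    linarith
  -- the boundary in the slice
  have hbd : ∀ Y ∈ S, (1 - ε) * ‖Y‖ < g Y → ∃ q ∈ C, fq q Y = ‖Y‖ ∧ fq q ∈ SliceF g ε := by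
    intro Y hY hYg
    have hcont : Continuous (fun q : E => g q - (1 - ε) * ‖q‖) := by fun_prop
    have hev : ∀ᶠ q in 𝓝 Y, 0 < g q - (1 - ε) * ‖q‖ :=
      hcont.continuousAt.eventually_const_lt (by linarith)
    obtain ⟨δ, hδ, hball⟩ := Metric.eventually_nhds_iff.1 hev
    obtain ⟨q, hqP, hq1, hq2⟩ := hE.boundary S hSc P (fun q hq => hCS hq.1) fq
      (fun q hq => hfq q hq.2) hPd hY hδ
    have hqg := hball (y := q) (by rw [dist_eq_norm]; exact hq1)
    have hq0 : q ≠ 0 := by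
      rintro rfl
      rw [map_zero, norm_zero, mul_zero, sub_zero] at hqg
      exact lt_irrefl _ hqg
    have hqn : 0 < ‖q‖ := norm_pos_iff.2 hq0
    refine ⟨q, hqP.1, hq2, ‖q‖⁻¹ • q, ?_, (hfq q hqP.2).smul (inv_pos.2 hqn), ?_⟩
    · rw [norm_smul, norm_inv, norm_norm, inv_mul_cancel₀ hqn.ne']
    · rw [map_smul, smul_eq_mul, inv_mul_eq_div, lt_div_iff₀ hqn]
      linarith
  -- the sequence
  obtain ⟨e, he⟩ := hCc.exists_eq_range ⟨x, hxC⟩
  have heC : ∀ j, e j ∈ C := fun j => by rw [he]; exact ⟨j, rfl⟩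
  let U : ℕ → E := fun i => u ((Finset.range (i + 1)).image e)
  have hUC : ∀ i, U i ∈ C := fun i => huC _ (by
    intro q hq
    rw [Finset.coe_image] at hq
    obtain ⟨j, _, rfl⟩ := hq
    exact heC j)
  let X : ℕ → E := fun i => x + s • U i
  have hUn : ∀ i, ‖U i‖ ≤ 1 := fun i => hu1 _
  have hXn : ∀ i, ‖X i‖ ≤ 1 + s := by
    intro i
    refine (norm_add_le _ _).trans ?_
    rw [norm_smul, Real.norm_eq_abs, abs_of_pos hs0]
    have := mul_le_mul_of_nonneg_left (hUn i) hs0.le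
    linarith
  have hXS : ∀ i, X i ∈ S := fun i => S.add_mem (hCS hxC) (S.smul_mem _ (hCS (hUC i)))
  have hXg : ∀ i, g (X i) = g x := by
    intro i
    show g (x + s • U i) = g x
    rw [map_add, map_smul]
    have : g (U i) = 0 := hug _
    rw [this, smul_zero, add_zero]
  have hcl : ∀ Y ∈ closure (convexHull ℝ (range X)), Y ∈ S ∧ g Y = g x ∧ ‖Y‖ ≤ 1 + s := by
    intro Y hY
    refine ⟨?_, ?_, ?_⟩
    · have h1 : closure (convexHull ℝ (range X)) ⊆ (S : Set E) :=
        closure_minimal (convexHull_min (by rintro _ ⟨i, rfl⟩; exact hXS i) S.convex) hSc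
      exact h1 hY
    · have h1 : closure (convexHull ℝ (range X)) ⊆ {Y : E | g Y = g x} := by
        refine closure_minimal (convexHull_min ?_ ?_) (isClosed_eq g.continuous continuous_const)
        · rintro _ ⟨i, rfl⟩; exact hXg i
        · exact convex_hyperplane (f := fun Y => g Y) (g : E →ₗ[ℝ] ℝ).isLinear (g x)
      exact h1 hY
    · have h1 : closure (convexHull ℝ (range X)) ⊆ closedBall (0 : E) (1 + s) := by
        refine closure_minimal (convexHull_min ?_ (convex_closedBall _ _)) isClosed_closedBall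
        rintro _ ⟨i, rfl⟩; exact mem_closedBall_zero_iff.2 (hXn i)
      exact mem_closedBall_zero_iff.1 (h1 hY)
  obtain ⟨Y, hYconv, hYlt⟩ := simons X hXn
    {f | ∃ q ∈ C, f = fq q ∧ (∃ f', StrictN f' q) ∧ fq q ∈ SliceF g ε} (by
      rintro f ⟨q, _, rfl, hq, _⟩
      exact (hfq q hq).norm_le) (by
      intro Y hY
      obtain ⟨hYS, hYg, hYn⟩ := hcl Y hY
      obtain ⟨q, hqC, hq1, hq2⟩ := hbd Y hYS (by
        rw [hYg]
        have h1 : 0 ≤ 1 - ε := by linarith
        have := mul_le_mul_of_nonneg_left hYn h1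
        linarith)
      refine ⟨fq q, ⟨q, hqC, rfl, ?_, hq2⟩, hq1⟩
      by_contra hno
      have : fq q = 0 := by
        show (if hq : ∃ f : E →L[ℝ] ℝ, StrictN f q then hq.choose else 0) = 0
        rw [dif_neg hno]
      -- the zero functional cannot be in the slice family
      obtain ⟨z, hz1, hz2, _⟩ := hq2
      obtain ⟨ρ, hρ, hloc⟩ := hz2
      have h1 := hloc z (by rw [sub_self, norm_zero]; exact hρ)
      rw [this, hz1, zero_apply] at h1
      exact one_ne_zero h1)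
    (a := 1 + s * (ε / 128)) (by
      rintro f ⟨q, hqC, rfl, hq, hqs⟩
      rw [he] at hqC
      obtain ⟨j, rfl⟩ := hqC
      filter_upwards [eventually_ge_atTop j] with i hi
      have hmem : e j ∈ (Finset.range (i + 1)).image e :=
        Finset.mem_image.2 ⟨j, Finset.mem_range.2 (by omega), rfl⟩
      have h0 : ζ (e j) (U i) = 0 := huζ _ (e j) hmem
      have h1 : fq (e j) (U i) ≤ ε / 128 := by
        have h2 : fq (e j) (U i) = (fq (e j) - ζ (e j)) (U i) := by
          rw [sub_apply, h0, sub_zero]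
        rw [h2]
        have h3 := (fq (e j) - ζ (e j)).le_of_opNorm_le (hζ (e j) hqs).le (U i)
        rw [Real.norm_eq_abs] at h3
        have h4 : ε / 128 * ‖U i‖ ≤ ε / 128 * 1 :=
          mul_le_mul_of_nonneg_left (hUn i) (by positivity)
        linarith [le_abs_self ((fq (e j) - ζ (e j)) (U i))]
      show fq (e j) (x + s • U i) ≤ _
      rw [map_add, map_smul, smul_eq_mul]
      have h5 := (apply_le_norm (hfq _ hq).norm_le x).trans hx1
      have h6 := mul_le_mul_of_nonneg_left h1 hs0.le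
      linarith) (τ := ε ^ 2 / 4096) (by positivity)
  have hYψ : ψ x + s * (s / 4) ≤ ψ Y := by
    have h1 : convexHull ℝ (range X) ⊆ {V : E | ψ x + s * (s / 4) ≤ ψ V} := by
      refine convexHull_min ?_ ?_
      · rintro _ ⟨i, rfl⟩
        show ψ x + s * (s / 4) ≤ ψ (x + s • U i)
        have h2 : ψ (U i) = s * h (U i) := by
          rw [hψ, add_apply, smul_apply, smul_eq_mul]
          have : g (U i) = 0 := hug _
          rw [this, zero_add]
        have h3 : 1 / 4 ≤ h (U i) := huh _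
        rw [map_add, map_smul, smul_eq_mul, h2]
        have h4 := mul_le_mul_of_nonneg_left h3 hs0.le
        have h5 := mul_le_mul_of_nonneg_left h4 hs0.le
        linarith
      · exact convex_halfSpace_ge (ψ : E →ₗ[ℝ] ℝ).isLinear _
    exact h1 hYconv
  have hψY : ψ Y ≤ ‖ψ‖ * ‖Y‖ := by
    have h1 := ψ.le_of_opNorm_le le_rfl Y
    rw [Real.norm_eq_abs] at h1
    exact (le_abs_self _).trans h1
  have hfin : ‖ψ‖ * ‖Y‖ ≤ ‖ψ‖ * (1 + s * (ε / 128) + ε ^ 2 / 4096) :=
    mul_le_mul_of_nonneg_left hYlt.le (norm_nonneg _)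
  have hψ2 : ‖ψ‖ ≤ 2 := by rw [hs] at hψle; linarith
  have hlast : ‖ψ‖ * (s * (ε / 128) + ε ^ 2 / 4096) ≤ 2 * (s * (ε / 128) + ε ^ 2 / 4096) :=
    mul_le_mul_of_nonneg_right hψ2 (by positivity)
  have hε2 : 0 < ε ^ 2 := by positivity
  rw [hs] at hYψ hfin hlast
  nlinarith

end Pool.Agent.Lib.MP_a60229_an
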