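import Pool.Agent.Lib.MP_a60229_an.SumC

set_option autoImplicit false
universe u

namespace Pool.Agent.Lib.MP_a60229_an

open Metric Set Filter Topology Cardinal

variable {E : Type u} [NormedAddCommGroup E] [NormedSpace ℝ E]

/-- At each scale there is a uniformly separated family of strict functionals whose points meet
all slices. -/
theorem IsPolyhedral.exists_family [CompleteSpace E] (hE : IsPolyhedral E)
    (hfd : ¬ FiniteDimensional ℝ E) {ε : ℝ} (hε : 0 < ε) (hε1 : ε ≤ 1) :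
    ∃ (ι : Type u) (c : ι → (E →L[ℝ] ℝ)) (z : ι → E) (r : ℝ), (∀ i, ‖z i‖ = 1) ∧
      (∀ i, StrictN (c i) (z i)) ∧ 0 < r ∧
      (∀ i j, i ≠ j → r ≤ ‖c i - c j‖ ∧ r ≤ ‖c i + c j‖) ∧
      ∀ g : E →L[ℝ] ℝ, ‖g‖ ≤ 1 → ∃ i, ‖g‖ - ε < g (z i) := by
  classical
  obtain ⟨D, hD, hsmall⟩ := exists_minimal_dense hfd
  set ε₁ : ℝ := ε / 2 with hε₁
  let ι : Type u := {d : E →L[ℝ] ℝ // d ∈ D ∧ d ≠ 0}
  let G : ι → (E →L[ℝ] ℝ) := fun i => ‖(i : E →L[ℝ] ℝ)‖⁻¹ • (i : E →L[ℝ] ℝ)
  have hG : ∀ i, ‖G i‖ = 1 := by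
    intro i
    show ‖‖(i : E →L[ℝ] ℝ)‖⁻¹ • (i : E →L[ℝ] ℝ)‖ = 1
    rw [norm_smul, norm_inv, norm_norm, inv_mul_cancel₀ (norm_ne_zero_iff.2 i.2.2)]
  have hι : #ι ≤ #D := mk_subtype_mono (fun d hd => hd.1)
  obtain ⟨lo, c, hc⟩ := rec_select
    (fun (i : ι) (A : Set (E →L[ℝ] ℝ)) (a : E →L[ℝ] ℝ) =>
      a ∈ SliceF (G i) ε₁ ∧ ∀ ζ ∈ Submodule.span ℝ A, ε₁ / 128 ≤ ‖a - ζ‖)
    (fun i A hA => by
      have hne := hsmall A (hA.trans_le hι) (G i)
      obtain ⟨a, ha1, ha2⟩ := hE.exists_far (hG i) (ε := ε₁) (by positivity) (by linarith)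
        (Submodule.span ℝ (insert (G i) A)).topologicalClosure
        (Submodule.isClosed_topologicalClosure _) hne
        (Submodule.le_topologicalClosure _ (Submodule.subset_span (Set.mem_insert _ _)))
      refine ⟨a, ha1, fun ζ hζ => ha2 ζ ?_⟩
      exact Submodule.le_topologicalClosure _
        (Submodule.span_mono (Set.subset_insert _ _) hζ))
  have hcS := fun i => (hc i).1
  choose z hz1 hz2 hz3 using hcS
  have hsep1 : ∀ i j, j < i → ε₁ / 128 ≤ ‖c i - c j‖ ∧ ε₁ / 128 ≤ ‖c i + c j‖ := by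
    intro i j hji
    have hmem : c j ∈ Submodule.span ℝ (c '' Iio i) := Submodule.subset_span ⟨j, hji, rfl⟩
    refine ⟨(hc i).2 _ hmem, ?_⟩
    have := (hc i).2 _ (Submodule.neg_mem _ hmem)
    rwa [sub_neg_eq_add] at this
  have hsep : ∀ i j, i ≠ j → ε₁ / 128 ≤ ‖c i - c j‖ ∧ ε₁ / 128 ≤ ‖c i + c j‖ := by
    intro i j hij
    rcases lt_or_gt_of_ne hij with h | h
    · have := hsep1 j i h
      rw [norm_sub_rev, add_comm] at this
      exact this
    · exact hsep1 i j h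
  have hreach : ∀ g : E →L[ℝ] ℝ, ‖g‖ = 1 → ∃ i, 1 - ε < g (z i) := by
    intro g hg
    obtain ⟨d, hdD, hd0, hd⟩ := exists_near_unit hD hg (θ := ε / 8) (by positivity) (by linarith)
    set i : ι := ⟨d, hdD, hd0⟩ with hi
    refine ⟨i, ?_⟩
    have h1 : 1 - ε₁ < G i (z i) := hz3 i
    have h2 : |(g - G i) (z i)| < 2 * (ε / 8) := by
      have := (g - G i).le_of_opNorm_le le_rfl (z i)
      rw [hz1 i, mul_one, Real.norm_eq_abs] at this
      exact lt_of_le_of_lt this hd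
    rw [sub_apply] at h2
    have h3 := (abs_lt.1 h2).1
    rw [hε₁] at h1
    linarith
  refine ⟨ι, c, z, ε₁ / 128, hz1, hz2, by positivity, hsep, fun g hg => ?_⟩
  rcases eq_or_ne g 0 with rfl | hg0
  · have hnt : ∃ x : E, x ≠ 0 := by
      by_contra hcon
      push Not at hcon
      apply hfd
      have : Subsingleton E := ⟨fun a b => by rw [hcon a, hcon b]⟩
      infer_instance
    obtain ⟨x₁, hx₁⟩ := hnt
    obtain ⟨g₁, hg₁, _⟩ := exists_dual_vector ℝ x₁ (norm_ne_zero_iff.2 hx₁)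
    obtain ⟨i, _⟩ := hreach g₁ hg₁
    refine ⟨i, ?_⟩
    rw [norm_zero, zero_apply]
    linarith
  · have hn : 0 < ‖g‖ := norm_pos_iff.2 hg0
    obtain ⟨i, hi⟩ := hreach (‖g‖⁻¹ • g) (by
      rw [norm_smul, norm_inv, norm_norm, inv_mul_cancel₀ hn.ne'])
    refine ⟨i, ?_⟩
    rw [smul_apply, smul_eq_mul, inv_mul_eq_div, lt_div_iff₀ hn] at hi
    nlinarith

/-- Replacing one coordinate of a null sequence. -/
noncomputable def CNull.put (a : CNull) (k : ℕ) (s : ℝ) : CNull := a + (s - a k) • CNull.unit k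

theorem CNull.put_self (a : CNull) (k : ℕ) (s : ℝ) : CNull.put a k s k = s := by
  show a k + (s - a k) * CNull.unit k k = s
  rw [CNull.unit_self]
  ring

theorem CNull.put_ne (a : CNull) {k j : ℕ} (s : ℝ) (h : j ≠ k) : CNull.put a k s j = a j := by
  show a j + (s - a k) * CNull.unit k j = a j
  rw [CNull.unit_ne h]
  ring

theorem CNull.norm_put {a : CNull} {k : ℕ} {s : ℝ} (h : ‖a‖ < s) : ‖CNull.put a k s‖ = s := by
  have hs : 0 < s := (norm_nonneg a).trans_lt h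
  refine le_antisymm ((CNull.norm_le_iff hs.le).2 (fun j => ?_)) ?_
  · by_cases hj : j = k
    · subst hj
      rw [CNull.put_self, abs_of_pos hs]
    · rw [CNull.put_ne a s hj]
      exact (CNull.abs_le_norm a j).trans h.le
  · have h1 := CNull.abs_le_norm (CNull.put a k s) k
    rw [CNull.put_self, abs_of_pos hs] at h1
    exact h1

/-- Near such a point the norm is given by the distinguished coordinate. -/
theorem CNull.strictN_put {a : CNull} {k : ℕ} {s : ℝ} (h : ‖a‖ < s) :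
    StrictN (CNull.coord k) (CNull.put a k s) := by
  refine ⟨(s - ‖a‖) / 2, by linarith, fun b hb => ?_⟩
  rw [CNull.coord_apply]
  have hn := norm_nonneg a
  have hdiff : ∀ j, |b j - CNull.put a k s j| < (s - ‖a‖) / 2 := fun j =>
    lt_of_le_of_lt (CNull.abs_le_norm (b - CNull.put a k s) j) hb
  have hk := abs_lt.1 (hdiff k)
  rw [CNull.put_self] at hk
  have hbk : 0 < b k := by linarith [hk.1]
  refine le_antisymm ((CNull.norm_le_iff hbk.le).2 (fun j => ?_)) ?_
  · by_cases hj : j = k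
    · subst hj
      rw [abs_of_pos hbk]
    · have h1 := hdiff j
      rw [CNull.put_ne a s hj] at h1
      have h2 := CNull.abs_le_norm a j
      have h3 : |b j| ≤ |b j - a j| + |a j| := by
        have : b j = (b j - a j) + a j := by ring
        calc |b j| = |(b j - a j) + a j| := by rw [← this]
          _ ≤ _ := abs_add_le _ _
      linarith [hk.1]
  · have h1 := CNull.abs_le_norm b k
    rwa [abs_of_pos hbk] at h1

/-- Functionals on the sum. -/
noncomputable def sumF (c : E →L[ℝ] ℝ) (k : ℕ) : WithLp 1 (E × CNull) →L[ℝ] ℝ :=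
  c.comp (WithLp.fstL 1 ℝ E CNull) + (CNull.coord k).comp (WithLp.sndL 1 ℝ E CNull)

theorem sumF_apply (c : E →L[ℝ] ℝ) (k : ℕ) (x : WithLp 1 (E × CNull)) :
    sumF c k x = c x.fst + x.snd k := rfl

theorem strictN_sum {c : E →L[ℝ] ℝ} {z : E} (hc : StrictN c z) {k : ℕ} {b : CNull}
    (hb : StrictN (CNull.coord k) b) :
    StrictN (sumF c k) (WithLp.toLp 1 (z, b)) := by
  obtain ⟨ρ, hρ, hloc⟩ := hc
  obtain ⟨ρ', hρ', hloc'⟩ := hb
  refine ⟨min ρ ρ', lt_min hρ hρ', fun x hx => ?_⟩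
  have h1 : ‖x.fst - z‖ ≤ ‖x - WithLp.toLp 1 (z, b)‖ :=
    WithLp.norm_fst_le E (x - WithLp.toLp 1 (z, b))
  have h2 : ‖x.snd - b‖ ≤ ‖x - WithLp.toLp 1 (z, b)‖ :=
    WithLp.norm_snd_le E (x - WithLp.toLp 1 (z, b))
  rw [WithLp.prod_norm_eq_of_L1, sumF_apply,
    hloc x.fst (h1.trans_lt (hx.trans_le (min_le_left _ _))),
    hloc' x.snd (h2.trans_lt (hx.trans_le (min_le_right _ _)))]
  rfl

theorem norm_le_sumF_sub (c c' : E →L[ℝ] ℝ) (k k' : ℕ) :
    ‖c - c'‖ ≤ ‖sumF c k - sumF c' k'‖ := by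
  refine ContinuousLinearMap.opNorm_le_bound _ (norm_nonneg (sumF c k - sumF c' k'))
    (fun w => ?_)
  have h1 := (sumF c k - sumF c' k').le_of_opNorm_le le_rfl (WithLp.toLp 1 (w, (0 : CNull)))
  rw [WithLp.norm_toLp_fst, sub_apply, sumF_apply, sumF_apply] at h1
  rw [sub_apply]
  simpa using h1

theorem norm_le_sumF_add (c c' : E →L[ℝ] ℝ) (k k' : ℕ) :
    ‖c + c'‖ ≤ ‖sumF c k + sumF c' k'‖ := by
  refine ContinuousLinearMap.opNorm_le_bound _ (norm_nonneg (sumF c k + sumF c' k'))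
    (fun w => ?_)
  have h1 := (sumF c k + sumF c' k').le_of_opNorm_le le_rfl (WithLp.toLp 1 (w, (0 : CNull)))
  rw [WithLp.norm_toLp_fst, add_apply, sumF_apply, sumF_apply] at h1
  rw [add_apply]
  simpa using h1

theorem CNull.norm_unit_le (k : ℕ) : ‖CNull.unit k‖ ≤ 1 := by
  refine (CNull.norm_le_iff zero_le_one).2 (fun j => ?_)
  rw [CNull.unit_apply]
  by_cases hj : j = k
  · rw [if_pos hj, abs_one]
  · rw [if_neg hj, abs_zero]
    exact zero_le_one

theorem one_le_sumF_sub (c c' : E →L[ℝ] ℝ) {k k' : ℕ} (h : k ≠ k') :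
    1 ≤ ‖sumF c k - sumF c' k'‖ := by
  have h1 := (sumF c k - sumF c' k').le_of_opNorm_le le_rfl
    (WithLp.toLp 1 ((0 : E), CNull.unit k))
  rw [WithLp.norm_toLp_snd, sub_apply, sumF_apply, sumF_apply] at h1
  have h2 : c (WithLp.toLp 1 ((0 : E), CNull.unit k)).fst
      + (WithLp.toLp 1 ((0 : E), CNull.unit k)).snd k
      - (c' (WithLp.toLp 1 ((0 : E), CNull.unit k)).fst
        + (WithLp.toLp 1 ((0 : E), CNull.unit k)).snd k') = 1 := by
    show c 0 + CNull.unit k k - (c' 0 + CNull.unit k k') = 1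
    rw [map_zero, map_zero, CNull.unit_self, CNull.unit_ne h.symm]
    ring
  rw [h2, Real.norm_eq_abs, abs_one] at h1
  have h3 := mul_le_mul_of_nonneg_left (CNull.norm_unit_le k) (norm_nonneg (sumF c k - sumF c' k'))
  linarith

theorem one_le_sumF_add (c c' : E →L[ℝ] ℝ) {k k' : ℕ} (h : k ≠ k') :
    1 ≤ ‖sumF c k + sumF c' k'‖ := by
  have h1 := (sumF c k + sumF c' k').le_of_opNorm_le le_rfl
    (WithLp.toLp 1 ((0 : E), CNull.unit k))
  rw [WithLp.norm_toLp_snd, add_apply, sumF_apply, sumF_apply] at h1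
  have h2 : c (WithLp.toLp 1 ((0 : E), CNull.unit k)).fst
      + (WithLp.toLp 1 ((0 : E), CNull.unit k)).snd k
      + (c' (WithLp.toLp 1 ((0 : E), CNull.unit k)).fst
        + (WithLp.toLp 1 ((0 : E), CNull.unit k)).snd k') = 1 := by
    show c 0 + CNull.unit k k + (c' 0 + CNull.unit k k') = 1
    rw [map_zero, map_zero, CNull.unit_self, CNull.unit_ne h.symm]
    ring
  rw [h2, Real.norm_eq_abs, abs_one] at h1
  have h3 := mul_le_mul_of_nonneg_left (CNull.norm_unit_le k) (norm_nonneg (sumF c k + sumF c' k'))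
  linarith

theorem CNull.isWuc_unit : IsWuc CNull.unit := by
  classical
  intro A b hb
  refine (CNull.norm_le_iff zero_le_one).2 (fun k => ?_)
  have h1 : (∑ j ∈ A, b j • CNull.unit j) k = ∑ j ∈ A, b j * CNull.unit j k := by
    have := map_sum (CNull.coord k) (fun j => b j • CNull.unit j) A
    rw [CNull.coord_apply] at this
    rw [this]
    refine Finset.sum_congr rfl (fun j _ => ?_)
    rw [map_smul, smul_eq_mul, CNull.coord_apply]
  rw [h1]
  by_cases hk : k ∈ A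
  · rw [Finset.sum_eq_single_of_mem k hk (fun j _ hj => by
      rw [CNull.unit_ne (Ne.symm hj), mul_zero]), CNull.unit_self, mul_one]
    exact hb k
  · rw [Finset.sum_eq_zero (fun j hj => by
      rw [CNull.unit_ne (by rintro rfl; exact hk hj), mul_zero]), abs_zero]
    exact zero_le_one

end Pool.Agent.Lib.MP_a60229_an
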