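import Mathlib

set_option autoImplicit false
universe u

namespace Pool.Agent.Lib.MP_a60229_an

open Set Cardinal

/-- Transfinite selection of representatives which stay distinct modulo an involution. -/
theorem select {ι α : Type u} (S : ι → Set α) (σ : α → α) (hσ : ∀ a, σ (σ a) = a)
    (h1 : ∀ i, #ι ≤ #(S i)) (h2 : ∀ i, ℵ₀ ≤ #(S i)) :
    ∃ c : ι → α, (∀ i, c i ∈ S i) ∧ ∀ i j, i ≠ j → c i ≠ c j ∧ c i ≠ σ (c j) := by
  classical
  rcases isEmpty_or_nonempty ι with hι | ⟨⟨i₀⟩⟩
  · exact ⟨fun i => (IsEmpty.false i).elim, fun i => (IsEmpty.false i).elim,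
      fun i => (IsEmpty.false i).elim⟩
  have : Nonempty α := by
    have hinf : Infinite (S i₀) := Cardinal.infinite_iff.2 (h2 i₀)
    obtain ⟨x⟩ := hinf.nonempty
    exact ⟨x⟩
  obtain ⟨_, hwf, hord⟩ := exists_ord_eq_type_lt ι
  -- the recursion
  let F : (i : ι) → ((j : ι) → j < i → α) → α := fun i rec =>
    if h : (S i \ {a | ∃ j, ∃ hj : j < i, a = rec j hj ∨ a = σ (rec j hj)}).Nonempty
      then h.choose else Classical.arbitrary α
  let c : ι → α := (wellFounded_lt (α := ι)).fix F
  have hc : ∀ i, c i = F i (fun j _ => c j) := fun i => (wellFounded_lt (α := ι)).fix_eq F i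
  have key : ∀ i, c i ∈ S i \ {a | ∃ j, ∃ _ : j < i, a = c j ∨ a = σ (c j)} := by
    intro i
    have hne : (S i \ {a | ∃ j, ∃ _ : j < i, a = c j ∨ a = σ (c j)}).Nonempty := by
      rw [Set.nonempty_iff_ne_empty]
      intro he
      rw [Set.sdiff_eq_empty] at he
      have hsub : S i ⊆ (c '' Iio i) ∪ ((fun j => σ (c j)) '' Iio i) := by
        intro a ha
        obtain ⟨j, hj, h | h⟩ := he ha
        · exact Or.inl ⟨j, hj, h.symm⟩
        · exact Or.inr ⟨j, hj, h.symm⟩
      have hlt : #(Iio i) < #(S i) := (mk_Iio_lt i hord).trans_le (h1 i)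
      have hle : #(S i) ≤ #(Iio i) + #(Iio i) :=
        (mk_le_mk_of_subset hsub).trans ((mk_union_le _ _).trans
          (add_le_add mk_image_le mk_image_le))
      exact absurd hle (not_le.2 (add_lt_of_lt (h2 i) hlt hlt))
    rw [hc i]
    show (if h : (S i \ {a | ∃ j, ∃ hj : j < i, a = c j ∨ a = σ (c j)}).Nonempty
      then h.choose else Classical.arbitrary α) ∈ _
    rw [dif_pos hne]
    exact hne.choose_spec
  refine ⟨c, fun i => (key i).1, fun i j hij => ?_⟩
  rcases lt_or_gt_of_ne hij with h | h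
  · have := (key j).2
    constructor
    · intro he
      exact this ⟨i, h, Or.inl he.symm⟩
    · intro he
      apply this
      refine ⟨i, h, Or.inr ?_⟩
      rw [he, hσ]
  · have := (key i).2
    constructor
    · intro he
      exact this ⟨j, h, Or.inl he⟩
    · intro he
      exact this ⟨j, h, Or.inr he⟩

/-- The rational span of an infinite set has the same cardinality and is dense in the real span. -/
theorem exists_dense_small {V : Type u} [NormedAddCommGroup V] [NormedSpace ℝ V] (S : Set V)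
    (hS : ℵ₀ ≤ #S) : ∃ D : Set V, #D ≤ #S ∧ (Submodule.span ℝ S : Set V) ⊆ closure D := by
  classical
  let Φ : (S →₀ ℚ) → V := fun a => a.sum (fun s q => (q : ℝ) • (s : V))
  have hadd : ∀ a b, Φ (a + b) = Φ a + Φ b := by
    intro a b
    exact Finsupp.sum_add_index' (by intro s; simp) (by intro s q r; rw [Rat.cast_add, add_smul])
  have hsmul : ∀ (q : ℚ) a, Φ (q • a) = (q : ℝ) • Φ a := by
    intro q a
    show (q • a).sum _ = (q : ℝ) • a.sum _
    rw [Finsupp.sum_smul_index' (by intro s; simp), Finsupp.smul_sum]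
    refine Finsupp.sum_congr (fun s _ => ?_)
    rw [smul_eq_mul, Rat.cast_mul, mul_smul]
  refine ⟨range Φ, ?_, ?_⟩
  · have : Infinite S := Cardinal.infinite_iff.2 hS
    refine mk_range_le.trans ?_
    simp only [mk_finsupp_lift_of_infinite, mk_eq_aleph0, lift_uzero, lift_aleph0, max_le_iff]
    exact ⟨le_rfl, hS⟩
  · intro v hv
    induction hv using Submodule.span_induction with
    | mem x hx =>
      refine subset_closure ⟨Finsupp.single ⟨x, hx⟩ 1, ?_⟩
      show Finsupp.sum _ _ = x
      rw [Finsupp.sum_single_index (by simp)]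
      simp
    | zero => exact subset_closure ⟨0, by show Finsupp.sum _ _ = (0 : V); simp⟩
    | add x y _ _ hx hy =>
      refine map_mem_closure₂ continuous_add hx hy ?_
      rintro _ ⟨a, rfl⟩ _ ⟨b, rfl⟩
      exact ⟨a + b, hadd a b⟩
    | smul r x _ hx =>
      have hr : r ∈ closure (range (fun q : ℚ => (q : ℝ))) := by
        rw [Rat.isDenseEmbedding_coe_real.dense.closure_range]
        trivial
      refine map_mem_closure₂ continuous_smul hr hx ?_
      rintro _ ⟨q, rfl⟩ _ ⟨b, rfl⟩
      exact ⟨q • b, hsmul q b⟩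

end Pool.Agent.Lib.MP_a60229_an
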