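import Pool.Agent.Lib.MP_a60229_an.Body
import Pool.Agent.Lib.MP_a60229_an.Density
import Pool.Agent.Lib.MP_a60229_an.Select

set_option autoImplicit false
universe u

namespace Pool.Agent.Lib.MP_a60229_an

open Metric Set Filter Topology Cardinal

variable {E : Type u} [NormedAddCommGroup E] [NormedSpace ℝ E]

theorem IsGoodBoundary.infinite_slice [CompleteSpace E] {B : Set (E →L[ℝ] ℝ)}
    (hB : IsGoodBoundary B) (hE : ¬ FiniteDimensional ℝ E) {g : E →L[ℝ] ℝ} (hg : ‖g‖ = 1)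
    {ε : ℝ} (hε : 0 < ε) : ℵ₀ ≤ #(SliceFacets B g ε) := by
  rw [← Cardinal.infinite_iff, Set.infinite_coe_iff]
  intro hfin
  apply hE
  set A : Set (E →L[ℝ] ℝ) := insert g (SliceFacets B g ε) with hA
  have hAfin : A.Finite := hfin.insert g
  have : Finite A := hAfin
  let L : E →ₗ[ℝ] (A → ℝ) := LinearMap.pi (fun a => ((a : E →L[ℝ] ℝ) : E →ₗ[ℝ] ℝ))
  have hL : Function.Injective L := by
    rw [← LinearMap.ker_eq_bot, Submodule.eq_bot_iff]
    intro x hx
    have hx0 : ∀ a ∈ A, a x = 0 := by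
      intro a ha
      have := congrFun (LinearMap.mem_ker.1 hx) ⟨a, ha⟩
      exact this
    have hspan : ∀ φ ∈ Submodule.span ℝ A, φ x = 0 := by
      intro φ hφ
      induction hφ using Submodule.span_induction with
      | mem a ha => exact hx0 a ha
      | zero => rfl
      | add a b _ _ h1 h2 => rw [add_apply, h1, h2, add_zero]
      | smul r a _ h1 => rw [smul_apply, h1, smul_zero]
    by_contra hne
    obtain ⟨h, hh1, hh2⟩ := exists_dual_vector ℝ x (norm_ne_zero_iff.2 hne)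
    have hxpos : 0 < ‖x‖ := norm_pos_iff.2 hne
    obtain ⟨φ, hφ, hle⟩ := hB.approx hg hε h (c := 1 / 2) (by norm_num)
    have h1 := (h - φ).le_of_opNorm_le hle x
    rw [sub_apply, hspan φ hφ, sub_zero, hh2] at h1
    simp at h1
    linarith
  exact FiniteDimensional.of_injective L hL

theorem IsGoodBoundary.exists_spikes [CompleteSpace E] {B : Set (E →L[ℝ] ℝ)}
    (hB : IsGoodBoundary B) (hE : ¬ FiniteDimensional ℝ E) {r : ℝ} (hr : 0 < r) :
    ∃ (J : Type u) (_ : Nonempty J) (f : J → (E →L[ℝ] ℝ)) (y : J → E) (δ : J → ℝ),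
      IsSpikes B f y δ ∧ (∀ j, δ j ≤ r) ∧
      ∀ g : E →L[ℝ] ℝ, ‖g‖ = 1 → ∀ ε : ℝ, 0 < ε → ∃ j, 1 - ε < g (y j) := by
  classical
  -- a unit functional
  obtain ⟨x₁, hx₁⟩ : ∃ x : E, x ≠ 0 := by
    by_contra hcon
    push Not at hcon
    apply hE
    have : Subsingleton E := ⟨fun a b => by rw [hcon a, hcon b]⟩
    infer_instance
  obtain ⟨g₁, hg₁, _⟩ := exists_dual_vector ℝ x₁ (norm_ne_zero_iff.2 hx₁)
  -- minimal slice
  set K : Set Cardinal.{u} := {κ | ∃ g : E →L[ℝ] ℝ, ∃ ε : ℝ, ‖g‖ = 1 ∧ 0 < ε ∧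
    κ = #(SliceFacets B g ε)} with hK
  have hKne : K.Nonempty := ⟨_, g₁, 1, hg₁, one_pos, rfl⟩
  obtain ⟨g₀, ε₀, hg₀, hε₀, hκ⟩ := csInf_mem hKne
  have hmin : ∀ g : E →L[ℝ] ℝ, ∀ ε : ℝ, ‖g‖ = 1 → 0 < ε →
      #(SliceFacets B g₀ ε₀) ≤ #(SliceFacets B g ε) := by
    intro g ε hg hε
    rw [← hκ]
    exact csInf_le' ⟨g, ε, hg, hε, rfl⟩
  set κ : Cardinal.{u} := #(SliceFacets B g₀ ε₀) with hκdef
  have hκinf : ℵ₀ ≤ κ := hB.infinite_slice hE hg₀ hε₀
  set S : Set (E →L[ℝ] ℝ) := insert g₀ (SliceFacets B g₀ ε₀) with hS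
  have hSle : #S ≤ κ := by
    refine (mk_insert_le).trans ?_
    rw [← hκdef]
    exact (Cardinal.add_one_eq hκinf).le
  have hSinf : ℵ₀ ≤ #S := hκinf.trans (mk_le_mk_of_subset (Set.subset_insert _ _))
  obtain ⟨D, hD, hDdense⟩ := exists_dense_small S hSinf
  -- tasks
  let ι : Type u := {d : E →L[ℝ] ℝ // d ∈ D ∧ d ≠ 0} × ℕ
  let G : ι → (E →L[ℝ] ℝ) := fun i => ‖(i.1 : E →L[ℝ] ℝ)‖⁻¹ • (i.1 : E →L[ℝ] ℝ)
  let e : ι → ℝ := fun i => 1 / ((i.2 : ℝ) + 1)
  have hG : ∀ i, ‖G i‖ = 1 := by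
    intro i
    show ‖‖(i.1 : E →L[ℝ] ℝ)‖⁻¹ • (i.1 : E →L[ℝ] ℝ)‖ = 1
    rw [norm_smul, norm_inv, norm_norm, inv_mul_cancel₀ (norm_ne_zero_iff.2 i.1.2.2)]
  have he : ∀ i, 0 < e i := fun i => by
    show 0 < 1 / ((i.2 : ℝ) + 1)
    positivity
  have hι : #ι ≤ κ := by
    show #({d : E →L[ℝ] ℝ // d ∈ D ∧ d ≠ 0} × ℕ) ≤ κ
    rw [mk_prod, Cardinal.lift_id', mk_nat, Cardinal.lift_aleph0]
    have h1 : #{d : E →L[ℝ] ℝ // d ∈ D ∧ d ≠ 0} ≤ κ :=
      (mk_subtype_mono (fun d hd => hd.1)).trans (hD.trans hSle)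
    calc #{d : E →L[ℝ] ℝ // d ∈ D ∧ d ≠ 0} * ℵ₀ ≤ κ * κ := mul_le_mul' h1 hκinf
      _ = κ := mul_eq_self hκinf
  obtain ⟨c, hc1, hc2⟩ := select (fun i => SliceFacets B (G i) (e i)) (fun f => -f) neg_neg
    (fun i => hι.trans (hmin _ _ (hG i) (he i)))
    (fun i => hB.infinite_slice hE (hG i) (he i))
  choose z hz1 hz2 using hc1
  have hgap := fun i => hB.gap (hz1 i).2.1
  choose η hη0 hη using hgap
  let δ : ι → ℝ := fun i => min r (η i / 2)
  have hδ0 : ∀ i, 0 < δ i := fun i => lt_min hr (by have := hη0 i; linarith)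
  have hδr : ∀ i, δ i ≤ r := fun i => min_le_left _ _
  have hδη : ∀ i, 2 * δ i ≤ η i := fun i => by
    have : δ i ≤ η i / 2 := min_le_right _ _
    linarith
  have hoff : ∀ i, ∀ g ∈ B, g ≠ c i → g ((1 + δ i) • z i) ≤ 1 - δ i := by
    intro i g hg hne
    rw [map_smul, smul_eq_mul]
    have h1 : g (z i) ≤ 1 - η i := hη i g hg (fun h => hne ((hz1 i).2.2.2 g hg h))
    have h2 := hδ0 i
    have h3 := hδη i
    have h4 := hη0 i
    have h5 := mul_le_mul_of_nonneg_left h1 (show 0 ≤ 1 + δ i by linarith)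
    nlinarith [mul_pos h2 h4]
  let f : ι × Bool → (E →L[ℝ] ℝ) := fun j => if j.2 then c j.1 else -c j.1
  let y : ι × Bool → E := fun j =>
    if j.2 then (1 + δ j.1) • z j.1 else -((1 + δ j.1) • z j.1)
  have hcz : ∀ i, c i (z i) = 1 := fun i => (hz1 i).2.2.1
  have hcB : ∀ i, c i ∈ B := fun i => (hz1 i).1
  have hcne : ∀ i, c i ≠ -c i := by
    intro i h
    have h1 := hcz i
    rw [h, neg_apply, hcz i] at h1
    norm_num at h1
  have hspikes : IsSpikes B f y (fun j => δ j.1) :=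
    { mem := by
        rintro ⟨i, b⟩
        cases b
        · exact hB.neg_mem _ (hcB i)
        · exact hcB i
      inj := by
        rintro ⟨i, b⟩ ⟨i', b'⟩ h
        by_cases hii : i = i'
        · subst hii
          cases b <;> cases b'
          · rfl
          · exact absurd (show -c i = c i from h).symm (hcne i)
          · exact absurd (show c i = -c i from h) (hcne i)
          · rfl
        · exfalso
          have h12 := hc2 i i' hii
          cases b <;> cases b'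
          · have : -c i = -c i' := h
            exact h12.1 (neg_injective this)
          · have : -c i = c i' := h
            exact h12.2 (by rw [← this, neg_neg])
          · exact h12.2 h
          · exact h12.1 h
      pos := fun j => hδ0 j.1
      val := by
        rintro ⟨i, b⟩
        cases b
        · show (-c i) (-((1 + δ i) • z i)) = 1 + δ i
          rw [neg_apply, map_neg, neg_neg, map_smul, hcz, smul_eq_mul, mul_one]
        · show (c i) ((1 + δ i) • z i) = 1 + δ i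
          rw [map_smul, hcz, smul_eq_mul, mul_one]
      off := by
        rintro ⟨i, b⟩ g hg hne
        cases b
        · show g (-((1 + δ i) • z i)) ≤ 1 - δ i
          have h1 : g (-((1 + δ i) • z i)) = (-g) ((1 + δ i) • z i) := by
            rw [map_neg, neg_apply]
          rw [h1]
          refine hoff i (-g) (hB.neg_mem g hg) ?_
          intro h
          apply hne
          show g = -c i
          rw [← h, neg_neg]
        · exact hoff i g hg hne
      neg := by
        rintro ⟨i, b⟩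
        cases b
        · refine ⟨(i, true), ?_⟩
          show (1 + δ i) • z i = -(-((1 + δ i) • z i))
          rw [neg_neg]
        · exact ⟨(i, false), rfl⟩ }
  -- the spikes reach every slice
  have hreach : ∀ g : E →L[ℝ] ℝ, ‖g‖ = 1 → ∀ ε : ℝ, 0 < ε → ∃ j, 1 - ε < g (y j) := by
    intro g hg ε hε
    set ε' : ℝ := min ε 1 with hε'
    have hε'0 : 0 < ε' := lt_min hε one_pos
    -- approximate `g` by a member of `D`
    obtain ⟨φ, hφ, hφg⟩ := hB.approx hg₀ hε₀ g (c := ε' / 16) (by positivity)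
    have hφcl : φ ∈ closure D := hDdense hφ
    obtain ⟨d, hdD, hd⟩ := Metric.mem_closure_iff.1 hφcl (ε' / 16) (by positivity)
    have hgd : ‖g - d‖ < ε' / 4 := by
      have : g - d = (g - φ) + (φ - d) := by abel
      rw [this]
      rw [dist_eq_norm] at hd
      refine lt_of_le_of_lt (norm_add_le _ _) ?_
      linarith
    have hε'1 : ε' ≤ 1 := min_le_right _ _
    have hdn : |‖d‖ - 1| < ε' / 4 := by
      rw [← hg]
      have h1 := abs_norm_sub_norm_le d g
      rw [norm_sub_rev] at h1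
      linarith
    have hd0 : d ≠ 0 := by
      rintro rfl
      rw [norm_zero, zero_sub, abs_neg, abs_one] at hdn
      linarith
    have hdpos : 0 < ‖d‖ := norm_pos_iff.2 hd0
    obtain ⟨n, hn⟩ := exists_nat_one_div_lt (show (0 : ℝ) < ε' / 4 by positivity)
    set i : ι := (⟨d, hdD, hd0⟩, n) with hi
    have hGi : ‖d - G i‖ < ε' / 4 := by
      have h1 : d - G i = (1 - ‖d‖⁻¹) • d := by
        show d - ‖d‖⁻¹ • d = (1 - ‖d‖⁻¹) • d
        module
      rw [h1, norm_smul, Real.norm_eq_abs]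
      have h2 : |1 - ‖d‖⁻¹| * ‖d‖ = |‖d‖ - 1| := by
        have h21 : |1 - ‖d‖⁻¹| * ‖d‖ = |1 - ‖d‖⁻¹| * |‖d‖| := by rw [abs_of_pos hdpos]
        rw [h21, ← abs_mul, sub_mul, inv_mul_cancel₀ hdpos.ne', one_mul]
      rw [h2]
      exact hdn
    have hzi : ‖z i‖ = 1 := (hz1 i).2.1
    have h3 : 1 - ε' / 4 < G i (z i) := by
      have h4 := hz2 i
      have h5 : e i < ε' / 4 := hn
      linarith
    have h4 : |(d - G i) (z i)| < ε' / 4 := by
      have := (d - G i).le_of_opNorm_le le_rfl (z i)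
      rw [hzi, mul_one, Real.norm_eq_abs] at this
      linarith
    have h5 : |(g - d) (z i)| < ε' / 4 := by
      have := (g - d).le_of_opNorm_le le_rfl (z i)
      rw [hzi, mul_one, Real.norm_eq_abs] at this
      linarith
    rw [sub_apply] at h4 h5
    have h6 : 1 - ε' < g (z i) := by
      have := (abs_lt.1 h4).1
      have := (abs_lt.1 h5).1
      linarith
    refine ⟨(i, true), ?_⟩
    show 1 - ε < g ((1 + δ i) • z i)
    rw [map_smul, smul_eq_mul]
    have h7 := hδ0 i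
    have h8 : 0 < g (z i) := by linarith
    have h9 : ε' ≤ ε := min_le_left _ _
    nlinarith [mul_pos h7 h8]
  have hJ : Nonempty (ι × Bool) := by
    obtain ⟨j, _⟩ := hreach g₁ hg₁ 1 one_pos
    exact ⟨j⟩
  exact ⟨ι × Bool, hJ, f, y, fun j => δ j.1, hspikes, fun j => hδr j.1, hreach⟩

/-- The main construction. -/
theorem IsStarBoundary.exists_generated [CompleteSpace E] {B : Set (E →L[ℝ] ℝ)}
    (hB : IsStarBoundary B) {r : ℝ} (hr : 0 < r) :
    ∃ (X : Type u) (_ : NormedAddCommGroup X) (_ : NormedSpace ℝ X), ∃ T : E ≃L[ℝ] X,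
      (∀ x, ‖T x‖ ≤ ‖x‖ ∧ ‖x‖ ≤ (1 + r) * ‖T x‖) ∧ IsPolyhedral X ∧
      Metric.closedBall (0 : X) 1 =
        closure (convexHull ℝ (Set.extremePoints ℝ (Metric.closedBall (0 : X) 1))) := by
  by_cases hE : FiniteDimensional ℝ E
  · refine ⟨E, inferInstance, inferInstance, ContinuousLinearEquiv.refl ℝ E, fun x => ?_,
      hB.isPolyhedral, ?_⟩
    · have : (ContinuousLinearEquiv.refl ℝ E) x = x := rfl
      rw [this]
      have h0 := norm_nonneg x
      exact ⟨le_rfl, by nlinarith⟩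
    · have : ProperSpace E := FiniteDimensional.proper_real E
      exact (closure_convexHull_extremePoints (isCompact_closedBall (0 : E) 1)
        (convex_closedBall _ _)).symm
  · obtain ⟨C, hC⟩ := hB.exists_good
    obtain ⟨J, hJ, f, y, δ, hs, hδ, hreach⟩ := hC.exists_spikes hE hr
    have hCs := hC.toIsStarBoundary
    have hbody := hs.isBody hCs hr.le hδ
    obtain ⟨X, i1, i2, T, hT1, hT2⟩ := hbody.exists_renorm
    obtain ⟨h1, h2⟩ := transport T hT1 (fun G hG => hs.section_finite hCs G hG)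
      (hs.generated hCs hreach)
    exact ⟨X, i1, i2, T, hT2, h1, h2⟩

end Pool.Agent.Lib.MP_a60229_an
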