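import Pool.Agent.Lib.MP_a60229_an.BodyC
import Pool.Agent.Lib.MP_a60229_an.Select

set_option autoImplicit false
universe u

namespace Pool.Agent.Lib.MP_a60229_an

open Metric Set Filter Topology Cardinal

/-- Transfinite choice along a well-order of minimal type. -/
theorem rec_select {ι α : Type u} [Nonempty α] (P : ι → Set α → α → Prop)
    (h : ∀ (i : ι) (A : Set α), #A < #ι → ∃ a, P i A a) :
    ∃ (_ : LinearOrder ι) (c : ι → α), ∀ i, P i (c '' Iio i) (c i) := by
  classical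
  obtain ⟨lo, hwf, hord⟩ := exists_ord_eq_type_lt ι
  let F : (i : ι) → ((j : ι) → j < i → α) → α := fun i rec =>
    if h : ∃ a, P i {b | ∃ j, ∃ hj : j < i, b = rec j hj} a then h.choose
    else Classical.arbitrary α
  let c : ι → α := (wellFounded_lt (α := ι)).fix F
  have hc : ∀ i, c i = F i (fun j _ => c j) := fun i => (wellFounded_lt (α := ι)).fix_eq F i
  refine ⟨lo, c, fun i => ?_⟩
  have hset : {b | ∃ j, ∃ _ : j < i, b = c j} = c '' Iio i := by
    ext b
    constructor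
    · rintro ⟨j, hj, rfl⟩
      exact ⟨j, hj, rfl⟩
    · rintro ⟨j, hj, rfl⟩
      exact ⟨j, hj, rfl⟩
  have hex : ∃ a, P i {b | ∃ j, ∃ _ : j < i, b = c j} a := by
    apply h
    rw [hset]
    exact mk_image_le.trans_lt (mk_Iio_lt i hord)
  have hci : c i = hex.choose := by
    rw [hc i]
    show (if h : ∃ a, P i {b | ∃ j, ∃ _ : j < i, b = c j} a then h.choose
      else Classical.arbitrary α) = _
    rw [dif_pos hex]
  have hP := hex.choose_spec
  rw [← hci, hset] at hP
  exact hP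

variable {E : Type u} [NormedAddCommGroup E] [NormedSpace ℝ E]

/-- If the closed span of a finite set of functionals is everything, the space is
finite-dimensional. -/
theorem finiteDimensional_of_span {A : Set (E →L[ℝ] ℝ)} (hA : A.Finite)
    (h : ∀ φ : E →L[ℝ] ℝ, φ ∈ (Submodule.span ℝ A).topologicalClosure) :
    FiniteDimensional ℝ E := by
  have : Finite A := hA
  let L : E →ₗ[ℝ] (A → ℝ) := LinearMap.pi (fun a => ((a : E →L[ℝ] ℝ) : E →ₗ[ℝ] ℝ))
  have hL : Function.Injective L := by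
    rw [← LinearMap.ker_eq_bot, Submodule.eq_bot_iff]
    intro x hx
    have hx0 : ∀ a ∈ A, a x = 0 := by
      intro a ha
      have := congrFun (LinearMap.mem_ker.1 hx) ⟨a, ha⟩
      exact this
    have hspan : ∀ φ ∈ Submodule.span ℝ A, φ x = 0 := by
      intro φ hφ
      induction hφ using Submodule.span_induction with
      | mem a ha => exact hx0 a ha
      | zero => rfl
      | add a b _ _ h1 h2 => rw [add_apply, h1, h2, add_zero]
      | smul r a _ h1 => rw [smul_apply, h1, smul_zero]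
    have hcl : ∀ φ : E →L[ℝ] ℝ, φ x = 0 := by
      intro φ
      have h1 : φ ∈ closure ((Submodule.span ℝ A : Submodule ℝ (E →L[ℝ] ℝ)) :
          Set (E →L[ℝ] ℝ)) := h φ
      have h2 : IsClosed {φ : E →L[ℝ] ℝ | φ x = 0} :=
        isClosed_eq (ContinuousLinearMap.apply ℝ ℝ x).continuous continuous_const
      exact (closure_minimal hspan h2) h1
    obtain ⟨g, _, hg⟩ := exists_norming x
    rw [hcl g] at hg
    exact norm_eq_zero.1 hg.symm
  exact FiniteDimensional.of_injective L hL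

/-- A dense subset of the dual of minimal cardinality, and the resulting properness of closed
spans of small sets. -/
theorem exists_minimal_dense (hE : ¬ FiniteDimensional ℝ E) :
    ∃ D : Set (E →L[ℝ] ℝ), Dense D ∧ ∀ A : Set (E →L[ℝ] ℝ), #A < #D →
      ∀ g : E →L[ℝ] ℝ, ∃ h, h ∉ (Submodule.span ℝ (insert g A)).topologicalClosure := by
  set K : Set Cardinal.{u} := {κ | ∃ D : Set (E →L[ℝ] ℝ), Dense D ∧ κ = #D} with hK
  have hKne : K.Nonempty := ⟨_, Set.univ, dense_univ, rfl⟩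
  obtain ⟨D, hD, hκ⟩ := csInf_mem hKne
  refine ⟨D, hD, fun A hA g => ?_⟩
  by_contra hcon
  push Not at hcon
  rcases lt_or_ge #(insert g A : Set (E →L[ℝ] ℝ)) ℵ₀ with hfin | hinf
  · have hfin' : (insert g A : Set (E →L[ℝ] ℝ)).Finite := Cardinal.lt_aleph0_iff_set_finite.1 hfin
    exact hE (finiteDimensional_of_span hfin' hcon)
  · obtain ⟨D', hD', hdense⟩ := exists_dense_small (insert g A : Set (E →L[ℝ] ℝ)) hinf
    have hD'dense : Dense D' := by
      intro φ
      have h1 : φ ∈ closure ((Submodule.span ℝ (insert g A) : Submodule ℝ (E →L[ℝ] ℝ)) :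
          Set (E →L[ℝ] ℝ)) := hcon φ
      exact (closure_minimal hdense isClosed_closure) h1
    have h1 : #D ≤ #D' := by
      rw [← hκ]
      exact csInf_le' ⟨D', hD'dense, rfl⟩
    have hAinf : ℵ₀ ≤ #A := by
      by_contra hlt
      push Not at hlt
      have h2 : (insert g A : Set (E →L[ℝ] ℝ)).Finite :=
        (Cardinal.lt_aleph0_iff_set_finite.1 hlt).insert g
      exact absurd (Cardinal.lt_aleph0_iff_set_finite.2 h2) (not_lt.2 hinf)
    have h3 : #(insert g A : Set (E →L[ℝ] ℝ)) ≤ #A :=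
      mk_insert_le.trans (Cardinal.add_one_eq hAinf).le
    exact absurd (h1.trans (hD'.trans h3)) (not_le.2 hA)

/-- The gap at a strict point. -/
theorem StrictN.gap {f : E →L[ℝ] ℝ} {z : E} (h : StrictN f z) (hz : ‖z‖ = 1) :
    ∃ ρ : ℝ, 0 < ρ ∧ ∀ g : E →L[ℝ] ℝ, ‖g‖ ≤ 1 → g z ≤ 1 - ρ * ‖g - f‖ := by
  obtain ⟨ρ, hρ, hloc⟩ := h
  refine ⟨ρ / 2, by positivity, fun g hg => ?_⟩
  have hfz : f z = 1 := by
    rw [← hloc z (by rw [sub_self, norm_zero]; exact hρ), hz]
  have hsmall : ∀ v : E, ‖v‖ < ρ → (g - f) v ≤ 1 - g z := by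
    intro v hv
    have h1 := hloc (z + v) (by rwa [add_sub_cancel_left])
    have h2 := apply_le_norm hg (z + v)
    rw [h1, map_add, map_add, hfz] at h2
    rw [sub_apply]
    linarith
  have h0 : 0 ≤ 1 - g z := by
    have := apply_le_norm hg z
    rw [hz] at this
    linarith
  have hn : ‖g - f‖ ≤ (1 - g z) / (ρ / 2) := by
    refine ContinuousLinearMap.opNorm_le_of_unit_norm (by positivity) (fun v hv => ?_)
    have h1 := hsmall ((ρ / 2) • v) (by
      rw [norm_smul, hv, Real.norm_eq_abs, abs_of_pos (by positivity)]; linarith)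
    have h2 := hsmall (-((ρ / 2) • v)) (by
      rw [norm_neg, norm_smul, hv, Real.norm_eq_abs, abs_of_pos (by positivity)]; linarith)
    rw [map_neg, map_smul, smul_eq_mul] at h2
    rw [map_smul, smul_eq_mul] at h1
    rw [Real.norm_eq_abs, le_div_iff₀ (by positivity)]
    rcases abs_cases ((g - f) v) with ⟨h, _⟩ | ⟨h, _⟩ <;> rw [h] <;> linarith
  rw [le_div_iff₀ (by positivity)] at hn
  linarith

/-- Spikes over separated strict functionals. -/
theorem exists_spikes_of_family {ι : Type u} (c : ι → (E →L[ℝ] ℝ)) (z : ι → E)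
    (hz : ∀ i, ‖z i‖ = 1) (hs : ∀ i, StrictN (c i) (z i)) (r : ι → ℝ) (hr : ∀ i, 0 < r i)
    (hsep : ∀ i j, i ≠ j → r i ≤ ‖c i - c j‖ ∧ r i ≤ ‖c i + c j‖) {R : ℝ} (hR : 0 < R) :
    ∃ (f : ι × Bool → (E →L[ℝ] ℝ)) (y : ι × Bool → E) (δ : ι × Bool → ℝ),
      IsSpikesC f y δ ∧ (∀ j, δ j ≤ R) ∧
      ∀ i, ∃ j, ∃ d : ℝ, 0 < d ∧ y j = (1 + d) • z i := by
  classical
  have hgap := fun i => (hs i).gap (hz i)
  choose ρ hρ0 hρ using hgap
  let d : ι → ℝ := fun i => min R (ρ i * r i / 4)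
  have hd0 : ∀ i, 0 < d i := fun i => lt_min hR (by
    have := mul_pos (hρ0 i) (hr i); positivity)
  have hdR : ∀ i, d i ≤ R := fun i => min_le_left _ _
  have hdr : ∀ i, d i ≤ ρ i * r i / 4 := fun i => min_le_right _ _
  have hcz : ∀ i, c i (z i) = 1 := by
    intro i
    obtain ⟨t, ht, hloc⟩ := hs i
    rw [← hloc (z i) (by rw [sub_self, norm_zero]; exact ht), hz]
  have hcn : ∀ i, ‖c i‖ ≤ 1 := fun i => (hs i).norm_le
  -- seeing a spike forces proximity
  have hsee : ∀ i, ∀ g : E →L[ℝ] ℝ, ‖g‖ ≤ 1 → 1 < g ((1 + d i) • z i) → ‖g - c i‖ < r i / 2 := by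
    intro i g hg h1
    rw [map_smul, smul_eq_mul] at h1
    have h2 := hρ i g hg
    have h3 := hd0 i
    have h4 : (1 + d i) * g (z i) ≤ (1 + d i) * (1 - ρ i * ‖g - c i‖) :=
      mul_le_mul_of_nonneg_left h2 (by linarith)
    have h5 : 0 ≤ ρ i * ‖g - c i‖ := mul_nonneg (hρ0 i).le (norm_nonneg _)
    have h6 : ρ i * ‖g - c i‖ < d i := by nlinarith [mul_nonneg h3.le h5]
    have h7 : ρ i * ‖g - c i‖ < ρ i * (r i / 4) := by
      have := hdr i
      linarith
    have h8 := lt_of_mul_lt_mul_left h7 (hρ0 i).le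
    have := hr i
    linarith
  let f : ι × Bool → (E →L[ℝ] ℝ) := fun j => if j.2 then c j.1 else -c j.1
  let y : ι × Bool → E := fun j =>
    if j.2 then (1 + d j.1) • z j.1 else -((1 + d j.1) • z j.1)
  have hsee' : ∀ j : ι × Bool, ∀ g : E →L[ℝ] ℝ, ‖g‖ ≤ 1 → 1 < g (y j) →
      ‖g - f j‖ < r j.1 / 2 := by
    rintro ⟨i, b⟩ g hg h1
    cases b
    · have h2 : 1 < (-g) ((1 + d i) • z i) := by
        have h3 : g (y (i, false)) = g (-((1 + d i) • z i)) := rfl
        rw [h3, map_neg] at h1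
        rwa [neg_apply]
      have h3 := hsee i (-g) (by rwa [norm_neg]) h2
      have h4 : g - f (i, false) = -(-g - c i) := by
        show g - (-c i) = _
        abel
      rw [h4, norm_neg]
      exact h3
    · exact hsee i g hg h1
  have hdist : ∀ i j : ι × Bool, i.1 ≠ j.1 → r i.1 ≤ ‖f i - f j‖ := by
    rintro ⟨i, b⟩ ⟨j, b'⟩ hij
    have h1 := hsep i j hij
    cases b <;> cases b'
    · show r i ≤ ‖-c i - -c j‖
      have : -c i - -c j = -(c i - c j) := by abel
      rw [this, norm_neg]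
      exact h1.1
    · show r i ≤ ‖-c i - c j‖
      have : -c i - c j = -(c i + c j) := by abel
      rw [this, norm_neg]
      exact h1.2
    · show r i ≤ ‖c i - -c j‖
      rw [sub_neg_eq_add]
      exact h1.2
    · exact h1.1
  refine ⟨f, y, fun j => d j.1, ⟨?_, fun j => hd0 j.1, ?_, ?_, ?_, ?_⟩, fun j => hdR j.1, ?_⟩
  · rintro ⟨i, b⟩
    cases b
    · show ‖-c i‖ ≤ 1
      rw [norm_neg]; exact hcn i
    · exact hcn i
  · rintro ⟨i, b⟩
    cases b
    · show (-c i) (-((1 + d i) • z i)) = 1 + d i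
      rw [neg_apply, map_neg, neg_neg, map_smul, hcz, smul_eq_mul, mul_one]
    · show (c i) ((1 + d i) • z i) = 1 + d i
      rw [map_smul, hcz, smul_eq_mul, mul_one]
  · have hb : ∀ i, ‖(1 + d i) • z i‖ ≤ 1 + d i := by
      intro i
      have := hd0 i
      rw [norm_smul, hz, mul_one, Real.norm_eq_abs, abs_of_pos (by linarith)]
    rintro ⟨i, b⟩
    cases b
    · show ‖-((1 + d i) • z i)‖ ≤ 1 + d i
      rw [norm_neg]; exact hb i
    · exact hb i
  · intro i j hij g hg hgi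
    by_contra hgj
    push Not at hgj
    by_cases hfst : i.1 = j.1
    · -- opposite spikes
      obtain ⟨i, b⟩ := i
      obtain ⟨j, b'⟩ := j
      have hfst' : i = j := hfst
      subst hfst'
      cases b <;> cases b'
      · exact hij rfl
      · have h1 : 1 < g (-((1 + d i) • z i)) := hgi
        have h2 : 1 < g ((1 + d i) • z i) := hgj
        rw [map_neg] at h1
        linarith
      · have h1 : 1 < g (-((1 + d i) • z i)) := hgj
        have h2 : 1 < g ((1 + d i) • z i) := hgi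
        rw [map_neg] at h1
        linarith
      · exact hij rfl
    · have h1 := hsee' i g hg hgi
      have h2 := hsee' j g hg hgj
      have h3 := hdist i j hfst
      have h4 := hdist j i (Ne.symm hfst)
      have h5 : ‖f i - f j‖ ≤ ‖g - f j‖ + ‖g - f i‖ := by
        have : f i - f j = (g - f j) - (g - f i) := by abel
        rw [this]
        exact norm_sub_le _ _
      rw [norm_sub_rev] at h4
      linarith
  · rintro ⟨i, b⟩
    cases b
    · refine ⟨(i, true), ?_⟩
      show (1 + d i) • z i = -(-((1 + d i) • z i))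
      rw [neg_neg]
    · exact ⟨(i, false), rfl⟩
  · intro i
    exact ⟨(i, true), d i, hd0 i, rfl⟩

/-- Transport of approximate generation to the renormed space. -/
theorem transport_approx {U : Set E} {X : Type u} [NormedAddCommGroup X] [NormedSpace ℝ X]
    (T : E ≃L[ℝ] X) (hT : ∀ x, ‖T x‖ ≤ 1 ↔ x ∈ U) {ρ : ℝ}
    (hgen : ∀ x ∈ U, ρ • x ∈ closure (convexHull ℝ (Set.extremePoints ℝ U))) :
    ∀ x ∈ Metric.closedBall (0 : X) 1, ρ • x ∈
      closure (convexHull ℝ (Set.extremePoints ℝ (Metric.closedBall (0 : X) 1))) := by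
  have hball : Metric.closedBall (0 : X) 1 = T '' U := by
    ext y
    rw [mem_closedBall_zero_iff]
    constructor
    · intro hy
      refine ⟨T.symm y, (hT _).1 ?_, T.apply_symm_apply y⟩
      rwa [T.apply_symm_apply]
    · rintro ⟨x, hx, rfl⟩
      exact (hT x).2 hx
  rw [hball, ← image_extremePoints T]
  have h1 : convexHull ℝ (T '' Set.extremePoints ℝ U)
      = T '' convexHull ℝ (Set.extremePoints ℝ U) :=
    ((T : E →ₗ[ℝ] X).image_convexHull _).symm
  rw [h1]
  have h2 : closure (T '' convexHull ℝ (Set.extremePoints ℝ U))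
      = T '' closure (convexHull ℝ (Set.extremePoints ℝ U)) :=
    (T.toHomeomorph.image_closure _).symm
  rw [h2]
  rintro _ ⟨x, hx, rfl⟩
  exact ⟨ρ • x, hgen x hx, by rw [map_smul]⟩

theorem transport_poly {U : Set E} {X : Type u} [NormedAddCommGroup X] [NormedSpace ℝ X]
    (T : E ≃L[ℝ] X) (hT : ∀ x, ‖T x‖ ≤ 1 ↔ x ∈ U)
    (hpoly : ∀ G : Submodule ℝ E, FiniteDimensional ℝ G →
      (Set.extremePoints ℝ (U ∩ (G : Set E))).Finite) : IsPolyhedral X := by
  have hball : Metric.closedBall (0 : X) 1 = T '' U := by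
    ext y
    rw [mem_closedBall_zero_iff]
    constructor
    · intro hy
      refine ⟨T.symm y, (hT _).1 ?_, T.apply_symm_apply y⟩
      rwa [T.apply_symm_apply]
    · rintro ⟨x, hx, rfl⟩
      exact (hT x).2 hx
  intro G hG
  set G' : Submodule ℝ E := G.comap (T : E →ₗ[ℝ] X) with hG'
  have hG'f : FiniteDimensional ℝ G' := by
    have : G' = G.map (T.symm : X →ₗ[ℝ] E) := by
      ext x
      rw [hG', Submodule.mem_comap, Submodule.mem_map]
      constructor
      · intro h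
        exact ⟨T x, h, T.symm_apply_apply x⟩
      · rintro ⟨y, hy, rfl⟩
        have : (T : E →ₗ[ℝ] X) ((T.symm : X →ₗ[ℝ] E) y) = y := T.apply_symm_apply y
        rwa [this]
    rw [this]
    infer_instance
  have himg : Metric.closedBall (0 : X) 1 ∩ (G : Set X) = T '' (U ∩ (G' : Set E)) := by
    rw [hball]
    ext y
    constructor
    · rintro ⟨⟨x, hx, rfl⟩, hy⟩
      exact ⟨x, ⟨hx, hy⟩, rfl⟩
    · rintro ⟨x, ⟨hx, hxG⟩, rfl⟩
      exact ⟨⟨x, hx, rfl⟩, hxG⟩
  rw [himg, ← image_extremePoints T]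
  exact (hpoly G' hG'f).image _

/-- Approximating a unit functional by a normalised member of a dense set. -/
theorem exists_near_unit {D : Set (E →L[ℝ] ℝ)} (hD : Dense D) {g : E →L[ℝ] ℝ} (hg : ‖g‖ = 1)
    {θ : ℝ} (hθ : 0 < θ) (hθ1 : θ ≤ 1 / 2) :
    ∃ d ∈ D, d ≠ 0 ∧ ‖g - ‖d‖⁻¹ • d‖ < 2 * θ := by
  obtain ⟨d, hdD, hd⟩ := Metric.mem_closure_iff.1 (hD g) θ hθ
  rw [dist_eq_norm] at hd
  have hdn : |‖d‖ - 1| < θ := by
    rw [← hg]
    have h1 := abs_norm_sub_norm_le d g
    rw [norm_sub_rev] at h1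
    linarith
  have hd0 : d ≠ 0 := by
    rintro rfl
    rw [norm_zero, zero_sub, abs_neg, abs_one] at hdn
    linarith
  have hdpos : 0 < ‖d‖ := norm_pos_iff.2 hd0
  refine ⟨d, hdD, hd0, ?_⟩
  have h1 : d - ‖d‖⁻¹ • d = (1 - ‖d‖⁻¹) • d := by module
  have h2 : ‖d - ‖d‖⁻¹ • d‖ < θ := by
    rw [h1, norm_smul, Real.norm_eq_abs]
    have h21 : |1 - ‖d‖⁻¹| * ‖d‖ = |1 - ‖d‖⁻¹| * |‖d‖| := by rw [abs_of_pos hdpos]
    rw [h21, ← abs_mul, sub_mul, inv_mul_cancel₀ hdpos.ne', one_mul]
    exact hdn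
  have h3 : g - ‖d‖⁻¹ • d = (g - d) + (d - ‖d‖⁻¹ • d) := by abel
  rw [h3]
  exact lt_of_le_of_lt (norm_add_le _ _) (by linarith)

/-- Every polyhedral Banach space has polyhedral renormings, arbitrarily close to the given norm,
in which the extreme points generate the unit ball up to an arbitrarily small factor. -/
theorem IsPolyhedral.exists_almost [CompleteSpace E] (hE : IsPolyhedral E) {R : ℝ} (hR : 0 < R)
    {ε : ℝ} (hε : 0 < ε) (hε1 : ε < 1) :
    ∃ (X : Type u) (_ : NormedAddCommGroup X) (_ : NormedSpace ℝ X), ∃ T : E ≃L[ℝ] X,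
      (∀ x, ‖T x‖ ≤ ‖x‖ ∧ ‖x‖ ≤ (1 + R) * ‖T x‖) ∧ IsPolyhedral X ∧
      ∀ x ∈ Metric.closedBall (0 : X) 1, (1 - ε) • x ∈
        closure (convexHull ℝ (Set.extremePoints ℝ (Metric.closedBall (0 : X) 1))) := by
  classical
  by_cases hfd : FiniteDimensional ℝ E
  · refine ⟨E, inferInstance, inferInstance, ContinuousLinearEquiv.refl ℝ E, fun x => ?_,
      hE, ?_⟩
    · have : (ContinuousLinearEquiv.refl ℝ E) x = x := rfl
      rw [this]
      have h0 := norm_nonneg x
      exact ⟨le_rfl, by nlinarith⟩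
    · have : ProperSpace E := FiniteDimensional.proper_real E
      rw [closure_convexHull_extremePoints (isCompact_closedBall (0 : E) 1)
        (convex_closedBall _ _)]
      intro x hx
      rw [mem_closedBall_zero_iff] at hx ⊢
      rw [norm_smul, Real.norm_eq_abs, abs_of_pos (by linarith)]
      nlinarith [norm_nonneg x]
  obtain ⟨D, hD, hsmall⟩ := exists_minimal_dense hfd
  set ε₁ : ℝ := ε / 2 with hε₁
  let ι : Type u := {d : E →L[ℝ] ℝ // d ∈ D ∧ d ≠ 0}
  let G : ι → (E →L[ℝ] ℝ) := fun i => ‖(i : E →L[ℝ] ℝ)‖⁻¹ • (i : E →L[ℝ] ℝ)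
  have hG : ∀ i, ‖G i‖ = 1 := by
    intro i
    show ‖‖(i : E →L[ℝ] ℝ)‖⁻¹ • (i : E →L[ℝ] ℝ)‖ = 1
    rw [norm_smul, norm_inv, norm_norm, inv_mul_cancel₀ (norm_ne_zero_iff.2 i.2.2)]
  have hι : #ι ≤ #D := mk_subtype_mono (fun d hd => hd.1)
  obtain ⟨lo, c, hc⟩ := rec_select
    (fun (i : ι) (A : Set (E →L[ℝ] ℝ)) (a : E →L[ℝ] ℝ) =>
      a ∈ SliceF (G i) ε₁ ∧ ∀ ζ ∈ Submodule.span ℝ A, ε₁ / 128 ≤ ‖a - ζ‖)
    (fun i A hA => by
      have hne := hsmall A (hA.trans_le hι) (G i)
      obtain ⟨a, ha1, ha2⟩ := hE.exists_far (hG i) (ε := ε₁) (by positivity) (by linarith)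
        (Submodule.span ℝ (insert (G i) A)).topologicalClosure
        (Submodule.isClosed_topologicalClosure _) hne
        (Submodule.le_topologicalClosure _ (Submodule.subset_span (Set.mem_insert _ _)))
      refine ⟨a, ha1, fun ζ hζ => ha2 ζ ?_⟩
      exact Submodule.le_topologicalClosure _
        (Submodule.span_mono (Set.subset_insert _ _) hζ))
  have hcS := fun i => (hc i).1
  choose z hz1 hz2 hz3 using hcS
  have hsep1 : ∀ i j, j < i → ε₁ / 128 ≤ ‖c i - c j‖ ∧ ε₁ / 128 ≤ ‖c i + c j‖ := by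
    intro i j hji
    have hmem : c j ∈ Submodule.span ℝ (c '' Iio i) := Submodule.subset_span ⟨j, hji, rfl⟩
    refine ⟨(hc i).2 _ hmem, ?_⟩
    have := (hc i).2 _ (Submodule.neg_mem _ hmem)
    rwa [sub_neg_eq_add] at this
  have hsep : ∀ i j, i ≠ j → ε₁ / 128 ≤ ‖c i - c j‖ ∧ ε₁ / 128 ≤ ‖c i + c j‖ := by
    intro i j hij
    rcases lt_or_gt_of_ne hij with h | h
    · have := hsep1 j i h
      rw [norm_sub_rev, add_comm] at this
      exact this
    · exact hsep1 i j h
  obtain ⟨f, y, δ, hsp, hδR, hyz⟩ := exists_spikes_of_family c z hz1 hz2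
    (fun _ => ε₁ / 128) (fun _ => by positivity) hsep hR
  have hreach : ∀ g : E →L[ℝ] ℝ, ‖g‖ = 1 → ∃ j, 1 - ε < g (y j) := by
    intro g hg
    obtain ⟨d, hdD, hd0, hd⟩ := exists_near_unit hD hg (θ := ε / 8) (by positivity) (by linarith)
    set i : ι := ⟨d, hdD, hd0⟩ with hi
    obtain ⟨j, t, ht, hj⟩ := hyz i
    refine ⟨j, ?_⟩
    have h1 : 1 - ε₁ < G i (z i) := hz3 i
    have h2 : |(g - G i) (z i)| < 2 * (ε / 8) := by
      have := (g - G i).le_of_opNorm_le le_rfl (z i)
      rw [hz1 i, mul_one, Real.norm_eq_abs] at this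
      exact lt_of_le_of_lt this hd
    rw [sub_apply] at h2
    have h3 := (abs_lt.1 h2).1
    have h4 : 1 - ε < g (z i) := by
      rw [hε₁] at h1
      linarith
    rw [hj, map_smul, smul_eq_mul]
    nlinarith
  have hJ : Nonempty (ι × Bool) := by
    have hnt : ∃ x : E, x ≠ 0 := by
      by_contra hcon
      push Not at hcon
      apply hfd
      have : Subsingleton E := ⟨fun a b => by rw [hcon a, hcon b]⟩
      infer_instance
    obtain ⟨x₁, hx₁⟩ := hnt
    obtain ⟨g₁, hg₁, _⟩ := exists_dual_vector ℝ x₁ (norm_ne_zero_iff.2 hx₁)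
    obtain ⟨j, _⟩ := hreach g₁ hg₁
    exact ⟨j⟩
  have hbody := hsp.isBody hE hR.le hδR
  obtain ⟨X, i1, i2, T, hT1, hT2⟩ := hbody.exists_renorm
  refine ⟨X, i1, i2, T, hT2, transport_poly T hT1 (fun G hG => hsp.section_finite hE G hG),
    transport_approx T hT1 (hsp.generated (by linarith) (by linarith) hreach)⟩

/-- If the functionals which coincide with the norm on an open set are isolated from each other,
then the space has polyhedral renormings, arbitrarily close to the given norm, whose unit ball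
is generated by its extreme points. -/
theorem IsPolyhedral.exists_generated_of_discrete [CompleteSpace E] (hE : IsPolyhedral E)
    (hdisc : ∀ (f : E →L[ℝ] ℝ) (z : E), StrictN f z → ∃ r : ℝ, 0 < r ∧
      ∀ (f' : E →L[ℝ] ℝ) (z' : E), StrictN f' z' → f' ≠ f → r ≤ ‖f' - f‖)
    {R : ℝ} (hR : 0 < R) :
    ∃ (X : Type u) (_ : NormedAddCommGroup X) (_ : NormedSpace ℝ X), ∃ T : E ≃L[ℝ] X,
      (∀ x, ‖T x‖ ≤ ‖x‖ ∧ ‖x‖ ≤ (1 + R) * ‖T x‖) ∧ IsPolyhedral X ∧
      Metric.closedBall (0 : X) 1 =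
        closure (convexHull ℝ (Set.extremePoints ℝ (Metric.closedBall (0 : X) 1))) := by
  classical
  by_cases hfd : FiniteDimensional ℝ E
  · refine ⟨E, inferInstance, inferInstance, ContinuousLinearEquiv.refl ℝ E, fun x => ?_,
      hE, ?_⟩
    · have : (ContinuousLinearEquiv.refl ℝ E) x = x := rfl
      rw [this]
      have h0 := norm_nonneg x
      exact ⟨le_rfl, by nlinarith⟩
    · have : ProperSpace E := FiniteDimensional.proper_real E
      exact (closure_convexHull_extremePoints (isCompact_closedBall (0 : E) 1)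
        (convex_closedBall _ _)).symm
  obtain ⟨D, hD, hsmall⟩ := exists_minimal_dense hfd
  have hDinf : ℵ₀ ≤ #D := by
    by_contra hlt
    push Not at hlt
    have hfin : D.Finite := Cardinal.lt_aleph0_iff_set_finite.1 hlt
    apply hfd
    refine finiteDimensional_of_span hfin (fun φ => ?_)
    have h1 : φ ∈ closure D := hD φ
    exact closure_mono Submodule.subset_span h1
  let ι : Type u := {d : E →L[ℝ] ℝ // d ∈ D ∧ d ≠ 0} × ℕ
  let G : ι → (E →L[ℝ] ℝ) := fun i => ‖(i.1 : E →L[ℝ] ℝ)‖⁻¹ • (i.1 : E →L[ℝ] ℝ)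
  let e : ι → ℝ := fun i => 1 / ((i.2 : ℝ) + 1)
  have hG : ∀ i, ‖G i‖ = 1 := by
    intro i
    show ‖‖(i.1 : E →L[ℝ] ℝ)‖⁻¹ • (i.1 : E →L[ℝ] ℝ)‖ = 1
    rw [norm_smul, norm_inv, norm_norm, inv_mul_cancel₀ (norm_ne_zero_iff.2 i.1.2.2)]
  have he : ∀ i, 0 < e i := fun i => by
    show 0 < 1 / ((i.2 : ℝ) + 1)
    positivity
  have he1 : ∀ i, e i ≤ 1 := fun i => by
    show 1 / ((i.2 : ℝ) + 1) ≤ 1
    have : (0 : ℝ) ≤ i.2 := Nat.cast_nonneg _
    rw [div_le_one (by linarith)]
    linarith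
  have hι : #ι ≤ #D := by
    show #({d : E →L[ℝ] ℝ // d ∈ D ∧ d ≠ 0} × ℕ) ≤ #D
    rw [mk_prod, Cardinal.lift_id', mk_nat, Cardinal.lift_aleph0]
    have h1 : #{d : E →L[ℝ] ℝ // d ∈ D ∧ d ≠ 0} ≤ #D := mk_subtype_mono (fun d hd => hd.1)
    calc #{d : E →L[ℝ] ℝ // d ∈ D ∧ d ≠ 0} * ℵ₀ ≤ #D * #D := mul_le_mul' h1 hDinf
      _ = #D := mul_eq_self hDinf
  obtain ⟨lo, c, hc⟩ := rec_select
    (fun (i : ι) (A : Set (E →L[ℝ] ℝ)) (a : E →L[ℝ] ℝ) =>
      a ∈ SliceF (G i) (e i) ∧ ∀ ζ ∈ Submodule.span ℝ A, e i / 128 ≤ ‖a - ζ‖)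
    (fun i A hA => by
      have hne := hsmall A (hA.trans_le hι) (G i)
      obtain ⟨a, ha1, ha2⟩ := hE.exists_far (hG i) (he i) (he1 i)
        (Submodule.span ℝ (insert (G i) A)).topologicalClosure
        (Submodule.isClosed_topologicalClosure _) hne
        (Submodule.le_topologicalClosure _ (Submodule.subset_span (Set.mem_insert _ _)))
      refine ⟨a, ha1, fun ζ hζ => ha2 ζ ?_⟩
      exact Submodule.le_topologicalClosure _
        (Submodule.span_mono (Set.subset_insert _ _) hζ))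
  have hcS := fun i => (hc i).1
  choose z hz1 hz2 hz3 using hcS
  have hne1 : ∀ i j, j < i → c i ≠ c j ∧ c i ≠ -c j := by
    intro i j hji
    have hmem : c j ∈ Submodule.span ℝ (c '' Iio i) := Submodule.subset_span ⟨j, hji, rfl⟩
    have hpos : 0 < e i / 128 := by have := he i; positivity
    constructor
    · intro h
      have := (hc i).2 _ hmem
      rw [h, sub_self, norm_zero] at this
      linarith
    · intro h
      have := (hc i).2 _ (Submodule.neg_mem _ hmem)
      rw [h, sub_self, norm_zero] at this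
      linarith
  have hne : ∀ i j, i ≠ j → c i ≠ c j ∧ c i ≠ -c j := by
    intro i j hij
    rcases lt_or_gt_of_ne hij with h | h
    · have := hne1 j i h
      exact ⟨this.1.symm, fun h' => this.2 (by rw [h', neg_neg])⟩
    · exact hne1 i j h
  have hr := fun i => hdisc (c i) (z i) (hz2 i)
  choose r hr0 hr using hr
  have hstrneg : ∀ i, StrictN (-c i) (-z i) := by
    intro i
    obtain ⟨ρ, hρ, hloc⟩ := hz2 i
    refine ⟨ρ, hρ, fun w hw => ?_⟩
    have h1 := hloc (-w) (by
      have : -w - z i = -(w - -z i) := by abel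
      rwa [this, norm_neg])
    rw [norm_neg, map_neg] at h1
    rw [h1, neg_apply]
  have hsep : ∀ i j, i ≠ j → r i ≤ ‖c i - c j‖ ∧ r i ≤ ‖c i + c j‖ := by
    intro i j hij
    have h1 := hne i j hij
    constructor
    · have := hr i (c j) (z j) (hz2 j) h1.1.symm
      rwa [norm_sub_rev] at this
    · have := hr i (-c j) (-z j) (hstrneg j) h1.2.symm
      have h2 : -c j - c i = -(c i + c j) := by abel
      rwa [h2, norm_neg] at this
  obtain ⟨f, y, δ, hsp, hδR, hyz⟩ := exists_spikes_of_family c z hz1 hz2 r hr0 hsep hR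
  have hreach : ∀ g : E →L[ℝ] ℝ, ‖g‖ = 1 → ∀ ε : ℝ, 0 < ε → ε < 1 → ∃ j, 1 - ε < g (y j) := by
    intro g hg ε hε hε1
    obtain ⟨d, hdD, hd0, hd⟩ := exists_near_unit hD hg (θ := ε / 8) (by positivity) (by linarith)
    obtain ⟨n, hn⟩ := exists_nat_one_div_lt (show (0 : ℝ) < ε / 2 by positivity)
    set i : ι := (⟨d, hdD, hd0⟩, n) with hi
    obtain ⟨j, t, ht, hj⟩ := hyz i
    refine ⟨j, ?_⟩
    have h1 : 1 - e i < G i (z i) := hz3 i
    have h1' : e i < ε / 2 := hn
    have h2 : |(g - G i) (z i)| < 2 * (ε / 8) := by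
      have := (g - G i).le_of_opNorm_le le_rfl (z i)
      rw [hz1 i, mul_one, Real.norm_eq_abs] at this
      exact lt_of_le_of_lt this hd
    rw [sub_apply] at h2
    have h3 := (abs_lt.1 h2).1
    have h4 : 1 - ε < g (z i) := by linarith
    rw [hj, map_smul, smul_eq_mul]
    nlinarith
  have hJ : Nonempty (ι × Bool) := by
    have hnt : ∃ x : E, x ≠ 0 := by
      by_contra hcon
      push Not at hcon
      apply hfd
      have : Subsingleton E := ⟨fun a b => by rw [hcon a, hcon b]⟩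
      infer_instance
    obtain ⟨x₁, hx₁⟩ := hnt
    obtain ⟨g₁, hg₁, _⟩ := exists_dual_vector ℝ x₁ (norm_ne_zero_iff.2 hx₁)
    obtain ⟨j, _⟩ := hreach g₁ hg₁ (1 / 2) (by norm_num) (by norm_num)
    exact ⟨j⟩
  have hbody := hsp.isBody hE hR.le hδR
  obtain ⟨X, i1, i2, T, hT1, hT2⟩ := hbody.exists_renorm
  refine ⟨X, i1, i2, T, hT2, transport_poly T hT1 (fun G hG => hsp.section_finite hE G hG), ?_⟩
  refine (transport T hT1 (fun G hG => hsp.section_finite hE G hG) ?_).2
  apply Subset.antisymm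
  · intro x hx
    have htend : Tendsto (fun n : ℕ => (1 - 1 / ((n : ℝ) + 2)) • x) atTop
        (𝓝 ((1 - 0 : ℝ) • x)) := by
      have h0 : Tendsto (fun n : ℕ => 1 / ((n : ℝ) + 2)) atTop (𝓝 0) := by
        have h1 := (tendsto_one_div_add_atTop_nhds_zero_nat (𝕜 := ℝ)).comp
          (tendsto_add_atTop_nat 1)
        refine h1.congr (fun n => ?_)
        show 1 / (((n + 1 : ℕ) : ℝ) + 1) = 1 / ((n : ℝ) + 2)
        push_cast
        ring_nf
      exact (h0.const_sub 1).smul_const x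
    rw [sub_zero, one_smul] at htend
    refine isClosed_closure.mem_of_tendsto htend (Eventually.of_forall (fun n => ?_))
    have hn : (0 : ℝ) ≤ n := Nat.cast_nonneg n
    have hlt : 1 / ((n : ℝ) + 2) < 1 := by rw [div_lt_one (by linarith)]; linarith
    have hpos : 0 < 1 / ((n : ℝ) + 2) := by positivity
    exact hsp.generated (ρ := 1 - 1 / ((n : ℝ) + 2)) (by linarith) (by linarith)
      (fun g hg => hreach g hg _ hpos hlt) x hx
  · exact closure_minimal (convexHull_min extremePoints_subset hsp.convex) (hsp.isClosed hE)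

end Pool.Agent.Lib.MP_a60229_an
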