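import Pool.Agent.Lib.MP_a60229_an.Body

set_option autoImplicit false
universe u

namespace Pool.Agent.Lib.MP_a60229_an

open Metric Set Filter Topology

variable {E : Type u} [NormedAddCommGroup E] [NormedSpace ℝ E]

/-- Weights of a point in the convex hull of a finite set. -/
theorem exists_weights {V : Set E} (hV : V.Finite) {x : E} (hx : x ∈ convexHull ℝ V) :
    ∃ w : E → ℝ, (∀ y ∈ V, 0 ≤ w y) ∧ ∑ y ∈ hV.toFinset, w y = 1 ∧
      ∑ y ∈ hV.toFinset, w y • y = x := by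
  rw [hV.convexHull_eq] at hx
  obtain ⟨w, h1, h2, h3⟩ := hx
  refine ⟨w, h1, h2, ?_⟩
  rwa [Finset.centerMass_eq_of_sum_1 _ _ h2] at h3

/-- A norm-one functional which attains its norm at a convex combination of points of the ball
takes the value one at each point of positive weight. -/
theorem eq_one_of_weight {V : Set E} (hV : V.Finite) (hVb : ∀ y ∈ V, ‖y‖ ≤ 1) {g : E →L[ℝ] ℝ}
    (hg : ‖g‖ ≤ 1) {w : E → ℝ} (hw : ∀ y ∈ V, 0 ≤ w y) (hsum : ∑ y ∈ hV.toFinset, w y = 1)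
    (hgx : g (∑ y ∈ hV.toFinset, w y • y) = 1) {y : E} (hy : y ∈ V) (hwy : 0 < w y) :
    g y = 1 := by
  have hle : ∀ z ∈ V, g z ≤ 1 := by
    intro z hz
    have h1 := g.le_of_opNorm_le hg z
    rw [one_mul] at h1
    exact (le_abs_self _).trans (h1.trans (hVb z hz))
  have h2 : ∑ z ∈ hV.toFinset, w z * (1 - g z) = 0 := by
    have h3 : ∑ z ∈ hV.toFinset, w z * g z = 1 := by
      rw [← hgx, map_sum]
      exact Finset.sum_congr rfl (fun z _ => by rw [map_smul, smul_eq_mul])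
    have h4 : ∑ z ∈ hV.toFinset, w z * (1 - g z)
        = ∑ z ∈ hV.toFinset, w z - ∑ z ∈ hV.toFinset, w z * g z := by
      rw [← Finset.sum_sub_distrib]
      exact Finset.sum_congr rfl (fun z _ => by ring)
    rw [h4, hsum, h3, sub_self]
  have h5 := (Finset.sum_eq_zero_iff_of_nonneg (fun z hz => by
    have hzV := hV.mem_toFinset.1 hz
    exact mul_nonneg (hw z hzV) (by have := hle z hzV; linarith))).1 h2 y
      (hV.mem_toFinset.2 hy)
  rcases mul_eq_zero.1 h5 with h | h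
  · exact absurd h hwy.ne'
  · linarith

/-- Norming functional of a point, also at zero. -/
theorem exists_norming (x : E) : ∃ g : E →L[ℝ] ℝ, ‖g‖ ≤ 1 ∧ g x = ‖x‖ := by
  rcases eq_or_ne x 0 with rfl | hx
  · exact ⟨0, by simp, by simp⟩
  · obtain ⟨g, h1, h2⟩ := exists_dual_vector ℝ x (norm_ne_zero_iff.2 hx)
    exact ⟨g, h1.le, by simpa using h2⟩

theorem apply_le_norm {g : E →L[ℝ] ℝ} (hg : ‖g‖ ≤ 1) (x : E) : g x ≤ ‖x‖ := by
  have h1 := g.le_of_opNorm_le hg x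
  rw [one_mul] at h1
  exact (le_abs_self _).trans h1

/-- In a polyhedral space each segment starts with a piece normed by one functional. -/
theorem IsPolyhedral.initial (hE : IsPolyhedral E) (x v : E) :
    ∃ t₀ : ℝ, 0 < t₀ ∧ ∃ g : E →L[ℝ] ℝ, ‖g‖ ≤ 1 ∧
      ∀ t : ℝ, 0 ≤ t → t ≤ t₀ → g (x + t • v) = ‖x + t • v‖ := by
  classical
  set G : Submodule ℝ E := Submodule.span ℝ {x, v} with hG
  have hxG : x ∈ G := Submodule.subset_span (by simp)
  have hvG : v ∈ G := Submodule.subset_span (by simp)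
  have hGf : FiniteDimensional ℝ G :=
    FiniteDimensional.span_of_finite ℝ (Set.toFinite {x, v})
  obtain ⟨V, hVfin, hV⟩ := hE.exists_finite G
  have hVb : ∀ y ∈ V, ‖y‖ ≤ 1 := by
    intro y hy
    have : y ∈ convexHull ℝ V := subset_convexHull ℝ _ hy
    rw [hV] at this
    exact mem_closedBall_zero_iff.1 this.1
  -- the sequence of points
  let p : ℕ → E := fun n => x + (1 / ((n : ℝ) + 1)) • v
  by_cases hz : ∃ᶠ n in atTop, p n = 0
  · -- infinitely many vanish: then `v = 0` or `x = 0`; handle directly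
    obtain ⟨n, -, hn⟩ := (frequently_atTop.1 hz) 0
    obtain ⟨m, hm, hm'⟩ := (frequently_atTop.1 hz) (n + 1)
    have h1 : x + (1 / ((n : ℝ) + 1)) • v = 0 := hn
    have h2 : x + (1 / ((m : ℝ) + 1)) • v = 0 := hm'
    have h3 : ((1 / ((n : ℝ) + 1)) - (1 / ((m : ℝ) + 1))) • v = 0 := by
      rw [sub_smul]
      have : (1 / ((n : ℝ) + 1)) • v - (1 / ((m : ℝ) + 1)) • v
          = (x + (1 / ((n : ℝ) + 1)) • v) - (x + (1 / ((m : ℝ) + 1)) • v) := by abel
      rw [this, h1, h2, sub_zero]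
    have hnm : (n : ℝ) < m := by exact_mod_cast hm
    have hne : (1 / ((n : ℝ) + 1)) - (1 / ((m : ℝ) + 1)) ≠ 0 := by
      have hn0 : (0 : ℝ) ≤ n := Nat.cast_nonneg n
      have : 1 / ((m : ℝ) + 1) < 1 / ((n : ℝ) + 1) :=
        one_div_lt_one_div_of_lt (by linarith) (by linarith)
      linarith [this]
    have hv0 : v = 0 := (smul_eq_zero.1 h3).resolve_left hne
    obtain ⟨g, hg1, hg2⟩ := exists_norming x
    refine ⟨1, one_pos, g, hg1, fun t _ _ => ?_⟩
    rw [hv0, smul_zero, add_zero, hg2]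
  · rw [not_frequently] at hz
    obtain ⟨N, hN⟩ := eventually_atTop.1 hz
    -- normalised points belong to the polytope
    have hmem : ∀ n, ‖p (n + N)‖⁻¹ • p (n + N) ∈ convexHull ℝ V := by
      intro n
      rw [hV]
      have hpn : p (n + N) ≠ 0 := hN _ (by omega)
      refine ⟨?_, G.smul_mem _ (G.add_mem hxG (G.smul_mem _ hvG))⟩
      rw [mem_closedBall_zero_iff, norm_smul, norm_inv, norm_norm,
        inv_mul_cancel₀ (norm_ne_zero_iff.2 hpn)]
    choose w hw1 hw2 hw3 using fun n => exists_weights hVfin (hmem n)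
    have hfinS : Finite {S : Set E // S ⊆ V} := hVfin.finite_subsets.to_subtype
    let F : ℕ → {S : Set E // S ⊆ V} := fun n => ⟨{y | y ∈ V ∧ 0 < w n y}, fun y hy => hy.1⟩
    obtain ⟨S, hS⟩ := Finite.exists_infinite_fiber F
    have hSinf : (F ⁻¹' {S}).Infinite := Set.infinite_coe_iff.1 hS
    obtain ⟨n₀, hn₀⟩ := hSinf.nonempty
    have hn₀' : F n₀ = S := hn₀
    obtain ⟨g, hg1, hg2⟩ := exists_norming (p (n₀ + N))
    have hp0 : p (n₀ + N) ≠ 0 := hN _ (by omega)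
    have hgS : ∀ y ∈ (S : Set E), g y = 1 := by
      intro y hy
      rw [← hn₀'] at hy
      refine eq_one_of_weight hVfin hVb hg1 (hw1 n₀) (hw2 n₀) ?_ hy.1 hy.2
      rw [hw3 n₀, map_smul, hg2, smul_eq_mul, inv_mul_cancel₀ (norm_ne_zero_iff.2 hp0)]
    have hfib : ∀ n, F n = S → g (p (n + N)) = ‖p (n + N)‖ := by
      intro n hn
      have hpn : p (n + N) ≠ 0 := hN _ (by omega)
      have hpn' : ‖p (n + N)‖ ≠ 0 := norm_ne_zero_iff.2 hpn
      have h1 : g (‖p (n + N)‖⁻¹ • p (n + N)) = 1 := by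
        rw [← hw3 n, map_sum]
        have h2 : ∀ y ∈ hVfin.toFinset, g (w n y • y) = w n y := by
          intro y hy
          have hyV := hVfin.mem_toFinset.1 hy
          rw [map_smul, smul_eq_mul]
          rcases lt_or_eq_of_le (hw1 n y hyV) with hlt | heq
          · have : y ∈ (S : Set E) := by
              rw [← hn]; exact ⟨hyV, hlt⟩
            rw [hgS y this, mul_one]
          · rw [← heq, zero_mul]
        rw [Finset.sum_congr rfl h2, hw2 n]
      rw [map_smul, smul_eq_mul] at h1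
      field_simp at h1
      exact h1
    -- the closed set of good parameters
    have hcl : IsClosed {t : ℝ | g (x + t • v) = ‖x + t • v‖} :=
      isClosed_eq (by fun_prop) (by fun_prop)
    have htend : Tendsto (fun n : ℕ => (1 : ℝ) / (((n + N : ℕ) : ℝ) + 1)) atTop (𝓝 0) :=
      (tendsto_one_div_add_atTop_nhds_zero_nat (𝕜 := ℝ)).comp (tendsto_add_atTop_nat N)
    have hfreq : ∃ᶠ n : ℕ in atTop, (1 : ℝ) / (((n + N : ℕ) : ℝ) + 1) ∈
        {t : ℝ | g (x + t • v) = ‖x + t • v‖} := by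
      have : ∃ᶠ n in atTop, n ∈ F ⁻¹' {S} := Nat.frequently_atTop_iff_infinite.2 hSinf
      refine this.mono (fun n hn => ?_)
      exact hfib n hn
    have hzero : g x = ‖x‖ := by
      have := hcl.mem_of_frequently_of_tendsto hfreq htend
      simpa using this
    have ht₀ : (0 : ℝ) < 1 / (((n₀ + N : ℕ) : ℝ) + 1) := by positivity
    refine ⟨1 / (((n₀ + N : ℕ) : ℝ) + 1), ht₀, g, hg1, fun t ht0 ht1 => ?_⟩
    refine le_antisymm (apply_le_norm hg1 _) ?_
    set t₀ : ℝ := 1 / (((n₀ + N : ℕ) : ℝ) + 1) with ht₀def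
    have hg3 : g (x + t₀ • v) = ‖x + t₀ • v‖ := hfib n₀ hn₀'
    have hs0 : 0 ≤ t / t₀ := by positivity
    have hs1 : t / t₀ ≤ 1 := (div_le_one ht₀).2 ht1
    have hdec : x + t • v = (1 - t / t₀) • x + (t / t₀) • (x + t₀ • v) := by
      have h1 : (t / t₀) * t₀ = t := div_mul_cancel₀ _ ht₀.ne'
      rw [smul_add, smul_smul, h1, sub_smul, one_smul]
      abel
    calc ‖x + t • v‖ = ‖(1 - t / t₀) • x + (t / t₀) • (x + t₀ • v)‖ := by rw [← hdec]
      _ ≤ (1 - t / t₀) * ‖x‖ + (t / t₀) * ‖x + t₀ • v‖ := by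
        refine (norm_add_le _ _).trans ?_
        rw [norm_smul, norm_smul, Real.norm_eq_abs, Real.norm_eq_abs,
          abs_of_nonneg (by linarith), abs_of_nonneg hs0]
      _ = g ((1 - t / t₀) • x + (t / t₀) • (x + t₀ • v)) := by
        rw [map_add, map_smul, map_smul, smul_eq_mul, smul_eq_mul, hzero, hg3]
      _ = g (x + t • v) := by rw [← hdec]

/-- `f` coincides with the norm near `z`. -/
def StrictN (f : E →L[ℝ] ℝ) (z : E) : Prop :=
  ∃ ρ : ℝ, 0 < ρ ∧ ∀ w : E, ‖w - z‖ < ρ → ‖w‖ = f w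

/-- Baire category theorem on a closed subspace, for a countable closed cover. -/
theorem baire_closed [CompleteSpace E] (S : Submodule ℝ E) (hS : IsClosed (S : Set E))
    (F : ℕ → Set E) (hF : ∀ m, IsClosed (F m)) (hcov : ∀ v ∈ S, ∃ m, v ∈ F m) :
    ∃ m, ∃ v₀ ∈ S, ∃ ρ : ℝ, 0 < ρ ∧ ∀ v ∈ S, ‖v - v₀‖ < ρ → v ∈ F m := by
  have hSc : CompleteSpace S := hS.completeSpace_coe
  obtain ⟨m, hm⟩ := nonempty_interior_of_iUnion_of_closed
    (f := fun m => ((↑) : S → E) ⁻¹' F m) (fun m => (hF m).preimage continuous_subtype_val)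
    (by
      rw [Set.eq_univ_iff_forall]
      intro v
      obtain ⟨m, hm⟩ := hcov v v.2
      exact Set.mem_iUnion.2 ⟨m, hm⟩)
  obtain ⟨v₀, hv₀⟩ := hm
  obtain ⟨ρ, hρ, hball⟩ := Metric.mem_nhds_iff.1 (mem_interior_iff_mem_nhds.1 hv₀)
  refine ⟨m, v₀, v₀.2, ρ, hρ, fun v hv hlt => ?_⟩
  have : (⟨v, hv⟩ : S) ∈ ball v₀ ρ := by
    rw [mem_ball, dist_eq_norm]
    exact hlt
  exact hball this

/-- If the norm has no kink at `x` in any direction of the closed subspace `S`, then it is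
affine near `x` on `S`. -/
theorem flat [CompleteSpace E] (S : Submodule ℝ E) (hS : IsClosed (S : Set E)) (x : E)
    (h : ∀ v ∈ S, ∃ t : ℝ, 0 < t ∧ ‖x + t • v‖ + ‖x - t • v‖ ≤ 2 * ‖x‖) :
    ∃ ρ : ℝ, 0 < ρ ∧ ∀ w ∈ S, ‖w‖ < ρ → ‖x + w‖ + ‖x - w‖ ≤ 2 * ‖x‖ := by
  -- shrinking the parameter keeps the property
  have hshrink : ∀ v : E, ∀ s t : ℝ, 0 ≤ s → s ≤ t → 0 < t →
      ‖x + t • v‖ + ‖x - t • v‖ ≤ 2 * ‖x‖ → ‖x + s • v‖ + ‖x - s • v‖ ≤ 2 * ‖x‖ := by
    intro v s t hs hst ht hle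
    have h0 : 0 ≤ s / t := by positivity
    have h1 : s / t ≤ 1 := (div_le_one ht).2 hst
    have hm : (s / t) * t = s := div_mul_cancel₀ _ ht.ne'
    have e1 : x + s • v = (1 - s / t) • x + (s / t) • (x + t • v) := by
      rw [smul_add, smul_smul, hm]; module
    have e2 : x - s • v = (1 - s / t) • x + (s / t) • (x - t • v) := by
      rw [smul_sub, smul_smul, hm]; module
    have n1 : ‖x + s • v‖ ≤ (1 - s / t) * ‖x‖ + (s / t) * ‖x + t • v‖ := by
      rw [e1]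
      refine (norm_add_le _ _).trans ?_
      rw [norm_smul, norm_smul, Real.norm_eq_abs, Real.norm_eq_abs,
        abs_of_nonneg (by linarith), abs_of_nonneg h0]
    have n2 : ‖x - s • v‖ ≤ (1 - s / t) * ‖x‖ + (s / t) * ‖x - t • v‖ := by
      rw [e2]
      refine (norm_add_le _ _).trans ?_
      rw [norm_smul, norm_smul, Real.norm_eq_abs, Real.norm_eq_abs,
        abs_of_nonneg (by linarith), abs_of_nonneg h0]
    nlinarith
  obtain ⟨m, v₀, hv₀, ρ, hρ, hball⟩ := baire_closed S hS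
    (fun m => {v | ‖x + (1 / ((m : ℝ) + 1)) • v‖ + ‖x - (1 / ((m : ℝ) + 1)) • v‖ ≤ 2 * ‖x‖})
    (fun m => isClosed_le (by fun_prop) (by fun_prop)) (by
      intro v hv
      obtain ⟨t, ht, hle⟩ := h v hv
      obtain ⟨m, hm⟩ := exists_nat_one_div_lt ht
      exact ⟨m, hshrink v _ t (by positivity) hm.le ht hle⟩)
  have hm0 : (0 : ℝ) < (m : ℝ) + 1 := by positivity
  refine ⟨ρ / ((m : ℝ) + 1), by positivity, fun w hw hlt => ?_⟩
  set e : ℝ := 1 / ((m : ℝ) + 1) with he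
  have he0 : 0 < e := by positivity
  have hw' : ‖((m : ℝ) + 1) • w‖ < ρ := by
    rw [norm_smul, Real.norm_eq_abs, abs_of_pos hm0]
    rw [lt_div_iff₀ hm0] at hlt
    linarith
  have h1 : ‖x + e • (v₀ + ((m : ℝ) + 1) • w)‖ + ‖x - e • (v₀ + ((m : ℝ) + 1) • w)‖
      ≤ 2 * ‖x‖ := by
    refine hball _ (S.add_mem hv₀ (S.smul_mem _ hw)) ?_
    rwa [add_sub_cancel_left]
  have h2 : ‖x + e • (v₀ - ((m : ℝ) + 1) • w)‖ + ‖x - e • (v₀ - ((m : ℝ) + 1) • w)‖
      ≤ 2 * ‖x‖ := by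
    refine hball _ (S.sub_mem hv₀ (S.smul_mem _ hw)) ?_
    rw [sub_sub_cancel_left, norm_neg]
    exact hw'
  have hem : e * ((m : ℝ) + 1) = 1 := by rw [he]; field_simp
  have e1 : x + w = (1 / 2 : ℝ) • (x + e • (v₀ + ((m : ℝ) + 1) • w))
      + (1 / 2 : ℝ) • (x - e • (v₀ - ((m : ℝ) + 1) • w)) := by
    have : e • ((m : ℝ) + 1) • w = w := by rw [smul_smul, hem, one_smul]
    rw [smul_add e, smul_sub e, this]
    module
  have e2 : x - w = (1 / 2 : ℝ) • (x - e • (v₀ + ((m : ℝ) + 1) • w))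
      + (1 / 2 : ℝ) • (x + e • (v₀ - ((m : ℝ) + 1) • w)) := by
    have : e • ((m : ℝ) + 1) • w = w := by rw [smul_smul, hem, one_smul]
    rw [smul_add e, smul_sub e, this]
    module
  have n1 : ‖x + w‖ ≤ 1 / 2 * ‖x + e • (v₀ + ((m : ℝ) + 1) • w)‖
      + 1 / 2 * ‖x - e • (v₀ - ((m : ℝ) + 1) • w)‖ := by
    rw [e1]
    refine (norm_add_le _ _).trans ?_
    rw [norm_smul, norm_smul, Real.norm_eq_abs, abs_of_pos (by norm_num : (0 : ℝ) < 1 / 2)]
  have n2 : ‖x - w‖ ≤ 1 / 2 * ‖x - e • (v₀ + ((m : ℝ) + 1) • w)‖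
      + 1 / 2 * ‖x + e • (v₀ - ((m : ℝ) + 1) • w)‖ := by
    rw [e2]
    refine (norm_add_le _ _).trans ?_
    rw [norm_smul, norm_smul, Real.norm_eq_abs, abs_of_pos (by norm_num : (0 : ℝ) < 1 / 2)]
  linarith

/-- In a polyhedral space the norm is, near each point, conical in an open set of directions. -/
theorem IsPolyhedral.conical [CompleteSpace E] (hE : IsPolyhedral E) (S : Submodule ℝ E)
    (hS : IsClosed (S : Set E)) (x : E) :
    ∃ τ : ℝ, 0 < τ ∧ ∃ v₀ ∈ S, ∃ ρ : ℝ, 0 < ρ ∧ ∀ v ∈ S, ‖v - v₀‖ < ρ →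
      ∀ t : ℝ, 0 ≤ t → t ≤ 1 → ‖x + (t * τ) • v‖ = ‖x‖ + t * (‖x + τ • v‖ - ‖x‖) := by
  obtain ⟨m, v₀, hv₀, ρ, hρ, hball⟩ := baire_closed S hS
    (fun m => {v | ∀ t : ℝ, 0 ≤ t → t ≤ 1 → ‖x + (t * (1 / ((m : ℝ) + 1))) • v‖
      = ‖x‖ + t * (‖x + (1 / ((m : ℝ) + 1)) • v‖ - ‖x‖)})
    (fun m => by
      simp only [Set.ofPred_forall]
      refine isClosed_iInter (fun t => isClosed_iInter (fun _ => isClosed_iInter (fun _ => ?_)))
      exact isClosed_eq (by fun_prop) (by fun_prop))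
    (by
      intro v _
      obtain ⟨t₀, ht₀, g, hg1, hg⟩ := hE.initial x v
      obtain ⟨m, hm⟩ := exists_nat_one_div_lt ht₀
      refine ⟨m, fun t h0 h1 => ?_⟩
      have hm0 : (0 : ℝ) < 1 / ((m : ℝ) + 1) := by positivity
      have e0 : g x = ‖x‖ := by
        have := hg 0 le_rfl ht₀.le
        simpa using this
      rw [← hg (t * (1 / ((m : ℝ) + 1))) (by positivity) (by nlinarith),
        ← hg (1 / ((m : ℝ) + 1)) hm0.le hm.le, ← e0, map_add, map_add, map_smul, map_smul,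
        smul_eq_mul, smul_eq_mul]
      ring)
  exact ⟨1 / ((m : ℝ) + 1), by positivity, v₀, hv₀, ρ, hρ, hball⟩

/-- The functionals attached to a dense set of strict points form a boundary, and the strict
point can be taken near the given point. -/
theorem IsPolyhedral.boundary [CompleteSpace E] (hE : IsPolyhedral E) (S : Submodule ℝ E)
    (hS : IsClosed (S : Set E)) (P : Set E) (hPS : P ⊆ S) (F : E → (E →L[ℝ] ℝ))
    (hP : ∀ p ∈ P, StrictN (F p) p)
    (hd : ∀ y ∈ S, ∀ δ : ℝ, 0 < δ → ∃ p ∈ P, ‖p - y‖ < δ) {x : E} (hx : x ∈ S) {δ : ℝ}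
    (hδ : 0 < δ) : ∃ p ∈ P, ‖p - x‖ < δ ∧ F p x = ‖x‖ := by
  obtain ⟨τ, hτ, v₀, hv₀, ρ, hρ, hcon⟩ := hE.conical S hS x
  -- a small parameter
  obtain ⟨a, ha0, ha1, haδ⟩ : ∃ a : ℝ, 0 < a ∧ a < 1 ∧ a * τ * (‖v₀‖ + ρ) < δ := by
    have hpos : 0 < τ * (‖v₀‖ + ρ) := by positivity
    refine ⟨min (1 / 2) (δ / (2 * (τ * (‖v₀‖ + ρ)))), lt_min (by norm_num) (by positivity),
      lt_of_le_of_lt (min_le_left _ _) (by norm_num), ?_⟩
    have h1 : min (1 / 2) (δ / (2 * (τ * (‖v₀‖ + ρ)))) ≤ δ / (2 * (τ * (‖v₀‖ + ρ))) :=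
      min_le_right _ _
    have h2 := mul_le_mul_of_nonneg_right h1 hpos.le
    have h3 : δ / (2 * (τ * (‖v₀‖ + ρ))) * (τ * (‖v₀‖ + ρ)) = δ / 2 := by
      field_simp
    rw [h3, ← mul_assoc] at h2
    linarith
  have haτ : 0 < a * τ := by positivity
  obtain ⟨p, hpP, hp⟩ := hd (x + (a * τ) • v₀) (S.add_mem hx (S.smul_mem _ hv₀))
    (a * τ * ρ) (by positivity)
  set v : E := (a * τ)⁻¹ • (p - x) with hv
  have hvS : v ∈ S := S.smul_mem _ (S.sub_mem (hPS hpP) hx)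
  have hpx : x + (a * τ) • v = p := by
    rw [hv, smul_smul, mul_inv_cancel₀ haτ.ne', one_smul]; abel
  have hvv : ‖v - v₀‖ < ρ := by
    have h1 : v - v₀ = (a * τ)⁻¹ • (p - (x + (a * τ) • v₀)) := by
      rw [hv, ← sub_sub, smul_sub _ (p - x), smul_smul, inv_mul_cancel₀ haτ.ne', one_smul]
    rw [h1, norm_smul, norm_inv, Real.norm_eq_abs, abs_of_pos haτ, inv_mul_lt_iff₀ haτ]
    exact hp
  refine ⟨p, hpP, ?_, ?_⟩
  · have h1 : p - x = (a * τ) • v := by rw [← hpx]; abel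
    rw [h1, norm_smul, Real.norm_eq_abs, abs_of_pos haτ]
    have h2 : ‖v‖ < ‖v₀‖ + ρ := by
      have : v = v₀ + (v - v₀) := by abel
      rw [this]
      exact lt_of_le_of_lt (norm_add_le _ _) (by linarith)
    have := mul_lt_mul_of_pos_left h2 haτ
    linarith
  · obtain ⟨r, hr, hloc⟩ := hP p hpP
    have hc := hcon v hvS hvv
    -- two parameters near `a`
    obtain ⟨s, hs0, hsa, hs⟩ : ∃ s : ℝ, 0 < s ∧ s < a ∧ s * τ * ‖v‖ < r := by
      have hn := norm_nonneg v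
      refine ⟨min (a / 2) (r / (2 * (τ * (‖v‖ + 1)))), lt_min (by linarith) (by positivity),
        lt_of_le_of_lt (min_le_left _ _) (by linarith), ?_⟩
      have h1 : min (a / 2) (r / (2 * (τ * (‖v‖ + 1)))) ≤ r / (2 * (τ * (‖v‖ + 1))) :=
        min_le_right _ _
      have hpos : 0 < τ * (‖v‖ + 1) := by positivity
      have h2 := mul_le_mul_of_nonneg_right h1 hpos.le
      have h3 : r / (2 * (τ * (‖v‖ + 1))) * (τ * (‖v‖ + 1)) = r / 2 := by field_simp
      rw [h3] at h2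
      have h4 : 0 < min (a / 2) (r / (2 * (τ * (‖v‖ + 1)))) :=
        lt_min (by linarith) (by positivity)
      nlinarith [mul_pos h4 hτ]
    have h1 : ‖x + (a * τ) • v‖ = F p (x + (a * τ) • v) := by
      apply hloc
      rw [hpx, sub_self, norm_zero]
      exact hr
    have h2 : ‖x + ((a - s) * τ) • v‖ = F p (x + ((a - s) * τ) • v) := by
      apply hloc
      have : x + ((a - s) * τ) • v - p = -((s * τ) • v) := by rw [← hpx]; module
      rw [this, norm_neg, norm_smul, Real.norm_eq_abs, abs_of_pos (by positivity)]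
      exact hs
    rw [hc a ha0.le ha1.le, map_add, map_smul, smul_eq_mul] at h1
    rw [hc (a - s) (by linarith) (by linarith), map_add, map_smul, smul_eq_mul] at h2
    have h3 : s * (‖x + τ • v‖ - ‖x‖) = s * (τ * F p v) := by linarith
    have h4 : ‖x + τ • v‖ - ‖x‖ = τ * F p v := mul_left_cancel₀ hs0.ne' h3
    rw [h4] at h1
    linarith

end Pool.Agent.Lib.MP_a60229_an
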