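import Pool.Agent.Lib.MP_a60229_an.PolyBasic

set_option autoImplicit false
universe u

namespace Pool.Agent.Lib.MP_a60229_an

open Metric Set Filter Topology

/-- Countable closure under countably many finitary operations. -/
theorem exists_countable_closed {α : Type u} (Φ : Finset α → Set α) (hΦ : ∀ s, (Φ s).Countable)
    (C₀ : Set α) (hC₀ : C₀.Countable) :
    ∃ C : Set α, C.Countable ∧ C₀ ⊆ C ∧ ∀ s : Finset α, (s : Set α) ⊆ C → Φ s ⊆ C := by
  classical
  let step : Set α → Set α := fun C => C ∪ ⋃ s ∈ {s : Finset α | (s : Set α) ⊆ C}, Φ s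
  let u : ℕ → Set α := fun n => step^[n] C₀
  have hu : ∀ n, u (n + 1) = step (u n) := fun n => Function.iterate_succ_apply' step n _
  have hcount : ∀ n, (u n).Countable := by
    intro n
    induction n with
    | zero => exact hC₀
    | succ n ih =>
      rw [hu]
      refine ih.union ?_
      refine Set.Countable.biUnion ?_ (fun s _ => hΦ s)
      have h1 : ({t : Set α | t.Finite ∧ t ⊆ u n}).Countable := Set.countable_ofPred_finite_subset ih
      have h2 : {s : Finset α | (s : Set α) ⊆ u n}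
          ⊆ (fun s : Finset α => (s : Set α)) ⁻¹' {t : Set α | t.Finite ∧ t ⊆ u n} :=
        fun s hs => ⟨s.finite_toSet, hs⟩
      exact (h1.preimage_of_injOn (Finset.coe_injective.injOn)).mono h2
  have hmono : Monotone u := monotone_nat_of_le_succ (fun n => by
    rw [hu]; exact Set.subset_union_left)
  refine ⟨⋃ n, u n, Set.countable_iUnion hcount, Set.subset_iUnion u 0, ?_⟩
  intro s hs
  obtain ⟨n, hn⟩ : ∃ n, (s : Set α) ⊆ u n := by
    induction s using Finset.induction_on with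
    | empty => exact ⟨0, by simp⟩
    | insert a s _ ih =>
      rw [Finset.coe_insert, Set.insert_subset_iff] at hs
      obtain ⟨n, hn⟩ := ih hs.2
      obtain ⟨m, hm⟩ := Set.mem_iUnion.1 hs.1
      refine ⟨max n m, ?_⟩
      rw [Finset.coe_insert, Set.insert_subset_iff]
      exact ⟨hmono (le_max_right n m) hm, hn.trans (hmono (le_max_left n m))⟩
  refine Set.Subset.trans ?_ (Set.subset_iUnion u (n + 1))
  rw [hu]
  refine Set.Subset.trans ?_ Set.subset_union_right
  exact Set.subset_biUnion_of_mem (u := fun s : Finset α => Φ s)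
    (show s ∈ {s : Finset α | (s : Set α) ⊆ u n} from hn)

variable {E : Type u} [NormedAddCommGroup E] [NormedSpace ℝ E]

/-- A set closed under rational combinations is dense in its closed linear span. -/
theorem dense_of_rat {C : Set E} (hne : C.Nonempty)
    (hC : ∀ a ∈ C, ∀ b ∈ C, ∀ q : ℚ, a + (q : ℝ) • b ∈ C) :
    ∀ y ∈ (Submodule.span ℝ C).topologicalClosure, ∀ δ : ℝ, 0 < δ → ∃ c ∈ C, ‖c - y‖ < δ := by
  obtain ⟨c₀, hc₀⟩ := hne
  have h0 : (0 : E) ∈ C := by
    have := hC c₀ hc₀ c₀ hc₀ (-1)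
    simpa using this
  have hadd : ∀ a ∈ C, ∀ b ∈ C, a + b ∈ C := by
    intro a ha b hb
    have := hC a ha b hb 1
    simpa using this
  have hsmul : ∀ q : ℚ, ∀ b ∈ C, (q : ℝ) • b ∈ C := by
    intro q b hb
    have := hC 0 h0 b hb q
    simpa using this
  have hspan : ∀ y ∈ Submodule.span ℝ C, y ∈ closure C := by
    intro y hy
    induction hy using Submodule.span_induction with
    | mem x hx => exact subset_closure hx
    | zero => exact subset_closure h0
    | add x y _ _ hx hy => exact map_mem_closure₂ continuous_add hx hy hadd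
    | smul r x _ hx =>
      have hr : r ∈ closure (range (fun q : ℚ => (q : ℝ))) := by
        rw [Rat.isDenseEmbedding_coe_real.dense.closure_range]
        trivial
      refine map_mem_closure₂ continuous_smul hr hx ?_
      rintro _ ⟨q, rfl⟩ b hb
      exact hsmul q b hb
  intro y hy δ hδ
  have hy' : y ∈ closure C := by
    have h1 : y ∈ closure ((Submodule.span ℝ C : Submodule ℝ E) : Set E) := hy
    exact (closure_minimal hspan isClosed_closure) h1
  obtain ⟨c, hc, hlt⟩ := Metric.mem_closure_iff.1 hy' δ hδ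
  refine ⟨c, hc, ?_⟩
  rwa [← dist_eq_norm, dist_comm]

/-- Second difference along a ray in a polyhedral space is linear near the origin. -/
theorem IsPolyhedral.second_diff (hE : IsPolyhedral E) (x v : E) :
    ∃ t₀ : ℝ, 0 < t₀ ∧ ∃ κ : ℝ,
      (∀ t : ℝ, 0 ≤ t → t ≤ t₀ → ‖x + t • v‖ + ‖x - t • v‖ = 2 * ‖x‖ + t * κ) ∧
      ∀ t : ℝ, 0 ≤ t → 2 * ‖x‖ + t * κ ≤ ‖x + t • v‖ + ‖x - t • v‖ := by
  obtain ⟨t₁, ht₁, g₁, hg₁, h₁⟩ := hE.initial x v
  obtain ⟨t₂, ht₂, g₂, hg₂, h₂⟩ := hE.initial x (-v)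
  have e1 : g₁ x = ‖x‖ := by have := h₁ 0 le_rfl ht₁.le; simpa using this
  have e2 : g₂ x = ‖x‖ := by have := h₂ 0 le_rfl ht₂.le; simpa using this
  refine ⟨min t₁ t₂, lt_min ht₁ ht₂, g₁ v - g₂ v, ?_, ?_⟩
  · intro t h0 h1
    have a1 := h₁ t h0 (h1.trans (min_le_left _ _))
    have a2 := h₂ t h0 (h1.trans (min_le_right _ _))
    rw [smul_neg, ← sub_eq_add_neg] at a2
    rw [← a1, ← a2, map_add, map_sub, map_smul, map_smul, e1, e2, smul_eq_mul, smul_eq_mul]
    ring
  · intro t h0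
    have a1 := apply_le_norm hg₁ (x + t • v)
    have a2 := apply_le_norm hg₂ (x - t • v)
    rw [map_add, map_smul, e1, smul_eq_mul] at a1
    rw [map_sub, map_smul, e2, smul_eq_mul] at a2
    linarith

/-- Mazur's theorem for polyhedral norms, on a separable closed subspace. -/
theorem IsPolyhedral.exists_flat_point [CompleteSpace E] (hE : IsPolyhedral E)
    (S : Submodule ℝ E) (hS : IsClosed (S : Set E)) (C : Set E) (hC : C.Countable) (hCS : C ⊆ S)
    (hd : ∀ y ∈ S, ∀ δ : ℝ, 0 < δ → ∃ c ∈ C, ‖c - y‖ < δ) {x₀ : E} (hx₀ : x₀ ∈ S) {R : ℝ}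
    (hR : 0 < R) : ∃ x ∈ S, ‖x - x₀‖ < R ∧
      ∀ v ∈ S, ∃ t : ℝ, 0 < t ∧ ‖x + t • v‖ + ‖x - t • v‖ ≤ 2 * ‖x‖ := by
  have hSc : CompleteSpace S := hS.completeSpace_coe
  have hCc : Countable C := hC.to_subtype
  let A : C × ℕ → Set S := fun i =>
    {x : S | ∃ t : ℝ, 0 < t ∧ ‖(x : E) + t • (i.1 : E)‖ + ‖(x : E) - t • (i.1 : E)‖
      - 2 * ‖(x : E)‖ < t / ((i.2 : ℝ) + 1)}
  have hopen : ∀ i, IsOpen (A i) := by
    intro i
    have : A i = ⋃ t ∈ Ioi (0 : ℝ), {x : S | ‖(x : E) + t • (i.1 : E)‖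
        + ‖(x : E) - t • (i.1 : E)‖ - 2 * ‖(x : E)‖ < t / ((i.2 : ℝ) + 1)} := by
      ext x
      simp only [A, mem_iUnion, mem_Ioi, exists_prop]
      rfl
    rw [this]
    refine isOpen_biUnion (fun t _ => isOpen_lt ?_ continuous_const)
    fun_prop
  have hdense : ∀ i, Dense (A i) := by
    intro i
    rw [Metric.dense_iff]
    intro x r hr
    obtain ⟨t₀, ht₀, g, hg1, hg⟩ := hE.initial (x : E) (i.1 : E)
    -- move a little along the direction
    obtain ⟨s, hs0, hs1, hs2⟩ : ∃ s : ℝ, 0 < s ∧ 2 * s ≤ t₀ ∧ s * ‖(i.1 : E)‖ < r := by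
      have hn := norm_nonneg (i.1 : E)
      refine ⟨min (t₀ / 2) (r / (2 * (‖(i.1 : E)‖ + 1))), lt_min (by linarith) (by positivity),
        ?_, ?_⟩
      · have := min_le_left (t₀ / 2) (r / (2 * (‖(i.1 : E)‖ + 1)))
        linarith
      · have h1 := min_le_right (t₀ / 2) (r / (2 * (‖(i.1 : E)‖ + 1)))
        have hpos : 0 < ‖(i.1 : E)‖ + 1 := by linarith
        have h2 := mul_le_mul_of_nonneg_right h1 hpos.le
        have h3 : r / (2 * (‖(i.1 : E)‖ + 1)) * (‖(i.1 : E)‖ + 1) = r / 2 := by field_simp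
        rw [h3] at h2
        have h4 : 0 < min (t₀ / 2) (r / (2 * (‖(i.1 : E)‖ + 1))) :=
          lt_min (by linarith) (by positivity)
        nlinarith
    refine ⟨⟨(x : E) + s • (i.1 : E), S.add_mem x.2 (S.smul_mem _ (hCS i.1.2))⟩, ?_, ?_⟩
    · rw [mem_ball, dist_eq_norm]
      show ‖(x : E) + s • (i.1 : E) - (x : E)‖ < r
      rw [add_sub_cancel_left, norm_smul, Real.norm_eq_abs, abs_of_pos hs0]
      exact hs2
    · refine ⟨s, hs0, ?_⟩
      show ‖(x : E) + s • (i.1 : E) + s • (i.1 : E)‖ + ‖(x : E) + s • (i.1 : E) - s • (i.1 : E)‖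
        - 2 * ‖(x : E) + s • (i.1 : E)‖ < s / ((i.2 : ℝ) + 1)
      have e1 : (x : E) + s • (i.1 : E) + s • (i.1 : E) = (x : E) + (2 * s) • (i.1 : E) := by
        module
      have e0 : g (x : E) = ‖(x : E)‖ := by
        have := hg 0 le_rfl ht₀.le
        simpa using this
      rw [add_sub_cancel_right, e1, ← hg (2 * s) (by linarith) hs1, ← hg s hs0.le (by linarith),
        ← e0, map_add, map_add, map_smul, map_smul, smul_eq_mul, smul_eq_mul]
      have : 0 < s / ((i.2 : ℝ) + 1) := by positivity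
      linarith
  have hGδ := dense_iInter_of_isOpen hopen hdense
  obtain ⟨x, hxR, hxA⟩ := (Metric.dense_iff.1 hGδ) ⟨x₀, hx₀⟩ R hR
  refine ⟨x, x.2, ?_, ?_⟩
  · rw [mem_ball, dist_eq_norm] at hxR
    exact hxR
  -- no kink in the directions of `C`
  have hCk : ∀ c ∈ C, ∃ t₀ : ℝ, 0 < t₀ ∧ ∀ t : ℝ, 0 ≤ t → t ≤ t₀ →
      ‖(x : E) + t • c‖ + ‖(x : E) - t • c‖ ≤ 2 * ‖(x : E)‖ := by
    intro c hc
    obtain ⟨t₀, ht₀, κ, h1, h2⟩ := hE.second_diff (x : E) c
    have hκ : κ ≤ 0 := by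
      by_contra hcon
      push Not at hcon
      obtain ⟨m, hm⟩ := exists_nat_one_div_lt hcon
      have hxm := Set.mem_iInter.1 hxA (⟨c, hc⟩, m)
      obtain ⟨t, ht, hlt⟩ := hxm
      have h3 := h2 t ht.le
      have h4 : t / ((m : ℝ) + 1) < t * κ := by
        rw [div_eq_mul_one_div]
        exact mul_lt_mul_of_pos_left hm ht
      have h5 : ‖(x : E) + t • c‖ + ‖(x : E) - t • c‖ - 2 * ‖(x : E)‖ < t / ((m : ℝ) + 1) := hlt
      linarith
    refine ⟨t₀, ht₀, fun t h0 h1' => ?_⟩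
    rw [h1 t h0 h1']
    nlinarith
  intro v hv
  obtain ⟨t₀, ht₀, κ, h1, h2⟩ := hE.second_diff (x : E) v
  have hκ : κ ≤ 0 := by
    by_contra hcon
    push Not at hcon
    obtain ⟨c, hc, hcv⟩ := hd v hv (κ / 4) (by linarith)
    obtain ⟨t₁, ht₁, hc1⟩ := hCk c hc
    have hm : 0 < min t₀ t₁ := lt_min ht₀ ht₁
    have a1 := h1 (min t₀ t₁) hm.le (min_le_left _ _)
    have a2 := hc1 (min t₀ t₁) hm.le (min_le_right _ _)
    set t := min t₀ t₁
    have b1 : ‖(x : E) + t • v‖ ≤ ‖(x : E) + t • c‖ + t * ‖c - v‖ := by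
      have : (x : E) + t • v = ((x : E) + t • c) - t • (c - v) := by module
      rw [this]
      refine (norm_sub_le _ _).trans ?_
      rw [norm_smul, Real.norm_eq_abs, abs_of_pos hm]
    have b2 : ‖(x : E) - t • v‖ ≤ ‖(x : E) - t • c‖ + t * ‖c - v‖ := by
      have : (x : E) - t • v = ((x : E) - t • c) + t • (c - v) := by module
      rw [this]
      refine (norm_add_le _ _).trans ?_
      rw [norm_smul, Real.norm_eq_abs, abs_of_pos hm]
    have b3 := mul_lt_mul_of_pos_left hcv hm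
    nlinarith
  refine ⟨t₀, ht₀, ?_⟩
  rw [h1 t₀ ht₀.le le_rfl]
  nlinarith

/-- If the norm has no kink at `z`, then `z` is a strict point. -/
theorem strictN_of_flat [CompleteSpace E] {z : E}
    (h : ∀ v : E, ∃ t : ℝ, 0 < t ∧ ‖z + t • v‖ + ‖z - t • v‖ ≤ 2 * ‖z‖) :
    ∃ f : E →L[ℝ] ℝ, StrictN f z := by
  obtain ⟨ρ, hρ, hflat⟩ := flat (⊤ : Submodule ℝ E) isClosed_univ z (fun v _ => h v)
  obtain ⟨f, hf1, hf2⟩ := exists_norming z
  refine ⟨f, ρ, hρ, fun w hw => ?_⟩
  have h1 := hflat (w - z) trivial hw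
  have a1 := apply_le_norm hf1 (z + (w - z))
  have a2 := apply_le_norm hf1 (z - (w - z))
  have e : z + (w - z) = w := by abel
  rw [e] at h1 a1
  rw [map_sub, map_sub, hf2] at a2
  linarith

/-- Strict points are dense in a polyhedral Banach space. -/
theorem IsPolyhedral.dense_strict [CompleteSpace E] (hE : IsPolyhedral E) (x₀ : E) {R : ℝ}
    (hR : 0 < R) : ∃ z : E, ‖z - x₀‖ < R ∧ ∃ f : E →L[ℝ] ℝ, StrictN f z := by
  classical
  by_contra hcon
  push Not at hcon
  have hkink : ∀ z : E, ∃ v : E, ‖z - x₀‖ < R → ∀ t : ℝ, 0 < t →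
      2 * ‖z‖ < ‖z + t • v‖ + ‖z - t • v‖ := by
    intro z
    by_cases hz : ‖z - x₀‖ < R
    · by_contra hno
      push Not at hno
      obtain ⟨f, hf⟩ := strictN_of_flat (z := z) (fun v => by
        obtain ⟨_, t, ht, hle⟩ := hno v
        exact ⟨t, ht, hle⟩)
      exact hcon z hz f hf
    · exact ⟨0, fun h => absurd h hz⟩
  choose v hv using hkink
  obtain ⟨C, hCc, hC₀, hCcl⟩ := exists_countable_closed
    (fun s : Finset E => (⋃ a ∈ s, ⋃ b ∈ s, range (fun q : ℚ => a + (q : ℝ) • b)) ∪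
      (⋃ a ∈ s, {v a})) (fun s => by
        refine Set.Countable.union ?_ ?_
        · exact s.countable_toSet.biUnion (fun a _ => s.countable_toSet.biUnion (fun b _ =>
            Set.countable_range _))
        · exact s.countable_toSet.biUnion (fun a _ => Set.countable_singleton _))
    {x₀} (Set.countable_singleton _)
  have hx₀C : x₀ ∈ C := hC₀ rfl
  have hrat : ∀ a ∈ C, ∀ b ∈ C, ∀ q : ℚ, a + (q : ℝ) • b ∈ C := by
    intro a ha b hb q
    refine hCcl {a, b} (by
      rw [Finset.coe_insert, Finset.coe_singleton, Set.insert_subset_iff,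
        Set.singleton_subset_iff]
      exact ⟨ha, hb⟩) (Or.inl ?_)
    refine Set.mem_biUnion (x := a) (by simp) (Set.mem_biUnion (x := b) (by simp) ⟨q, rfl⟩)
  have hvC : ∀ a ∈ C, v a ∈ C := by
    intro a ha
    refine hCcl {a} (by rw [Finset.coe_singleton, Set.singleton_subset_iff]; exact ha)
      (Or.inr ?_)
    exact Set.mem_biUnion (x := a) (by simp) rfl
  set S : Submodule ℝ E := (Submodule.span ℝ C).topologicalClosure with hS
  have hSc : IsClosed (S : Set E) := Submodule.isClosed_topologicalClosure _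
  have hCS : C ⊆ S := fun c hc => Submodule.le_topologicalClosure _ (Submodule.subset_span hc)
  have hd := dense_of_rat ⟨x₀, hx₀C⟩ hrat
  obtain ⟨x, hxS, hxR, hx⟩ := hE.exists_flat_point S hSc C hCc hCS hd (hCS hx₀C) hR
  obtain ⟨ρ, hρ, hflat⟩ := flat S hSc x hx
  obtain ⟨f, hf1, hf2⟩ := exists_norming x
  have hf : ∀ w ∈ S, ‖w - x‖ < ρ → ‖w‖ = f w := by
    intro w hw hlt
    have h1 := hflat (w - x) (S.sub_mem hw hxS) hlt
    have a1 := apply_le_norm hf1 (x + (w - x))
    have a2 := apply_le_norm hf1 (x - (w - x))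
    have e : x + (w - x) = w := by abel
    rw [e] at h1 a1
    rw [map_sub, map_sub, hf2] at a2
    linarith
  obtain ⟨c, hcC, hc⟩ := hd x hxS (min ρ (R - ‖x - x₀‖)) (lt_min hρ (by linarith))
  have hc1 : ‖c - x‖ < ρ := hc.trans_le (min_le_left _ _)
  have hc2 : ‖c - x₀‖ < R := by
    have h1 : ‖c - x‖ < R - ‖x - x₀‖ := hc.trans_le (min_le_right _ _)
    have : c - x₀ = (c - x) + (x - x₀) := by abel
    rw [this]
    exact lt_of_le_of_lt (norm_add_le _ _) (by linarith)
  have hvS : v c ∈ S := hCS (hvC c hcC)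
  -- small parameter
  obtain ⟨t, ht0, ht⟩ : ∃ t : ℝ, 0 < t ∧ t * ‖v c‖ < ρ - ‖c - x‖ := by
    have hn := norm_nonneg (v c)
    have hpos : 0 < ρ - ‖c - x‖ := by linarith
    refine ⟨(ρ - ‖c - x‖) / (2 * (‖v c‖ + 1)), by positivity, ?_⟩
    rw [div_mul_eq_mul_div, div_lt_iff₀ (by positivity)]
    nlinarith
  have h1 : ‖c + t • v c‖ = f (c + t • v c) := by
    refine hf _ (S.add_mem (hCS hcC) (S.smul_mem _ hvS)) ?_
    have : c + t • v c - x = (c - x) + t • v c := by abel
    rw [this]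
    refine lt_of_le_of_lt (norm_add_le _ _) ?_
    rw [norm_smul, Real.norm_eq_abs, abs_of_pos ht0]
    linarith
  have h2 : ‖c - t • v c‖ = f (c - t • v c) := by
    refine hf _ (S.sub_mem (hCS hcC) (S.smul_mem _ hvS)) ?_
    have : c - t • v c - x = (c - x) - t • v c := by abel
    rw [this]
    refine lt_of_le_of_lt (norm_sub_le _ _) ?_
    rw [norm_smul, Real.norm_eq_abs, abs_of_pos ht0]
    linarith
  have h3 : ‖c‖ = f c := hf c (hCS hcC) hc1
  have h4 := hv c hc2 t ht0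
  rw [h1, h2, h3, map_add, map_sub] at h4
  linarith

end Pool.Agent.Lib.MP_a60229_an
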