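import Pool.Agent.Lib.MP_a60229_an.Basic

set_option autoImplicit false
universe u

namespace Pool.Agent.Lib.MP_a60229_an

open Metric Set Filter Topology

/-- A copy of the underlying vector space, to carry a new norm. -/
def Ren {E : Type u} (_U : Set E) : Type u := E

variable {E : Type u} [NormedAddCommGroup E] [NormedSpace ℝ E]

instance (U : Set E) : AddCommGroup (Ren U) := inferInstanceAs (AddCommGroup E)
instance (U : Set E) : Module ℝ (Ren U) := inferInstanceAs (Module ℝ E)
noncomputable instance (U : Set E) : Norm (Ren U) := ⟨fun x => gauge U (show E from x)⟩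

/-- The closed symmetric convex bodies which we use as new unit balls. -/
structure IsBody (U : Set E) (R : ℝ) : Prop where
  convex : Convex ℝ U
  symm : ∀ x ∈ U, -x ∈ U
  closed : IsClosed U
  ball_subset : closedBall (0 : E) 1 ⊆ U
  subset_ball : U ⊆ closedBall (0 : E) R
  pos : 0 < R

variable {U : Set E} {R : ℝ}

theorem IsBody.mem_nhds (hU : IsBody U R) : U ∈ 𝓝 (0 : E) :=
  mem_of_superset (closedBall_mem_nhds (0 : E) one_pos) hU.ball_subset

theorem IsBody.absorbent (hU : IsBody U R) : Absorbent ℝ U := absorbent_nhds_zero hU.mem_nhds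

theorem IsBody.gauge_le (hU : IsBody U R) (x : E) : gauge U x ≤ ‖x‖ := by
  have h1 : gauge U x ≤ gauge (closedBall (0 : E) 1) x :=
    gauge_mono (absorbent_nhds_zero (closedBall_mem_nhds (0 : E) one_pos)) hU.ball_subset x
  rwa [gauge_closedBall zero_le_one, div_one] at h1

theorem IsBody.le_gauge (hU : IsBody U R) (x : E) : ‖x‖ ≤ R * gauge U x := by
  have := le_gauge_of_subset_closedBall (x := x) hU.absorbent hU.pos.le hU.subset_ball
  rwa [div_le_iff₀ hU.pos, mul_comm] at this

theorem IsBody.core (hU : IsBody U R) : NormedSpace.Core ℝ (Ren U) where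
  norm_nonneg := fun x => gauge_nonneg _
  norm_smul := fun c x => by
    have key : ∀ y : E, c • y = -((-c) • y) := fun y => by rw [neg_smul, neg_neg]
    show gauge U (c • (show E from x)) = ‖c‖ * gauge U (show E from x)
    rcases le_or_gt 0 c with hc | hc
    · rw [gauge_smul_of_nonneg hc, Real.norm_eq_abs, abs_of_nonneg hc, smul_eq_mul]
    · rw [key, gauge_neg hU.symm, gauge_smul_of_nonneg (by linarith), Real.norm_eq_abs,
        abs_of_neg hc, smul_eq_mul]
  norm_triangle := fun x y => gauge_add_le hU.convex hU.absorbent _ _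
  norm_eq_zero_iff := fun x => by
    constructor
    · intro h
      have h0 : gauge U (show E from x) = 0 := h
      have h1 := hU.le_gauge (show E from x)
      rw [h0, mul_zero] at h1
      exact norm_le_zero_iff.1 h1
    · intro h
      rw [h]
      exact gauge_zero

/-- A closed symmetric convex body is the unit ball of an equivalent norm. -/
theorem IsBody.exists_renorm (hU : IsBody U R) :
    ∃ (X : Type u) (_ : NormedAddCommGroup X) (_ : NormedSpace ℝ X), ∃ T : E ≃L[ℝ] X,
      (∀ x, ‖T x‖ ≤ 1 ↔ x ∈ U) ∧ (∀ x, ‖T x‖ ≤ ‖x‖ ∧ ‖x‖ ≤ R * ‖T x‖) := by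
  let i1 : NormedAddCommGroup (Ren U) := NormedAddCommGroup.ofCore hU.core
  let i2 : NormedSpace ℝ (Ren U) := NormedSpace.ofCore hU.core
  have hnorm : ∀ x : E, ‖(show Ren U from x)‖ = gauge U x := fun x => rfl
  let e : E ≃ₗ[ℝ] Ren U :=
    { toFun := fun x => x
      invFun := fun x => x
      map_add' := fun _ _ => rfl
      map_smul' := fun _ _ => rfl
      left_inv := fun _ => rfl
      right_inv := fun _ => rfl }
  let T : E ≃L[ℝ] Ren U := e.toContinuousLinearEquivOfBounds 1 R
    (fun x => by
      rw [one_mul]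
      exact hU.gauge_le x)
    (fun x => hU.le_gauge x)
  refine ⟨Ren U, i1, i2, T, fun x => ?_, fun x => ⟨hU.gauge_le x, hU.le_gauge x⟩⟩
  show gauge U x ≤ 1 ↔ x ∈ U
  rw [gauge_le_one_iff_mem_closure hU.convex hU.mem_nhds, hU.closed.closure_eq]

/-- Transport of the properties of the body to the renormed space. -/
theorem transport {X : Type u} [NormedAddCommGroup X] [NormedSpace ℝ X] (T : E ≃L[ℝ] X)
    (hT : ∀ x, ‖T x‖ ≤ 1 ↔ x ∈ U)
    (hpoly : ∀ G : Submodule ℝ E, FiniteDimensional ℝ G →
      (Set.extremePoints ℝ (U ∩ (G : Set E))).Finite)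
    (hgen : U = closure (convexHull ℝ (Set.extremePoints ℝ U))) :
    IsPolyhedral X ∧ Metric.closedBall (0 : X) 1 =
      closure (convexHull ℝ (Set.extremePoints ℝ (Metric.closedBall (0 : X) 1))) := by
  have hball : Metric.closedBall (0 : X) 1 = T '' U := by
    ext y
    rw [mem_closedBall_zero_iff]
    constructor
    · intro hy
      refine ⟨T.symm y, (hT _).1 ?_, T.apply_symm_apply y⟩
      rwa [T.apply_symm_apply]
    · rintro ⟨x, hx, rfl⟩
      exact (hT x).2 hx
  constructor
  · intro G hG
    set G' : Submodule ℝ E := G.comap (T : E →ₗ[ℝ] X) with hG'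
    have hG'f : FiniteDimensional ℝ G' := by
      have : G' = G.map (T.symm : X →ₗ[ℝ] E) := by
        ext x
        rw [hG', Submodule.mem_comap, Submodule.mem_map]
        constructor
        · intro h
          exact ⟨T x, h, T.symm_apply_apply x⟩
        · rintro ⟨y, hy, rfl⟩
          have : (T : E →ₗ[ℝ] X) ((T.symm : X →ₗ[ℝ] E) y) = y := T.apply_symm_apply y
          rwa [this]
      rw [this]
      infer_instance
    have himg : Metric.closedBall (0 : X) 1 ∩ (G : Set X) = T '' (U ∩ (G' : Set E)) := by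
      rw [hball]
      ext y
      constructor
      · rintro ⟨⟨x, hx, rfl⟩, hy⟩
        exact ⟨x, ⟨hx, hy⟩, rfl⟩
      · rintro ⟨x, ⟨hx, hxG⟩, rfl⟩
        exact ⟨⟨x, hx, rfl⟩, hxG⟩
    rw [himg, ← image_extremePoints T]
    exact (hpoly G' hG'f).image _
  · rw [hball, ← image_extremePoints T]
    have h1 : convexHull ℝ (T '' Set.extremePoints ℝ U)
        = T '' convexHull ℝ (Set.extremePoints ℝ U) :=
      ((T : E →ₗ[ℝ] X).image_convexHull _).symm
    rw [h1]
    have h2 : closure (T '' convexHull ℝ (Set.extremePoints ℝ U))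
        = T '' closure (convexHull ℝ (Set.extremePoints ℝ U)) :=
      (T.toHomeomorph.image_closure _).symm
    rw [h2, ← hgen]

end Pool.Agent.Lib.MP_a60229_an
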