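import Pool.Agent.Lib.MP_a60229_an.Far

set_option autoImplicit false
universe u

namespace Pool.Agent.Lib.MP_a60229_an

open Metric Set Filter Topology

variable {E : Type u} [NormedAddCommGroup E] [NormedSpace ℝ E]

/-- Subspaces of polyhedral spaces are polyhedral. -/
theorem IsPolyhedral.subspace (hE : IsPolyhedral E) (S : Submodule ℝ E) : IsPolyhedral S := by
  intro G hG
  set G' : Submodule ℝ E := G.map S.subtype with hG'
  have hG'f : FiniteDimensional ℝ G' := by rw [hG']; infer_instance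
  have h1 := hE G' hG'f
  refine (h1.preimage (f := ((↑) : S → E)) Subtype.val_injective.injOn).subset ?_
  intro x hx
  rw [mem_extremePoints] at hx
  obtain ⟨⟨hx1, hxG⟩, hx2⟩ := hx
  show (x : E) ∈ Set.extremePoints ℝ _
  rw [mem_extremePoints]
  rw [mem_closedBall_zero_iff] at hx1
  refine ⟨⟨mem_closedBall_zero_iff.2 hx1, ⟨x, hxG, rfl⟩⟩, ?_⟩
  rintro y ⟨hy1, y', hyG, rfl⟩ z ⟨hz1, z', hzG, rfl⟩ hseg
  rw [mem_closedBall_zero_iff] at hy1 hz1
  have hseg' : x ∈ openSegment ℝ y' z' := by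
    obtain ⟨a, b, ha, hb, hab, h⟩ := hseg
    exact ⟨a, b, ha, hb, hab, Subtype.ext h⟩
  obtain ⟨h3, h4⟩ := hx2 y' ⟨mem_closedBall_zero_iff.2 hy1, hyG⟩ z'
    ⟨mem_closedBall_zero_iff.2 hz1, hzG⟩ hseg'
  exact ⟨congrArg _ h3, congrArg _ h4⟩

/-- The functional of a strict point is unique. -/
theorem StrictN.unique {f f' : E →L[ℝ] ℝ} {z : E} (h : StrictN f z) (h' : StrictN f' z) :
    f = f' := by
  obtain ⟨ρ, hρ, hloc⟩ := h
  obtain ⟨ρ', hρ', hloc'⟩ := h'
  have hz : f z = f' z := by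
    rw [← hloc z (by rw [sub_self, norm_zero]; exact hρ),
      ← hloc' z (by rw [sub_self, norm_zero]; exact hρ')]
  ext v
  have hn := norm_nonneg v
  set t : ℝ := min ρ ρ' / (2 * (‖v‖ + 1)) with ht
  have hm : 0 < min ρ ρ' := lt_min hρ hρ'
  have ht0 : 0 < t := by positivity
  have hsmall : ‖(z + t • v) - z‖ < min ρ ρ' := by
    rw [add_sub_cancel_left, norm_smul, Real.norm_eq_abs, abs_of_pos ht0, ht, div_mul_eq_mul_div,
      div_lt_iff₀ (by positivity)]
    nlinarith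
  have h1 := hloc _ (hsmall.trans_le (min_le_left _ _))
  have h2 := hloc' _ (hsmall.trans_le (min_le_right _ _))
  rw [h1, map_add, map_add, hz, map_smul, map_smul, smul_eq_mul, smul_eq_mul] at h2
  exact mul_left_cancel₀ ht0.ne' (add_left_cancel h2)

theorem countable_strict [TopologicalSpace.SeparableSpace E] :
    {f : E →L[ℝ] ℝ | ∃ z, StrictN f z}.Countable := by
  have hsub : {f : E →L[ℝ] ℝ | ∃ z, StrictN f z}
      ⊆ ⋃ n : ℕ, {f : E →L[ℝ] ℝ | StrictN f (TopologicalSpace.denseSeq E n)} := by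
    rintro f ⟨z, ρ, hρ, hloc⟩
    obtain ⟨n, hn⟩ := (TopologicalSpace.denseRange_denseSeq E).exists_dist_lt z
      (show 0 < ρ / 2 by linarith)
    rw [dist_comm, dist_eq_norm] at hn
    refine mem_iUnion.2 ⟨n, ρ / 2, by linarith, fun w hw => hloc w ?_⟩
    have : w - z = (w - TopologicalSpace.denseSeq E n) + (TopologicalSpace.denseSeq E n - z) := by
      abel
    rw [this]
    refine lt_of_le_of_lt (norm_add_le _ _) (by linarith)
  refine (Set.countable_iUnion (fun n => ?_)).mono hsub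
  exact Set.Subsingleton.countable (fun f hf f' hf' => StrictN.unique hf hf')

/-- The functionals of strict points span a dense subspace of the dual. -/
theorem IsPolyhedral.span_strict [CompleteSpace E] (hE : IsPolyhedral E) (φ : E →L[ℝ] ℝ) :
    φ ∈ (Submodule.span ℝ {f : E →L[ℝ] ℝ | ∃ z, StrictN f z}).topologicalClosure := by
  by_contra hφ
  set Z := (Submodule.span ℝ {f : E →L[ℝ] ℝ | ∃ z, StrictN f z}).topologicalClosure with hZ
  have hφ0 : φ ≠ 0 := by
    rintro rfl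
    exact hφ Z.zero_mem
  obtain ⟨x₀, hx₀⟩ : ∃ x, φ x ≠ 0 := by
    by_contra hcon
    push Not at hcon
    exact hφ0 (by ext x; exact hcon x)
  have hx₀0 : x₀ ≠ 0 := by
    rintro rfl
    exact hx₀ (map_zero φ)
  obtain ⟨z, hz, f, hf⟩ := hE.dense_strict x₀ (norm_pos_iff.2 hx₀0)
  have hz0 : z ≠ 0 := by
    rintro rfl
    rw [zero_sub, norm_neg] at hz
    exact lt_irrefl _ hz
  have hfz : ‖z‖ = f z := by
    obtain ⟨ρ, hρ, hloc⟩ := hf
    exact hloc z (by rw [sub_self, norm_zero]; exact hρ)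
  have hf1 : ‖f‖ = 1 := by
    refine le_antisymm hf.norm_le ?_
    have h1 := f.le_of_opNorm_le le_rfl z
    rw [← hfz, norm_norm] at h1
    have h2 : 0 < ‖z‖ := norm_pos_iff.2 hz0
    by_contra hlt
    push Not at hlt
    nlinarith
  have hstr : ∀ a : E →L[ℝ] ℝ, (∃ z, StrictN a z) → a ∈ Z := fun a ha =>
    Submodule.le_topologicalClosure _ (Submodule.subset_span ha)
  obtain ⟨a, ⟨z', _, ha, _⟩, hfar⟩ := hE.exists_far hf1 one_pos le_rfl Z
    (Submodule.isClosed_topologicalClosure _) ⟨φ, hφ⟩ (hstr f ⟨z, hf⟩)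
  have := hfar a (hstr a ⟨z', ha⟩)
  rw [sub_self, norm_zero] at this
  linarith

/-- A separable polyhedral Banach space has a separable dual. -/
theorem IsPolyhedral.separable_dual [CompleteSpace E] [TopologicalSpace.SeparableSpace E]
    (hE : IsPolyhedral E) : TopologicalSpace.SeparableSpace (E →L[ℝ] ℝ) := by
  rw [← TopologicalSpace.isSeparable_univ_iff]
  have h1 : TopologicalSpace.IsSeparable
      (closure ((Submodule.span ℝ {f : E →L[ℝ] ℝ | ∃ z, StrictN f z} :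
        Submodule ℝ (E →L[ℝ] ℝ)) : Set (E →L[ℝ] ℝ))) :=
    (countable_strict.isSeparable.span (R := ℝ)).closure
  exact h1.mono (fun φ _ => hE.span_strict φ)

/-- A separable polyhedral Banach space has a countable boundary. -/
theorem IsPolyhedral.exists_boundary_seq [CompleteSpace E] [TopologicalSpace.SeparableSpace E]
    (hE : IsPolyhedral E) : ∃ f : ℕ → (E →L[ℝ] ℝ), (∀ n, ‖f n‖ ≤ 1) ∧ ∀ x, ∃ n, f n x = ‖x‖ := by
  classical
  obtain ⟨z₀, _, f₀, hf₀⟩ := hE.dense_strict (0 : E) one_pos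
  have hne : {f : E →L[ℝ] ℝ | ∃ z, StrictN f z}.Nonempty := ⟨f₀, z₀, hf₀⟩
  obtain ⟨f, hf⟩ := countable_strict.exists_eq_range hne
  refine ⟨f, fun n => ?_, fun x => ?_⟩
  · have : f n ∈ {f : E →L[ℝ] ℝ | ∃ z, StrictN f z} := by rw [hf]; exact ⟨n, rfl⟩
    obtain ⟨z, hz⟩ := this
    exact hz.norm_le
  · let F : E → (E →L[ℝ] ℝ) := fun q =>
      if hq : ∃ f : E →L[ℝ] ℝ, StrictN f q then hq.choose else 0
    have hF : ∀ q, (∃ f : E →L[ℝ] ℝ, StrictN f q) → StrictN (F q) q := by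
      intro q hq
      show StrictN (if hq : ∃ f : E →L[ℝ] ℝ, StrictN f q then hq.choose else 0) q
      rw [dif_pos hq]
      exact hq.choose_spec
    obtain ⟨p, hp, _, hpx⟩ := hE.boundary (⊤ : Submodule ℝ E) isClosed_univ
      {z | ∃ f : E →L[ℝ] ℝ, StrictN f z} (fun _ _ => trivial) F (fun q hq => hF q hq)
      (fun y _ δ hδ => by
        obtain ⟨z, hz, f, hf⟩ := hE.dense_strict y hδ
        exact ⟨z, ⟨f, hf⟩, hz⟩) (x := x) trivial one_pos
    have hmem : F p ∈ range f := by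
      rw [← hf]
      exact ⟨p, hF p hp⟩
    obtain ⟨n, hn⟩ := hmem
    exact ⟨n, by rw [hn]; exact hpx⟩

/-- Cluster points of bounded sequences of functionals. -/
theorem exists_cluster (F : ℕ → (E →L[ℝ] ℝ)) (hF : ∀ n, ‖F n‖ ≤ 1) :
    ∃ φ : E →L[ℝ] ℝ, ‖φ‖ ≤ 1 ∧ ∀ v, Tendsto (fun n => F n v) (hyperfilter ℕ : Filter ℕ)
      (𝓝 (φ v)) := by
  have hc := WeakDual.isCompact_closedBall (𝕜 := ℝ) (E := E) 0 1
  let u : ℕ → WeakDual ℝ E := fun n => StrongDual.toWeakDual (F n)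
  obtain ⟨ψ, hψ, hle⟩ := hc.ultrafilter_le_nhds ((hyperfilter ℕ).map u) (by
    rw [le_principal_iff]
    refine Filter.mem_map.2 (Filter.Eventually.of_forall (fun n => ?_))
    show StrongDual.toWeakDual (F n) ∈ _
    simp only [mem_preimage, mem_closedBall_zero_iff]
    exact hF n)
  refine ⟨WeakDual.toStrongDual ψ, ?_, fun v => ?_⟩
  · simpa using hψ
  · have h1 : Tendsto u (hyperfilter ℕ : Filter ℕ) (𝓝 ψ) := hle
    exact ((WeakDual.eval_continuous v).tendsto ψ).comp h1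

end Pool.Agent.Lib.MP_a60229_an
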