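import Pool.Agent.Lib.MP_a60229_an.SepDual

set_option autoImplicit false
universe u

namespace Pool.Agent.Lib.MP_a60229_an

open Metric Set Filter Topology

variable {E : Type u} [NormedAddCommGroup E] [NormedSpace ℝ E]

/-- One refinement step: the oscillation along a subsequence can be made small. -/
theorem IsPolyhedral.exists_subseq_osc [CompleteSpace E] (hE : IsPolyhedral E)
    (f : ℕ → (E →L[ℝ] ℝ)) (hf : ∀ k, ‖f k‖ ≤ 1) {ε : ℝ} (hε : 0 < ε) (A : Set ℕ)
    (hA : A.Infinite) :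
    ∃ A' ⊆ A, A'.Infinite ∧ ∀ v : E, ‖v‖ ≤ 1 → ∀ c : ℝ,
      ¬ ({k | k ∈ A' ∧ f k v ≤ c}.Infinite ∧ {k | k ∈ A' ∧ c + ε ≤ f k v}.Infinite) := by
  classical
  by_contra hcon
  push Not at hcon
  have hcon' : ∀ A' : Set ℕ, ∃ v : E, ∃ c : ℝ, A' ⊆ A → A'.Infinite → ‖v‖ ≤ 1 ∧
      {k | k ∈ A' ∧ f k v ≤ c}.Infinite ∧ {k | k ∈ A' ∧ c + ε ≤ f k v}.Infinite := by
    intro A'
    by_cases h1 : A' ⊆ A ∧ A'.Infinite
    · obtain ⟨v, hv, c, hc⟩ := hcon A' h1.1 h1.2
      exact ⟨v, c, fun _ _ => ⟨hv, hc⟩⟩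
    · exact ⟨0, 0, fun h2 h3 => absurd ⟨h2, h3⟩ h1⟩
  choose V c hVc using hcon'
  let nxt : Set ℕ → Bool → Set ℕ := fun A' b =>
    if b = true then {k | k ∈ A' ∧ f k (V A') ≤ c A'} else {k | k ∈ A' ∧ c A' + ε ≤ f k (V A')}
  let T : List Bool → Set ℕ := fun s => s.rec A (fun b _ r => nxt r b)
  have hT0 : T [] = A := rfl
  have hTs : ∀ b s, T (b :: s) = nxt (T s) b := fun b s => rfl
  have hnxt : ∀ A' b, nxt A' b ⊆ A' := by
    intro A' b k hk
    by_cases hb : b = true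
    · have : nxt A' b = {k | k ∈ A' ∧ f k (V A') ≤ c A'} := if_pos hb
      rw [this] at hk
      exact hk.1
    · have : nxt A' b = {k | k ∈ A' ∧ c A' + ε ≤ f k (V A')} := if_neg hb
      rw [this] at hk
      exact hk.1
  have hT : ∀ s, T s ⊆ A ∧ (T s).Infinite := by
    intro s
    induction s with
    | nil => exact ⟨Subset.rfl, hA⟩
    | cons b s ih =>
      refine ⟨(hnxt _ _).trans ih.1, ?_⟩
      rw [hTs]
      by_cases hb : b = true
      · have : nxt (T s) b = {k | k ∈ T s ∧ f k (V (T s)) ≤ c (T s)} := if_pos hb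
        rw [this]
        exact (hVc (T s) ih.1 ih.2).2.1
      · have : nxt (T s) b = {k | k ∈ T s ∧ c (T s) + ε ≤ f k (V (T s))} := if_neg hb
        rw [this]
        exact (hVc (T s) ih.1 ih.2).2.2
  have hVn : ∀ s, ‖V (T s)‖ ≤ 1 := fun s => (hVc _ (hT s).1 (hT s).2).1
  -- the separable subspace
  set C : Set E := range (fun s : List Bool => V (T s)) with hC
  have hCc : C.Countable := countable_range _
  set S : Submodule ℝ E := (Submodule.span ℝ C).topologicalClosure with hS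
  have hSc : IsClosed (S : Set E) := Submodule.isClosed_topologicalClosure _
  have hCS : C ⊆ S := fun x hx => Submodule.le_topologicalClosure _ (Submodule.subset_span hx)
  have hScomp : CompleteSpace S := hSc.completeSpace_coe
  have hSsep : TopologicalSpace.SeparableSpace S := by
    have h1 : TopologicalSpace.IsSeparable (S : Set E) :=
      (hCc.isSeparable.span (R := ℝ)).closure
    exact h1.separableSpace
  have hDsep : TopologicalSpace.SeparableSpace (S →L[ℝ] ℝ) := (hE.subspace S).separable_dual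
  let g : ℕ → (S →L[ℝ] ℝ) := TopologicalSpace.denseSeq (S →L[ℝ] ℝ)
  have hg : DenseRange g := TopologicalSpace.denseRange_denseSeq _
  let vS : List Bool → S := fun s => ⟨V (T s), hCS ⟨s, rfl⟩⟩
  -- the branch
  let s : ℕ → List Bool := fun n => n.rec []
    (fun n r => (decide (c (T r) + ε / 2 < g n (vS r))) :: r)
  have hs : ∀ n, s (n + 1) = (decide (c (T (s n)) + ε / 2 < g n (vS (s n)))) :: s n :=
    fun n => rfl
  have hanti : Antitone (fun n => T (s n)) := antitone_nat_of_succ_le (fun n => by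
    show T (s (n + 1)) ⊆ T (s n)
    rw [hs, hTs]
    exact hnxt _ _)
  have hne : ∀ n, ∃ k, k ∈ T (s n) := fun n => (hT (s n)).2.nonempty
  choose κ hκ using hne
  obtain ⟨φ, _, hφ⟩ := exists_cluster (fun n => f (κ n)) (fun n => hf _)
  obtain ⟨n, hn₀⟩ := hg.exists_dist_lt (φ.comp S.subtypeL) (show 0 < ε / 4 by linarith)
  have hn : ‖φ.comp S.subtypeL - g n‖ < ε / 4 :=
    lt_of_eq_of_lt (dist_eq_norm (φ.comp S.subtypeL) (g n)).symm hn₀
  have hev : ∀ᶠ m in (hyperfilter ℕ : Filter ℕ), κ m ∈ T (s (n + 1)) := by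
    have h1 : ∀ᶠ m in atTop, κ m ∈ T (s (n + 1)) := by
      filter_upwards [eventually_ge_atTop (n + 1)] with m hm
      exact hanti hm (hκ m)
    exact Nat.hyperfilter_le_atTop h1
  have hdiff : |φ (V (T (s n))) - g n (vS (s n))| ≤ ε / 4 := by
    have h1 := (φ.comp S.subtypeL - g n).le_of_opNorm_le hn.le (vS (s n))
    have h2 : ‖vS (s n)‖ ≤ 1 := hVn (s n)
    rw [sub_apply, ContinuousLinearMap.comp_apply, Real.norm_eq_abs] at h1
    have h3 : S.subtypeL (vS (s n)) = V (T (s n)) := rfl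
    rw [h3] at h1
    have h4 : ε / 4 * ‖vS (s n)‖ ≤ ε / 4 * 1 :=
      mul_le_mul_of_nonneg_left h2 (by positivity)
    linarith
  have hd := abs_le.1 hdiff
  rw [hs, hTs] at hev
  by_cases hb : c (T (s n)) + ε / 2 < g n (vS (s n))
  · rw [decide_eq_true hb] at hev
    have h1 : nxt (T (s n)) true = {k | k ∈ T (s n) ∧ f k (V (T (s n))) ≤ c (T (s n))} :=
      if_pos rfl
    rw [h1] at hev
    have h2 : φ (V (T (s n))) ≤ c (T (s n)) :=
      le_of_tendsto (hφ _) (hev.mono (fun m hm => hm.2))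
    linarith [hd.1]
  · rw [decide_eq_false hb] at hev
    have h1 : nxt (T (s n)) false = {k | k ∈ T (s n) ∧ c (T (s n)) + ε ≤ f k (V (T (s n)))} :=
      if_neg (by simp)
    rw [h1] at hev
    have h2 : c (T (s n)) + ε ≤ φ (V (T (s n))) :=
      ge_of_tendsto (hφ _) (hev.mono (fun m hm => hm.2))
    push Not at hb
    linarith [hd.2]

/-- The dual ball of a polyhedral Banach space is weak-star sequentially compact. -/
theorem IsPolyhedral.exists_subseq [CompleteSpace E] (hE : IsPolyhedral E)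
    (f : ℕ → (E →L[ℝ] ℝ)) (hf : ∀ k, ‖f k‖ ≤ 1) :
    ∃ κ : ℕ → ℕ, StrictMono κ ∧ ∃ φ : E →L[ℝ] ℝ, ‖φ‖ ≤ 1 ∧
      ∀ v, Tendsto (fun n => f (κ n) v) atTop (𝓝 (φ v)) := by
  classical
  have hstep : ∀ (n : ℕ) (A : Set ℕ), ∃ A' : Set ℕ, A.Infinite → A' ⊆ A ∧ A'.Infinite ∧
      ∀ v : E, ‖v‖ ≤ 1 → ∀ c : ℝ, ¬ ({k | k ∈ A' ∧ f k v ≤ c}.Infinite ∧
        {k | k ∈ A' ∧ c + 1 / ((n : ℝ) + 1) ≤ f k v}.Infinite) := by
    intro n A
    by_cases hA : A.Infinite
    · obtain ⟨A', h1, h2, h3⟩ := hE.exists_subseq_osc f hf (ε := 1 / ((n : ℝ) + 1))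
        (by positivity) A hA
      exact ⟨A', fun _ => ⟨h1, h2, h3⟩⟩
    · exact ⟨∅, fun h => absurd h hA⟩
  choose N hN using hstep
  let B : ℕ → Set ℕ := fun n => n.rec univ (fun n r => N n r)
  have hB : ∀ n, B (n + 1) = N n (B n) := fun n => rfl
  have hBinf : ∀ n, (B n).Infinite := by
    intro n
    induction n with
    | zero => exact infinite_univ
    | succ n ih => rw [hB]; exact (hN n _ ih).2.1
  have hanti : Antitone B := antitone_nat_of_succ_le (fun n => by
    rw [hB]; exact (hN n _ (hBinf n)).1)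
  obtain ⟨κ, hκ, hκB⟩ := extraction_forall_of_frequently (P := fun n k => k ∈ B n)
    (fun n => Nat.frequently_atTop_iff_infinite.2 (hBinf n))
  have hconv1 : ∀ v : E, ‖v‖ ≤ 1 → ∃ L, Tendsto (fun n => f (κ n) v) atTop (𝓝 L) := by
    intro v hv
    have hbd : ∀ n, |f (κ n) v| ≤ 1 := by
      intro n
      have h1 := (f (κ n)).le_of_opNorm_le (hf _) v
      rw [Real.norm_eq_abs] at h1
      linarith
    refine tendsto_of_no_upcrossings (s := univ) dense_univ ?_ ?_ ?_
    · rintro a _ b _ hab ⟨h1, h2⟩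
      obtain ⟨m, hm⟩ := exists_nat_one_div_lt (show 0 < b - a by linarith)
      have hprop := (hN m _ (hBinf m)).2.2 v hv a
      apply hprop
      rw [← hB]
      have hinf : ∀ P : ℕ → Prop, (∃ᶠ n in atTop, P (κ n)) →
          {k | k ∈ B (m + 1) ∧ P k}.Infinite := by
        intro P hP
        rw [← Nat.frequently_atTop_iff_infinite]
        rw [frequently_atTop] at hP ⊢
        intro n₀
        obtain ⟨n, hn, hPn⟩ := hP (max n₀ (m + 1))
        refine ⟨κ n, ?_, hanti (le_of_max_le_right hn) (hκB n), hPn⟩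
        exact (le_of_max_le_left hn).trans (hκ.id_le n)
      constructor
      · exact hinf (fun k => f k v ≤ a) (h1.mono (fun n hn => le_of_lt hn))
      · exact hinf (fun k => a + 1 / ((m : ℝ) + 1) ≤ f k v)
          (h2.mono (fun n hn => by
            have : b < f (κ n) v := hn
            linarith))
    · exact isBoundedUnder_of ⟨1, fun n => (abs_le.1 (hbd n)).2⟩
    · exact isBoundedUnder_of ⟨-1, fun n => (abs_le.1 (hbd n)).1⟩
  have hconv : ∀ v : E, ∃ L, Tendsto (fun n => f (κ n) v) atTop (𝓝 L) := by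
    intro v
    have hn := norm_nonneg v
    have hpos : 0 < ‖v‖ + 1 := by linarith
    obtain ⟨L, hL⟩ := hconv1 ((‖v‖ + 1)⁻¹ • v) (by
      rw [norm_smul, norm_inv, Real.norm_eq_abs, abs_of_pos hpos, inv_mul_le_iff₀ hpos]
      linarith)
    refine ⟨(‖v‖ + 1) * L, (hL.const_mul (‖v‖ + 1)).congr (fun n => ?_)⟩
    rw [map_smul, smul_eq_mul, ← mul_assoc, mul_inv_cancel₀ hpos.ne', one_mul]
  obtain ⟨φ, hφ1, hφ⟩ := exists_cluster (fun n => f (κ n)) (fun n => hf _)
  refine ⟨κ, hκ, φ, hφ1, fun v => ?_⟩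
  obtain ⟨L, hL⟩ := hconv v
  have h1 := tendsto_nhds_unique (hφ v) (hL.mono_left Nat.hyperfilter_le_atTop)
  rw [h1]
  exact hL

end Pool.Agent.Lib.MP_a60229_an
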