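import Pool.Agent.Lib.MP_a60229_an.MainC
import Pool.Agent.Lib.MP_a60229_an.CNull

set_option autoImplicit false
universe u

namespace Pool.Agent.Lib.MP_a60229_an

open Metric Set Filter Topology Cardinal

/-- The space of null sequences is polyhedral. -/
theorem CNull.isStarBoundary :
    IsStarBoundary {f : CNull →L[ℝ] ℝ | ∃ k, f = CNull.coord k ∨ f = -CNull.coord k} where
  norm_le := by
    rintro f ⟨k, rfl | rfl⟩
    · exact CNull.coord_norm_le k
    · rw [norm_neg]
      exact CNull.coord_norm_le k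
  attains := by
    intro a ha
    have hex : ∃ k, |a k| = 1 := by
      by_contra hcon
      push Not at hcon
      have hlt : ∀ k, |a k| < 1 := fun k =>
        lt_of_le_of_ne (ha ▸ CNull.abs_le_norm a k) (hcon k)
      obtain ⟨N, hN⟩ := eventually_atTop.1 ((CNull.tendsto a).abs.eventually_lt_const
        (show |(0 : ℝ)| < 1 / 2 by rw [abs_zero]; norm_num))
      obtain ⟨C, hC1, hC⟩ : ∃ C : ℝ, C < 1 ∧ ∀ k ∈ Finset.range N, |a k| ≤ C := by
        rcases (Finset.range N).eq_empty_or_nonempty with hemp | hne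
        · exact ⟨0, one_pos, by rw [hemp]; simp⟩
        · obtain ⟨k₀, _, hk₀⟩ := (Finset.range N).exists_max_image (fun k => |a k|) hne
          exact ⟨|a k₀|, hlt k₀, hk₀⟩
      have h1 : ‖a‖ ≤ max C (1 / 2) := by
        refine (CNull.norm_le_iff (le_max_of_le_right (by norm_num))).2 (fun k => ?_)
        by_cases hk : k < N
        · exact (hC k (Finset.mem_range.2 hk)).trans (le_max_left _ _)
        · push Not at hk
          exact (hN k hk).le.trans (le_max_right _ _)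
      rw [ha] at h1
      have h2 : max C (1 / 2) < 1 := max_lt hC1 (by norm_num)
      linarith
    obtain ⟨k, hk⟩ := hex
    rcases abs_cases (a k) with ⟨h, _⟩ | ⟨h, _⟩
    · exact ⟨CNull.coord k, ⟨k, Or.inl rfl⟩, by rw [CNull.coord_apply]; linarith⟩
    · refine ⟨-CNull.coord k, ⟨k, Or.inr rfl⟩, ?_⟩
      rw [neg_apply, CNull.coord_apply]
      linarith
  finite_near := by
    intro a _
    obtain ⟨N, hN⟩ := eventually_atTop.1 ((CNull.tendsto a).abs.eventually_lt_const
      (show |(0 : ℝ)| < 1 / 2 by rw [abs_zero]; norm_num))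
    refine ⟨1 / 2, by norm_num, ?_⟩
    refine (((finite_lt_nat N).image CNull.coord).union
      ((finite_lt_nat N).image (fun k => -CNull.coord k))).subset ?_
    rintro f ⟨⟨k, rfl | rfl⟩, hf⟩
    · left
      refine ⟨k, ?_, rfl⟩
      by_contra hk
      have h1 := hN k (not_lt.1 hk)
      rw [CNull.coord_apply] at hf
      linarith [le_abs_self (a k)]
    · right
      refine ⟨k, ?_, rfl⟩
      by_contra hk
      have h1 := hN k (not_lt.1 hk)
      rw [neg_apply, CNull.coord_apply] at hf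
      linarith [neg_le_abs (a k)]

theorem CNull.isPolyhedral : IsPolyhedral CNull := CNull.isStarBoundary.isPolyhedral

variable {E : Type u} [NormedAddCommGroup E] [NormedSpace ℝ E]

/-- Elements of the ball scaled by the norm. -/
theorem exists_unit_rep (G : Submodule ℝ E) {x : E} (hx : x ∈ G) :
    ∃ y ∈ closedBall (0 : E) 1 ∩ (G : Set E), x = ‖x‖ • y := by
  rcases eq_or_ne x 0 with rfl | hx0
  · exact ⟨0, ⟨by simp, G.zero_mem⟩, by simp⟩
  · have hn : ‖x‖ ≠ 0 := norm_ne_zero_iff.2 hx0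
    refine ⟨‖x‖⁻¹ • x, ⟨?_, G.smul_mem _ hx⟩, ?_⟩
    · rw [mem_closedBall_zero_iff, norm_smul, norm_inv, norm_norm, inv_mul_cancel₀ hn]
    · rw [smul_smul, mul_inv_cancel₀ hn, one_smul]

/-- The `ℓ₁`-sum of two polyhedral spaces is polyhedral. -/
theorem IsPolyhedral.l1 {F : Type} [NormedAddCommGroup F] [NormedSpace ℝ F]
    (hE : IsPolyhedral E) (hF : IsPolyhedral F) : IsPolyhedral (WithLp 1 (E × F)) := by
  classical
  intro G hG
  set p1 : WithLp 1 (E × F) →L[ℝ] E := WithLp.fstL 1 ℝ E F with hp1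
  set p2 : WithLp 1 (E × F) →L[ℝ] F := WithLp.sndL 1 ℝ E F with hp2
  set G1 : Submodule ℝ E := G.map (p1 : WithLp 1 (E × F) →ₗ[ℝ] E) with hG1
  set G2 : Submodule ℝ F := G.map (p2 : WithLp 1 (E × F) →ₗ[ℝ] F) with hG2
  have hG1f : FiniteDimensional ℝ G1 := by rw [hG1]; infer_instance
  have hG2f : FiniteDimensional ℝ G2 := by rw [hG2]; infer_instance
  obtain ⟨V1, hV1f, hV1⟩ := hE.exists_finite G1
  obtain ⟨V2, hV2f, hV2⟩ := hF.exists_finite G2
  set j1 : E →ₗ[ℝ] WithLp 1 (E × F) :=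
    (WithLp.linearEquiv 1 ℝ (E × F)).symm.toLinearMap ∘ₗ LinearMap.inl ℝ E F with hj1
  set j2 : F →ₗ[ℝ] WithLp 1 (E × F) :=
    (WithLp.linearEquiv 1 ℝ (E × F)).symm.toLinearMap ∘ₗ LinearMap.inr ℝ E F with hj2
  have hj1n : ∀ w, ‖j1 w‖ = ‖w‖ := fun w => WithLp.norm_toLp_fst 1 E F w
  have hj2n : ∀ w, ‖j2 w‖ = ‖w‖ := fun w => WithLp.norm_toLp_snd 1 E F w
  have hdec : ∀ x : WithLp 1 (E × F), x = j1 x.fst + j2 x.snd := by
    intro x
    have h1 : j1 x.fst + j2 x.snd = WithLp.toLp 1 ((x.fst, 0) + (0, x.snd)) := rfl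
    rw [h1, Prod.mk_add_mk, add_zero, zero_add]
    rfl
  set S : Set (WithLp 1 (E × F)) := j1 '' V1 ∪ j2 '' V2 with hS
  have hSf : S.Finite := (hV1f.image j1).union (hV2f.image j2)
  have hconv1 : ∀ w ∈ closedBall (0 : E) 1 ∩ (G1 : Set E), j1 w ∈ convexHull ℝ S := by
    intro w hw
    rw [← hV1] at hw
    have h1 : j1 w ∈ j1 '' convexHull ℝ V1 := ⟨w, hw, rfl⟩
    rw [j1.image_convexHull] at h1
    exact convexHull_mono subset_union_left h1
  have hconv2 : ∀ w ∈ closedBall (0 : F) 1 ∩ (G2 : Set F), j2 w ∈ convexHull ℝ S := by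
    intro w hw
    rw [← hV2] at hw
    have h1 : j2 w ∈ j2 '' convexHull ℝ V2 := ⟨w, hw, rfl⟩
    rw [j2.image_convexHull] at h1
    exact convexHull_mono subset_union_right h1
  have h0 : (0 : WithLp 1 (E × F)) ∈ convexHull ℝ S := by
    have := hconv1 0 ⟨by simp, G1.zero_mem⟩
    rwa [map_zero] at this
  have heq : closedBall (0 : WithLp 1 (E × F)) 1 ∩ (G : Set (WithLp 1 (E × F)))
      = convexHull ℝ S ∩ (G : Set (WithLp 1 (E × F))) := by
    apply Subset.antisymm
    · rintro x ⟨hx, hxG⟩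
      refine ⟨?_, hxG⟩
      rw [mem_closedBall_zero_iff, WithLp.prod_norm_eq_of_L1] at hx
      obtain ⟨y1, hy1, he1⟩ := exists_unit_rep G1 (x := x.fst) ⟨x, hxG, rfl⟩
      obtain ⟨y2, hy2, he2⟩ := exists_unit_rep G2 (x := x.snd) ⟨x, hxG, rfl⟩
      have h1 := hconv1 y1 hy1
      have h2 := hconv2 y2 hy2
      have hn1 := norm_nonneg x.fst
      have hn2 := norm_nonneg x.snd
      have h3 : x = ‖x.fst‖ • j1 y1 + ‖x.snd‖ • j2 y2 := by
        rw [← map_smul, ← map_smul, ← he1, ← he2]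
        exact hdec x
      rw [h3]
      have hcv : Convex ℝ (convexHull ℝ S) := convex_convexHull ℝ S
      have h4 : ∑ i : Fin 3, (![‖x.fst‖, ‖x.snd‖, 1 - ‖x.fst‖ - ‖x.snd‖] : Fin 3 → ℝ) i •
          (![j1 y1, j2 y2, 0] : Fin 3 → WithLp 1 (E × F)) i ∈ convexHull ℝ S := by
        refine hcv.sum_mem ?_ ?_ ?_
        · intro i _
          fin_cases i
          · exact hn1
          · exact hn2
          · show 0 ≤ 1 - ‖x.fst‖ - ‖x.snd‖
            linarith
        · rw [Fin.sum_univ_three]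
          show ‖x.fst‖ + ‖x.snd‖ + (1 - ‖x.fst‖ - ‖x.snd‖) = 1
          ring
        · intro i _
          fin_cases i
          · exact h1
          · exact h2
          · exact h0
      rw [Fin.sum_univ_three] at h4
      have h5 : ‖x.fst‖ • j1 y1 + ‖x.snd‖ • j2 y2
          = ‖x.fst‖ • j1 y1 + ‖x.snd‖ • j2 y2 + (1 - ‖x.fst‖ - ‖x.snd‖) • 0 := by
        rw [smul_zero, add_zero]
      rw [h5]
      exact h4
    · rintro x ⟨hx, hxG⟩
      refine ⟨?_, hxG⟩
      refine (convexHull_min ?_ (convex_closedBall (0 : WithLp 1 (E × F)) 1)) hx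
      rintro y (⟨w, hw, rfl⟩ | ⟨w, hw, rfl⟩)
      · rw [mem_closedBall_zero_iff, hj1n]
        have : w ∈ closedBall (0 : E) 1 ∩ (G1 : Set E) := hV1 ▸ subset_convexHull ℝ V1 hw
        exact mem_closedBall_zero_iff.1 this.1
      · rw [mem_closedBall_zero_iff, hj2n]
        have : w ∈ closedBall (0 : F) 1 ∩ (G2 : Set F) := hV2 ▸ subset_convexHull ℝ V2 hw
        exact mem_closedBall_zero_iff.1 this.1
  rw [heq]
  exact finite_extreme_section hSf G

end Pool.Agent.Lib.MP_a60229_an
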