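import Pool.Agent.Lib.MP_a60229_an.Final

set_option autoImplicit false
universe u

namespace Pool.Agent.Lib.MP_a60229_an

open Metric Set Filter Topology Cardinal

instance CNull.separableSpace : TopologicalSpace.SeparableSpace CNull := by
  classical
  rw [← TopologicalSpace.isSeparable_univ_iff]
  have h1 : TopologicalSpace.IsSeparable
      (closure ((Submodule.span ℝ (range CNull.unit) : Submodule ℝ CNull) : Set CNull)) :=
    ((countable_range CNull.unit).isSeparable.span (R := ℝ)).closure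
  refine h1.mono (fun a _ => ?_)
  rw [Metric.mem_closure_iff]
  intro ε hε
  obtain ⟨N, hN⟩ := eventually_atTop.1 ((CNull.tendsto a).abs.eventually_lt_const
    (show |(0 : ℝ)| < ε / 2 by rw [abs_zero]; linarith))
  refine ⟨∑ j ∈ Finset.range N, a j • CNull.unit j, ?_, ?_⟩
  · exact Submodule.sum_mem _ (fun j _ => Submodule.smul_mem _ _ (Submodule.subset_span ⟨j, rfl⟩))
  · rw [dist_eq_norm]
    refine lt_of_le_of_lt ((CNull.norm_le_iff (by linarith : (0 : ℝ) ≤ ε / 2)).2 (fun k => ?_))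
      (by linarith)
    have h2 : (a - ∑ j ∈ Finset.range N, a j • CNull.unit j) k
        = a k - ∑ j ∈ Finset.range N, a j * CNull.unit j k := by
      have h3 := map_sum (CNull.coord k) (fun j => a j • CNull.unit j) (Finset.range N)
      rw [CNull.coord_apply] at h3
      rw [ZeroAtInftyContinuousMap.sub_apply, h3]
      congr 1
    rw [h2]
    by_cases hk : k < N
    · rw [Finset.sum_eq_single_of_mem k (Finset.mem_range.2 hk) (fun j _ hj => by
        rw [CNull.unit_ne (Ne.symm hj), mul_zero]), CNull.unit_self, mul_one, sub_self, abs_zero]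
      linarith
    · rw [Finset.sum_eq_zero (fun j hj => by
        rw [CNull.unit_ne (by
          rintro rfl
          exact hk (Finset.mem_range.1 hj)), mul_zero]), sub_zero]
      exact (hN k (not_lt.1 hk)).le

variable {E : Type u} [NormedAddCommGroup E] [NormedSpace ℝ E]

theorem put_eq_bound (b : CNull →L[ℝ] ℝ) (a : CNull) (k : ℕ) (s : ℝ) :
    b (CNull.put a k s) = b a + (s - a k) * b (CNull.unit k) := by
  show b (a + (s - a k) • CNull.unit k) = _
  rw [map_add, map_smul, smul_eq_mul]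

/-- The `ℓ₁`-sum of an infinite-dimensional polyhedral Banach space and the space of null
sequences has a polyhedral renorming whose unit ball is generated by extreme points. -/
theorem IsPolyhedral.exists_generated_sum [CompleteSpace E] (hE : IsPolyhedral E)
    (hfd : ¬ FiniteDimensional ℝ E) :
    ∃ (X : Type u) (_ : NormedAddCommGroup X) (_ : NormedSpace ℝ X),
      ∃ _T : WithLp 1 (E × CNull) ≃L[ℝ] X, IsPolyhedral X ∧
      Metric.closedBall (0 : X) 1 =
        closure (convexHull ℝ (Set.extremePoints ℝ (Metric.closedBall (0 : X) 1))) := by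
  classical
  have hX1 : IsPolyhedral (WithLp 1 (E × CNull)) := hE.l1 CNull.isPolyhedral
  have hfam := fun n : ℕ => hE.exists_family hfd (ε := 1 / ((n : ℝ) + 1)) (by positivity) (by
    have : (0 : ℝ) ≤ n := Nat.cast_nonneg _
    rw [div_le_one (by linarith)]
    linarith)
  choose I c z r hz hs hr hsep hreach using hfam
  let a : ℕ → CNull := TopologicalSpace.denseSeq CNull
  have ha : DenseRange a := TopologicalSpace.denseRange_denseSeq _
  let Λ : Type := {p : ℚ × ℕ × ℕ // 0 < (p.1 : ℝ) ∧ (p.1 : ℝ) + ‖a p.2.1‖ < 1}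
  obtain ⟨k, hk⟩ := exists_injective_nat Λ
  let ι : Type u := Σ l : Λ, I l.1.2.2
  let C : ι → (WithLp 1 (E × CNull) →L[ℝ] ℝ) := fun j => sumF (c _ j.2) (k j.1)
  let Z : ι → WithLp 1 (E × CNull) := fun j =>
    WithLp.toLp 1 ((j.1.1.1 : ℝ) • z _ j.2, CNull.put (a j.1.1.2.1) (k j.1) (1 - (j.1.1.1 : ℝ)))
  have hlt : ∀ l : Λ, ‖a l.1.2.1‖ < 1 - (l.1.1 : ℝ) := fun l => by
    have := l.2.2
    linarith
  have hZ : ∀ j, ‖Z j‖ = 1 := by
    intro j
    rw [WithLp.prod_norm_eq_of_L1]
    show ‖(j.1.1.1 : ℝ) • z _ j.2‖ + ‖CNull.put (a j.1.1.2.1) (k j.1) (1 - (j.1.1.1 : ℝ))‖ = 1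
    rw [CNull.norm_put (hlt j.1), norm_smul, hz, mul_one, Real.norm_eq_abs,
      abs_of_pos j.1.2.1]
    ring
  have hStr : ∀ j, StrictN (C j) (Z j) := fun j =>
    strictN_sum ((hs _ j.2).smul j.1.2.1) (CNull.strictN_put (hlt j.1))
  let rr : ι → ℝ := fun j => min (r j.1.1.2.2) 1
  have hrr : ∀ j, 0 < rr j := fun j => lt_min (hr _) one_pos
  have hsepC : ∀ j j', j ≠ j' → rr j ≤ ‖C j - C j'‖ ∧ rr j ≤ ‖C j + C j'‖ := by
    rintro ⟨l, i⟩ ⟨l', i'⟩ hne
    by_cases hl : l = l'
    · subst hl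
      have hi : i ≠ i' := by
        rintro rfl
        exact hne rfl
      have h1 := hsep _ i i' hi
      exact ⟨(min_le_left _ _).trans (h1.1.trans (norm_le_sumF_sub _ _ _ _)),
        (min_le_left _ _).trans (h1.2.trans (norm_le_sumF_add _ _ _ _))⟩
    · have hkl : k l ≠ k l' := fun h => hl (hk h)
      exact ⟨(min_le_right _ _).trans (one_le_sumF_sub _ _ hkl),
        (min_le_right _ _).trans (one_le_sumF_add _ _ hkl)⟩
  obtain ⟨f, y, δ, hsp, hδR, hyz⟩ := exists_spikes_of_family C Z hZ hStr rr hrr hsepC one_pos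
  have hreach' : ∀ G : WithLp 1 (E × CNull) →L[ℝ] ℝ, ‖G‖ = 1 → ∀ ε : ℝ, 0 < ε → ε < 1 →
      ∃ j, 1 - ε < G (y j) := by
    intro G hG ε hε hε1
    set j1 : E →L[ℝ] WithLp 1 (E × CNull) :=
      ((WithLp.prodContinuousLinearEquiv 1 ℝ E CNull).symm : (E × CNull) →L[ℝ] _).comp
        (ContinuousLinearMap.inl ℝ E CNull) with hj1
    set j2 : CNull →L[ℝ] WithLp 1 (E × CNull) :=
      ((WithLp.prodContinuousLinearEquiv 1 ℝ E CNull).symm : (E × CNull) →L[ℝ] _).comp
        (ContinuousLinearMap.inr ℝ E CNull) with hj2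
    have hj1n : ∀ w, ‖j1 w‖ = ‖w‖ := fun w => WithLp.norm_toLp_fst 1 E CNull w
    have hj2n : ∀ w, ‖j2 w‖ = ‖w‖ := fun w => WithLp.norm_toLp_snd 1 E CNull w
    have hdec : ∀ x : WithLp 1 (E × CNull), x = j1 x.fst + j2 x.snd := by
      intro x
      have h1 : j1 x.fst + j2 x.snd = WithLp.toLp 1 ((x.fst, 0) + (0, x.snd)) := rfl
      rw [h1, Prod.mk_add_mk, add_zero, zero_add]
      rfl
    set g : E →L[ℝ] ℝ := G.comp j1 with hg
    set b : CNull →L[ℝ] ℝ := G.comp j2 with hb
    have hGdec : ∀ x : WithLp 1 (E × CNull), G x = g x.fst + b x.snd := by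
      intro x
      conv_lhs => rw [hdec x]
      rw [map_add]
      rfl
    have hgn : ‖g‖ ≤ 1 := by
      refine ContinuousLinearMap.opNorm_le_bound _ zero_le_one (fun w => ?_)
      have h1 := G.le_of_opNorm_le hG.le (j1 w)
      rwa [hj1n] at h1
    have hbn : ‖b‖ ≤ 1 := by
      refine ContinuousLinearMap.opNorm_le_bound _ zero_le_one (fun w => ?_)
      have h1 := G.le_of_opNorm_le hG.le (j2 w)
      rwa [hj2n] at h1
    obtain ⟨x, hx1, hx2⟩ := exists_near_norm G (show 0 < ε / 8 by linarith)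
    rw [hG] at hx2
    set x' : WithLp 1 (E × CNull) := (1 - ε / 8) • x with hx'
    have hx'n : ‖x'.fst‖ + ‖x'.snd‖ < 1 := by
      rw [← WithLp.prod_norm_eq_of_L1, hx', norm_smul, Real.norm_eq_abs,
        abs_of_pos (by linarith)]
      nlinarith
    have hx'G : 1 - ε / 4 < g x'.fst + b x'.snd := by
      rw [← hGdec, hx', map_smul, smul_eq_mul]
      nlinarith
    have hn1 := norm_nonneg x'.fst
    have hn2 := norm_nonneg x'.snd
    obtain ⟨q, hq1, hq2⟩ := exists_rat_btwn (show ‖x'.fst‖ < 1 - ‖x'.snd‖ by linarith)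
    obtain ⟨m, hm⟩ := ha.exists_dist_lt x'.snd
      (show 0 < min (ε / 8) (1 - q - ‖x'.snd‖) from lt_min (by linarith) (by linarith))
    rw [dist_eq_norm] at hm
    have hm1 : ‖x'.snd - a m‖ < ε / 8 := hm.trans_le (min_le_left _ _)
    have hm2 : ‖x'.snd - a m‖ < 1 - q - ‖x'.snd‖ := hm.trans_le (min_le_right _ _)
    have hq0 : (0 : ℝ) < q := hn1.trans_lt hq1
    have hqm : (q : ℝ) + ‖a m‖ < 1 := by
      have h1 : ‖a m‖ ≤ ‖x'.snd‖ + ‖x'.snd - a m‖ := by
        have : a m = x'.snd - (x'.snd - a m) := by abel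
        calc ‖a m‖ = ‖x'.snd - (x'.snd - a m)‖ := by rw [← this]
          _ ≤ _ := norm_sub_le _ _
      linarith
    let L : ℕ → Λ := fun n => ⟨(q, m, n), hq0, hqm⟩
    have hL : Function.Injective (fun n => k (L n)) := by
      intro n n' h
      have h1 := hk h
      have h2 : (L n).1 = (L n').1 := congrArg _ h1
      exact congrArg (fun p : ℚ × ℕ × ℕ => p.2.2) h2
    have hLt : Tendsto (fun n => k (L n)) atTop atTop := hL.nat_tendsto_atTop
    have hbt : Tendsto (fun n => |b (CNull.unit (k (L n)))|) atTop (𝓝 0) :=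
      ((CNull.isWuc_unit.summable b).tendsto_atTop_zero).comp hLt
    obtain ⟨n, hn1', hn2'⟩ := ((hbt.eventually_lt_const (show 0 < ε / 16 by linarith)).and
      (tendsto_one_div_add_atTop_nhds_zero_nat (𝕜 := ℝ) |>.eventually_lt_const
        (show 0 < ε / 8 by linarith))).exists
    obtain ⟨i, hi⟩ := hreach n g hgn
    obtain ⟨j, d, hd, hj⟩ := hyz ⟨L n, i⟩
    refine ⟨j, ?_⟩
    have hGZ : G (Z ⟨L n, i⟩) = q * g (z n i) + (b (a m)
        + ((1 - q) - a m (k (L n))) * b (CNull.unit (k (L n)))) := by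
      rw [hGdec]
      show g ((q : ℝ) • z n i) + b (CNull.put (a m) (k (L n)) (1 - (q : ℝ))) = _
      rw [map_smul, smul_eq_mul, put_eq_bound]
    have e1 : g x'.fst - ε / 8 ≤ q * g (z n i) := by
      have h1 : g x'.fst ≤ ‖g‖ * ‖x'.fst‖ := by
        have := g.le_of_opNorm_le le_rfl x'.fst
        rw [Real.norm_eq_abs] at this
        exact (le_abs_self _).trans this
      have h2 : ‖g‖ * ‖x'.fst‖ ≤ ‖g‖ * q := mul_le_mul_of_nonneg_left hq1.le (norm_nonneg g)
      have h3 : (q : ℝ) * (‖g‖ - ε / 8) ≤ q * g (z n i) :=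
        mul_le_mul_of_nonneg_left (by linarith) hq0.le
      have hq1' : (q : ℝ) ≤ 1 := by
        have := norm_nonneg (a m)
        linarith
      nlinarith
    have e2 : b x'.snd - ε / 8 ≤ b (a m) := by
      have h1 := b.le_of_opNorm_le hbn (x'.snd - a m)
      rw [map_sub, one_mul, Real.norm_eq_abs] at h1
      linarith [le_abs_self (b x'.snd - b (a m))]
    have e3 : -(ε / 8) ≤ ((1 - q) - a m (k (L n))) * b (CNull.unit (k (L n))) := by
      have h1 : |(1 - q) - a m (k (L n))| ≤ 2 := by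
        have h2 := abs_le.1 (CNull.abs_le_norm (a m) (k (L n)))
        have h3 := norm_nonneg (a m)
        rw [abs_le]
        constructor <;> linarith [h2.1, h2.2]
      have h2 : |((1 - q) - a m (k (L n))) * b (CNull.unit (k (L n)))| ≤ 2 * (ε / 16) := by
        rw [abs_mul]
        exact mul_le_mul h1 hn1'.le (abs_nonneg _) (by norm_num)
      linarith [(abs_le.1 h2).1]
    have hZG : 1 - 5 * ε / 8 < G (Z ⟨L n, i⟩) := by
      rw [hGZ]
      linarith
    rw [hj, map_smul, smul_eq_mul]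
    have hpos : 0 < d * G (Z ⟨L n, i⟩) := mul_pos hd (by linarith)
    have hexp : (1 + d) * G (Z ⟨L n, i⟩) = G (Z ⟨L n, i⟩) + d * G (Z ⟨L n, i⟩) := by ring
    rw [hexp]
    linarith
  have hnt : ∃ x : WithLp 1 (E × CNull), x ≠ 0 := by
    refine ⟨WithLp.toLp 1 ((0 : E), CNull.unit 0), fun h => ?_⟩
    have h1 : (WithLp.toLp 1 ((0 : E), CNull.unit 0)).snd 0
        = (0 : WithLp 1 (E × CNull)).snd 0 := by rw [h]
    have h2 : CNull.unit 0 0 = 0 := h1
    rw [CNull.unit_self] at h2
    exact one_ne_zero h2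
  have hJ : Nonempty (ι × Bool) := by
    obtain ⟨x₁, hx₁⟩ := hnt
    obtain ⟨g₁, hg₁, _⟩ := exists_dual_vector ℝ x₁ (norm_ne_zero_iff.2 hx₁)
    obtain ⟨j, _⟩ := hreach' g₁ hg₁ (1 / 2) (by norm_num) (by norm_num)
    exact ⟨j⟩
  have hbody := hsp.isBody hX1 (show (0 : ℝ) ≤ 1 by norm_num) hδR
  obtain ⟨X, i1, i2, T, hT1, hT2⟩ := hbody.exists_renorm
  refine ⟨X, i1, i2, T, transport_poly T hT1 (fun G hG => hsp.section_finite hX1 G hG), ?_⟩
  refine (transport T hT1 (fun G hG => hsp.section_finite hX1 G hG) ?_).2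
  apply Subset.antisymm
  · intro x hx
    have htend : Tendsto (fun n : ℕ => (1 - 1 / ((n : ℝ) + 2)) • x) atTop
        (𝓝 ((1 - 0 : ℝ) • x)) := by
      have h0 : Tendsto (fun n : ℕ => 1 / ((n : ℝ) + 2)) atTop (𝓝 0) := by
        have h1 := (tendsto_one_div_add_atTop_nhds_zero_nat (𝕜 := ℝ)).comp
          (tendsto_add_atTop_nat 1)
        refine h1.congr (fun n => ?_)
        show 1 / (((n + 1 : ℕ) : ℝ) + 1) = 1 / ((n : ℝ) + 2)
        push_cast
        ring_nf
      exact (h0.const_sub 1).smul_const x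
    rw [sub_zero, one_smul] at htend
    refine isClosed_closure.mem_of_tendsto htend (Eventually.of_forall (fun n => ?_))
    have hn : (0 : ℝ) ≤ n := Nat.cast_nonneg n
    have hlt' : 1 / ((n : ℝ) + 2) < 1 := by rw [div_lt_one (by linarith)]; linarith
    have hpos : 0 < 1 / ((n : ℝ) + 2) := by positivity
    exact hsp.generated (ρ := 1 - 1 / ((n : ℝ) + 2)) (by linarith) (by linarith)
      (fun g hg => hreach' g hg _ hpos hlt') x hx
  · exact closure_minimal (convexHull_min extremePoints_subset hsp.convex) (hsp.isClosed hX1)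

/-- Every polyhedral Banach space has a polyhedral renorming whose closed unit ball is the closed
convex hull of its extreme points. -/
theorem IsPolyhedral.exists_generated [CompleteSpace E] (hE : IsPolyhedral E) :
    ∃ (X : Type u) (_ : NormedAddCommGroup X) (_ : NormedSpace ℝ X),
      ∃ _T : E ≃L[ℝ] X, IsPolyhedral X ∧
      Metric.closedBall (0 : X) 1 =
        closure (convexHull ℝ (Set.extremePoints ℝ (Metric.closedBall (0 : X) 1))) := by
  by_cases hfd : FiniteDimensional ℝ E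
  · have : ProperSpace E := FiniteDimensional.proper_real E
    exact ⟨E, inferInstance, inferInstance, ContinuousLinearEquiv.refl ℝ E, hE,
      (closure_convexHull_extremePoints (isCompact_closedBall (0 : E) 1)
        (convex_closedBall _ _)).symm⟩
  · obtain ⟨e⟩ := hE.exists_equiv_prod hfd
    obtain ⟨X, i1, i2, T, hp, hg⟩ := hE.exists_generated_sum hfd
    exact ⟨X, i1, i2, (e.trans (WithLp.prodContinuousLinearEquiv 1 ℝ E CNull).symm).trans T, hp,
      hg⟩

end Pool.Agent.Lib.MP_a60229_an
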